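import Mathlib
import Pool.Agent.Hhelper8.Free

/-!
A kernel friendly checker for identities in nonassociative anticommutative rings.
-/

namespace Pool.Agent.Hhelper8.Chk

open Pool.Agent.Hhelper8

/-- trees: letters, products, nodes for a 4-ary and a 6-ary operation -/
inductive T where
  | v (n : ℕ) : T
  | m (a b : T) : T
  | p (a b c d : T) : T
  | w (u a b c d e : T) : T

namespace T

/-- boolean equality of trees -/
def beq : T → T → Bool
  | v n, v k => n == k
  | m a b, m a' b' => beq a a' && beq b b'
  | p a b c d, p a' b' c' d' => beq a a' && beq b b' && beq c c' && beq d d'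
  | w u a b c d e, w u' a' b' c' d' e' =>
      beq u u' && beq a a' && beq b b' && beq c c' && beq d d' && beq e e'
  | _, _ => false

theorem eq_of_beq : ∀ {s t : T}, beq s t = true → s = t := by
  intro s
  induction s with
  | v n => intro t h; cases t <;> simp_all [beq]
  | m a b iha ihb =>
    intro t h
    cases t with
    | m a' b' =>
      simp only [beq, Bool.and_eq_true] at h
      rw [iha h.1, ihb h.2]
    | _ => simp [beq] at h
  | p a b c d iha ihb ihc ihd =>
    intro t h
    cases t with
    | p a' b' c' d' =>
      simp only [beq, Bool.and_eq_true] at h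
      rw [iha h.1.1.1, ihb h.1.1.2, ihc h.1.2, ihd h.2]
    | _ => simp [beq] at h
  | w u a b c d e ihu iha ihb ihc ihd ihe =>
    intro t h
    cases t with
    | w u' a' b' c' d' e' =>
      simp only [beq, Bool.and_eq_true] at h
      rw [ihu h.1.1.1.1.1, iha h.1.1.1.1.2, ihb h.1.1.1.2, ihc h.1.1.2, ihd h.1.2, ihe h.2]
    | _ => simp [beq] at h

/-- substitution of trees for letters -/
def subst (f : ℕ → T) : T → T
  | v n => f n
  | m a b => m (subst f a) (subst f b)
  | p a b c d => p (subst f a) (subst f b) (subst f c) (subst f d)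
  | w u a b c d e => w (subst f u) (subst f a) (subst f b) (subst f c) (subst f d) (subst f e)

/-- transposition of two letters -/
def swapL (i j : ℕ) : T → T
  | v n => v (if n = i then j else if n = j then i else n)
  | m a b => m (swapL i j a) (swapL i j b)
  | p a b c d => p (swapL i j a) (swapL i j b) (swapL i j c) (swapL i j d)
  | w u a b c d e => w (swapL i j u) (swapL i j a) (swapL i j b) (swapL i j c) (swapL i j d)
      (swapL i j e)

/-- the word of the letters in `O` -/
def word (O : List ℕ) : T → List ℕ → List ℕ
  | v n, acc => bif O.elem n then n :: acc else acc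
  | m a b, acc => word O a (word O b acc)
  | p a b c d, acc => word O a (word O b (word O c (word O d acc)))
  | w u a b c d e, acc => word O u (word O a (word O b (word O c (word O d (word O e acc)))))

end T

open T

/-- result of the canonicalisation: sign, code, number of bits of the code, parity of the number
of odd letters, tree, and variants of the tree with the opposite value -/
structure R where
  s : Bool
  k : ℕ
  l : ℕ
  o : Bool
  t : T
  vs : List T

/-- compare and exchange two results -/
def cx {α : Type} (a b : R) (f : Bool → R → R → α) : α := bif Nat.blt b.k a.k then f true b a else f false a b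

/-- does swapping the equal neighbours `a`, `b` give a variant -/
def tie (a b : R) : Bool := Nat.beq a.k b.k && !a.o

/-- canonicalisation -/
def canon (O : List ℕ) : T → R
  | v n => bif O.elem n then ⟨false, (n / 16) * 4096 + 16, 20, true, v n, []⟩
      else ⟨false, n * 256, 20, false, v n, []⟩
  | m a b =>
    cx (canon O a) (canon O b) fun s a b =>
      ⟨Bool.xor s (Bool.xor a.s b.s), ((a.k <<< b.l) + b.k) * 16 + 1, a.l + b.l + 4,
        Bool.xor a.o b.o, m a.t b.t,
        (bif tie a b then [m b.t a.t] else []) ++ a.vs.map (fun x => m x b.t) ++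
          b.vs.map (fun x => m a.t x)⟩
  | p a b c d =>
    cx (canon O a) (canon O b) fun s1 a b =>
    cx b (canon O c) fun s2 b c =>
    cx a b fun s3 a b =>
    let d := canon O d
    ⟨Bool.xor (Bool.xor (Bool.xor s1 s2) s3) (Bool.xor (Bool.xor a.s b.s) (Bool.xor c.s d.s)),
        ((((((a.k <<< b.l) + b.k) <<< c.l) + c.k) <<< d.l) + d.k) * 16 + 2,
        a.l + b.l + c.l + d.l + 4,
        Bool.xor (Bool.xor a.o b.o) (Bool.xor c.o d.o), p a.t b.t c.t d.t,
        (bif tie a b then [p b.t a.t c.t d.t] else []) ++
        (bif tie b c then [p a.t c.t b.t d.t] else []) ++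
        a.vs.map (fun x => p x b.t c.t d.t) ++ b.vs.map (fun x => p a.t x c.t d.t) ++
        c.vs.map (fun x => p a.t b.t x d.t) ++ d.vs.map (fun x => p a.t b.t c.t x)⟩
  | w u a b c d e =>
    cx (canon O a) (canon O b) fun s1 a b =>
    cx b (canon O c) fun s2 b c =>
    cx c (canon O d) fun s3 c d =>
    cx d (canon O e) fun s4 d e =>
    cx a b fun s5 a b =>
    cx b c fun s6 b c =>
    cx c d fun s7 c d =>
    cx a b fun s8 a b =>
    cx b c fun s9 b c =>
    cx a b fun s10 a b =>
    let u := canon O u
    ⟨Bool.xor (Bool.xor (Bool.xor (Bool.xor s1 s2) (Bool.xor s3 s4))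
          (Bool.xor (Bool.xor s5 s6) (Bool.xor s7 s8)))
          (Bool.xor (Bool.xor (Bool.xor s9 s10) (Bool.xor u.s a.s))
          (Bool.xor (Bool.xor b.s c.s) (Bool.xor d.s e.s))),
        ((((((((((u.k <<< a.l) + a.k) <<< b.l) + b.k) <<< c.l) + c.k) <<< d.l) + d.k) <<< e.l)
          + e.k) * 16 + 3,
        u.l + a.l + b.l + c.l + d.l + e.l + 4,
        Bool.xor (Bool.xor (Bool.xor u.o a.o) (Bool.xor b.o c.o)) (Bool.xor d.o e.o),
        w u.t a.t b.t c.t d.t e.t,
        (bif tie a b then [w u.t b.t a.t c.t d.t e.t] else []) ++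
        (bif tie b c then [w u.t a.t c.t b.t d.t e.t] else []) ++
        (bif tie c d then [w u.t a.t b.t d.t c.t e.t] else []) ++
        (bif tie d e then [w u.t a.t b.t c.t e.t d.t] else []) ++
        u.vs.map (fun x => w x a.t b.t c.t d.t e.t) ++
        a.vs.map (fun x => w u.t x b.t c.t d.t e.t) ++
        b.vs.map (fun x => w u.t a.t x c.t d.t e.t) ++
        c.vs.map (fun x => w u.t a.t b.t x d.t e.t) ++
        d.vs.map (fun x => w u.t a.t b.t c.t x e.t) ++
        e.vs.map (fun x => w u.t a.t b.t c.t d.t x)⟩

/-- number of elements of the list in the same class as `x` -/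
def cntSame (x : ℕ) : List ℕ → ℕ
  | [] => 0
  | y :: l => bif Nat.beq (y / 16) (x / 16) then cntSame x l + 1 else cntSame x l

/-- relabelling of the odd letters so that in each class they occur in the standard order -/
def relab (O : List ℕ) : ℕ → List ℕ → List ℕ → Bool → T → Bool × T
  | 0, _, _, s, t => (s, t)
  | _ + 1, [], _, s, t => (s, t)
  | n + 1, x :: l, seen, s, t =>
    let y := 16 * (x / 16) + cntSame x seen
    bif Nat.beq x y then relab O n l (x :: seen) s t
    else bif O.elem x && O.elem y && Nat.beq (x / 16) (y / 16) then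
      relab O n (l.map fun z => if z = x then y else if z = y then x else z) (y :: seen) (!s)
        (swapL x y t)
    else (s, t)

/-- relabelling -/
def norm1 (O : List ℕ) (t : T) : Bool × T := relab O 16 (word O t []) [] false t

/-- is one of the variants equal with the same sign -/
def anyZero (O : List ℕ) (r : Bool × T) : List T → Bool
  | [] => false
  | x :: l => (let q := norm1 O x; (q.1 == r.1) && T.beq q.2 r.2) || anyZero O r l

/-- normalised monomials: coefficient, code, tree -/
structure E where
  c : ℤ
  k : ℕ
  t : T

/-- normalisation of one monomial -/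
def nmono (O : List ℕ) (c : ℤ) (t : T) : List E :=
  let r := canon O t
  let q := norm1 O r.t
  bif anyZero O q r.vs then [] else [⟨bif Bool.xor r.s q.1 then -c else c, r.k, q.2⟩]

/-- merging two lists of monomials -/
def merge : ℕ → List E → List E → List E
  | 0, l1, l2 => l1 ++ l2
  | _ + 1, [], l2 => l2
  | _ + 1, a :: l1, [] => a :: l1
  | n + 1, a :: l1, b :: l2 =>
    bif Nat.blt a.k b.k then a :: merge n l1 (b :: l2)
    else bif Nat.blt b.k a.k then b :: merge n (a :: l1) l2
    else bif T.beq a.t b.t then
      (let c := a.c + b.c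
       bif c == 0 then merge n l1 l2 else ⟨c, a.k, a.t⟩ :: merge n l1 l2)
    else a :: merge n l1 (b :: l2)

/-- polynomials: lists of monomials with coefficients -/
abbrev P := List (ℤ × T)

/-- split a list into two halves -/
def splt {α : Type} : List α → List α × List α
  | [] => ([], [])
  | a :: l => let r := splt l; (a :: r.2, r.1)

/-- all normalised monomials, unsorted -/
def normL (O : List ℕ) : P → List E
  | [] => []
  | a :: l => nmono O a.1 a.2 ++ normL O l

/-- normal form of a polynomial -/
def norm (O : List ℕ) : ℕ → P → List E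
  | 0, l => normL O l
  | _ + 1, [] => []
  | _ + 1, [a] => nmono O a.1 a.2
  | n + 1, a :: b :: l =>
    let r := splt (a :: b :: l)
    merge 1000000 (norm O n r.1) (norm O n r.2)

/-- check that the polynomial is zero -/
def zeroChk (O : List ℕ) (q : P) : Bool := (norm O 40 q).isEmpty

/-! polynomial operations -/

/-- scalar multiple -/
def smulP (n : ℤ) (q : P) : P := q.map fun x => (n * x.1, x.2)

/-- product -/
def mulP (q r : P) : P := q.flatMap fun x => r.map fun y => (x.1 * y.1, T.m x.2 y.2)

/-- Jacobian -/
def Jp (x y z : P) : P := mulP (mulP x y) z ++ mulP (mulP y z) x ++ mulP (mulP z x) y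

/-- `S4` -/
def S4p (a b c u : P) : P :=
  mulP (mulP (mulP a b) c) u ++ smulP (-1) (mulP (mulP (mulP a b) u) c) ++
    smulP 2 (mulP (mulP a b) (mulP c u))

/-- `P6` -/
def P6p (a b c u : P) : P := S4p a c b u ++ S4p a u b c ++ smulP (-1) (S4p a b c u)

/-- `6 Ω` -/
def Omp (u x y z p q : P) : P := Jp (P6p x y z u) p q ++ smulP (-1) (P6p x y z (Jp u p q))

/-- expansion of a tree into products -/
def expd : T → P
  | .v n => [(1, .v n)]
  | .m a b => mulP (expd a) (expd b)
  | .p a b c d => P6p (expd a) (expd b) (expd c) (expd d)
  | .w u a b c d e => Omp (expd u) (expd a) (expd b) (expd c) (expd d) (expd e)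

/-- expansion of a polynomial -/
def expP (q : P) : P := q.flatMap fun x => smulP x.1 (expd x.2)

/-- an instance of a template: coefficient, number of the template, slots, right factors -/
structure I where
  n : ℤ
  k : ℕ
  sl : List T
  cx : List T

/-- the polynomial of an instance -/
def inst (tm : List P) (i : I) : P :=
  i.cx.foldl (fun q c => q.map fun x => (x.1, T.m x.2 c))
    ((tm.getD i.k []).map fun x => (i.n * x.1, x.2.subst fun j => i.sl.getD j (.v 0)))

/-- the polynomial of a certificate -/
def instAll (tm : List P) (l : List I) : P := l.flatMap (inst tm)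

/-- antisymmetry of `q` under all transpositions of letters of `O` in the same class -/
def symChk (O : List ℕ) (q : P) : Bool :=
  O.all fun i => O.all fun j => bif Nat.blt i j && Nat.beq (i / 16) (j / 16) then
    zeroChk [] (q ++ q.map fun x => (x.1, swapL i j x.2)) else true

/-- the Sagle identity -/
def sagle : P :=
  [(1, .m (.m (.v 0) (.v 2)) (.m (.v 1) (.v 3))),
   (-1, .m (.m (.m (.v 0) (.v 1)) (.v 2)) (.v 3)),
   (-1, .m (.m (.m (.v 1) (.v 2)) (.v 3)) (.v 0)),
   (-1, .m (.m (.m (.v 2) (.v 3)) (.v 0)) (.v 1)),
   (-1, .m (.m (.m (.v 3) (.v 0)) (.v 1)) (.v 2))]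

end Pool.Agent.Hhelper8.Chk
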