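import Mathlib
import Pool.Agent.Hhelper8.Free
import Pool.Agent.Hhelper8.Cert.Checker

/-!
Soundness of the checker.
-/

namespace Pool.Agent.Hhelper8.Chk

open Pool.Agent.Hhelper8 T

/-- interpretation of the two kinds of nodes -/
structure Ops (A : Type*) where
  ph : A → A → A → A → A
  om : A → A → A → A → A → A → A

variable {A : Type*} [NonUnitalNonAssocRing A]

/-- the symmetries used by the canonicalisation -/
structure Ops.Good (o : Ops A) : Prop where
  anti : ∀ x y : A, x * y = -(y * x)
  ph1 : ∀ a b c d, o.ph (-a) b c d = -o.ph a b c d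
  ph2 : ∀ a b c d, o.ph a (-b) c d = -o.ph a b c d
  ph3 : ∀ a b c d, o.ph a b (-c) d = -o.ph a b c d
  ph4 : ∀ a b c d, o.ph a b c (-d) = -o.ph a b c d
  ph12 : ∀ a b c d, o.ph b a c d = -o.ph a b c d
  ph23 : ∀ a b c d, o.ph a c b d = -o.ph a b c d
  om0 : ∀ u a b c d e, o.om (-u) a b c d e = -o.om u a b c d e
  om1 : ∀ u a b c d e, o.om u (-a) b c d e = -o.om u a b c d e
  om2 : ∀ u a b c d e, o.om u a (-b) c d e = -o.om u a b c d e
  om3 : ∀ u a b c d e, o.om u a b (-c) d e = -o.om u a b c d e
  om4 : ∀ u a b c d e, o.om u a b c (-d) e = -o.om u a b c d e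
  om5 : ∀ u a b c d e, o.om u a b c d (-e) = -o.om u a b c d e
  om12 : ∀ u a b c d e, o.om u b a c d e = -o.om u a b c d e
  om23 : ∀ u a b c d e, o.om u a c b d e = -o.om u a b c d e
  om34 : ∀ u a b c d e, o.om u a b d c e = -o.om u a b c d e
  om45 : ∀ u a b c d e, o.om u a b c e d = -o.om u a b c d e

/-- value of a tree -/
def T.ev (o : Ops A) (b : ℕ → A) : T → A
  | v n => b n
  | m x y => x.ev o b * y.ev o b
  | p x y z u => o.ph (x.ev o b) (y.ev o b) (z.ev o b) (u.ev o b)
  | w u x y z r s => o.om (u.ev o b) (x.ev o b) (y.ev o b) (z.ev o b) (r.ev o b) (s.ev o b)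

/-- value of a polynomial -/
def evQ (o : Ops A) (b : ℕ → A) (q : P) : A := (q.map fun x => x.1 • x.2.ev o b).sum

/-- change of sign -/
def sg (s : Bool) (x : A) : A := bif s then -x else x

@[simp] theorem sg_true (x : A) : sg true x = -x := rfl
@[simp] theorem sg_false (x : A) : sg false x = x := rfl

theorem sg_xor (s t : Bool) (x : A) : sg (Bool.xor s t) x = sg s (sg t x) := by
  cases s <;> cases t <;> simp

theorem sg_sg (s : Bool) (x : A) : sg s (sg s x) = x := by
  cases s <;> simp

theorem sg_comm (s t : Bool) (x : A) : sg s (sg t x) = sg t (sg s x) := by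
  cases s <;> cases t <;> simp

theorem sg_app (s : Bool) (f : A → A) (hf : ∀ x, f (-x) = -f x) (x : A) :
    f (sg s x) = sg s (f x) := by
  cases s <;> simp [hf]

theorem sg_neg (s : Bool) (x : A) : sg s (-x) = -sg s x := by
  cases s <;> simp

/-- value of a result -/
def R.rv (o : Ops A) (b : ℕ → A) (r : R) : A := sg r.s (r.t.ev o b)

/-- the variants have the opposite value -/
def R.Ok (o : Ops A) (b : ℕ → A) (r : R) : Prop := ∀ y ∈ r.vs, y.ev o b = -r.t.ev o b

theorem cx_step {o : Ops A} {b : ℕ → A} {α : Type} (x y : R) (f : Bool → R → R → α)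
    (C : α → Prop) (hx : x.Ok o b) (hy : y.Ok o b)
    (h : ∀ s x' y', x'.Ok o b → y'.Ok o b →
      (∀ F : A → A → A, (∀ u v, F v u = -F u v) →
        F (x.rv o b) (y.rv o b) = sg s (F (x'.rv o b) (y'.rv o b))) → C (f s x' y')) :
    C (cx x y f) := by
  unfold cx
  cases Nat.blt y.k x.k with
  | true => exact h true y x hy hx (fun F hF => by rw [sg_true, ← hF])
  | false => exact h false x y hx hy (fun F hF => rfl)

theorem canon_ok (o : Ops A) (hg : o.Good) (O : List ℕ) (b : ℕ → A) (t : T) :
    (canon O t).rv o b = t.ev o b ∧ (canon O t).Ok o b := by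
  induction t with
  | v n =>
    unfold canon
    cases O.elem n <;> simp [R.rv, R.Ok, T.ev]
  | m x y ihx ihy =>
    unfold canon
    refine cx_step (o := o) (b := b) _ _ _ (fun r => R.rv o b r = (m x y).ev o b ∧ R.Ok o b r)
      ihx.2 ihy.2 ?_
    intro s x' y' hx' hy' hF
    have h1 := hF (fun u v => u * v) (fun u v => hg.anti v u)
    rw [ihx.1, ihy.1] at h1
    constructor
    · show sg _ (x'.t.ev o b * y'.t.ev o b) = x.ev o b * y.ev o b
      rw [h1, sg_xor, sg_xor]
      congr 1
      unfold R.rv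
      rw [sg_app x'.s (fun u => u * _) (fun u => neg_mul u _),
        sg_app y'.s (fun u => _ * u) (fun u => mul_neg _ u)]
    · intro z hz
      simp only [List.mem_append, List.mem_map] at hz
      show z.ev o b = -(x'.t.ev o b * y'.t.ev o b)
      rcases hz with (hz | ⟨z', hz', rfl⟩) | ⟨z', hz', rfl⟩
      · cases h : tie x' y' with
        | true =>
          rw [h] at hz
          simp at hz
          subst hz
          exact hg.anti _ _
        | false => rw [h] at hz; simp at hz
      · show z'.ev o b * _ = _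
        rw [hx' z' hz', neg_mul]
      · show _ * z'.ev o b = _
        rw [hy' z' hz', mul_neg]
  | p x y z u ihx ihy ihz ihu =>
    unfold canon
    refine cx_step (o := o) (b := b) _ _ _ (fun r => R.rv o b r = (p x y z u).ev o b ∧ R.Ok o b r)
      ihx.2 ihy.2 ?_
    intro s1 x1 y1 hx1 hy1 hF1
    refine cx_step (o := o) (b := b) _ _ _ (fun r => R.rv o b r = (p x y z u).ev o b ∧ R.Ok o b r)
      hy1 ihz.2 ?_
    intro s2 y2 z2 hy2 hz2 hF2
    refine cx_step (o := o) (b := b) _ _ _ (fun r => R.rv o b r = (p x y z u).ev o b ∧ R.Ok o b r)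
      hx1 hy2 ?_
    intro s3 x3 y3 hx3 hy3 hF3
    have h1 := hF1 (fun a b' => o.ph a b' (z.ev o b) (u.ev o b)) (fun _ _ => hg.ph12 _ _ _ _)
    have h2 := hF2 (fun a b' => o.ph (x1.rv o b) a b' (u.ev o b)) (fun _ _ => hg.ph23 _ _ _ _)
    have h3 := hF3 (fun a b' => o.ph a b' (z2.rv o b) (u.ev o b)) (fun _ _ => hg.ph12 _ _ _ _)
    rw [ihx.1, ihy.1] at h1
    rw [ihz.1] at h2
    constructor
    · show sg _ (o.ph (x3.t.ev o b) (y3.t.ev o b) (z2.t.ev o b) ((canon O u).t.ev o b)) =
        o.ph (x.ev o b) (y.ev o b) (z.ev o b) (u.ev o b)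
      rw [h1, h2, h3, ← ihu.1]
      unfold R.rv
      rw [sg_app _ (fun q => o.ph q _ _ _) (fun _ => hg.ph1 _ _ _ _),
        sg_app _ (fun q => o.ph _ q _ _) (fun _ => hg.ph2 _ _ _ _),
        sg_app _ (fun q => o.ph _ _ q _) (fun _ => hg.ph3 _ _ _ _),
        sg_app _ (fun q => o.ph _ _ _ q) (fun _ => hg.ph4 _ _ _ _)]
      simp only [sg_xor]
    · intro q hq
      simp only [List.mem_append, List.mem_map] at hq
      show q.ev o b = -(o.ph (x3.t.ev o b) (y3.t.ev o b) (z2.t.ev o b) ((canon O u).t.ev o b))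
      rcases hq with ((((hq | hq) | ⟨q', hq', rfl⟩) | ⟨q', hq', rfl⟩) | ⟨q', hq', rfl⟩) |
        ⟨q', hq', rfl⟩
      · cases h : tie x3 y3 with
        | true => rw [h] at hq; simp at hq; subst hq; exact hg.ph12 _ _ _ _
        | false => rw [h] at hq; simp at hq
      · cases h : tie y3 z2 with
        | true => rw [h] at hq; simp at hq; subst hq; exact hg.ph23 _ _ _ _
        | false => rw [h] at hq; simp at hq
      · show o.ph (q'.ev o b) _ _ _ = _
        rw [hx3 q' hq', hg.ph1]
      · show o.ph _ (q'.ev o b) _ _ = _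
        rw [hy3 q' hq', hg.ph2]
      · show o.ph _ _ (q'.ev o b) _ = _
        rw [hz2 q' hq', hg.ph3]
      · show o.ph _ _ _ (q'.ev o b) = _
        rw [ihu.2 q' hq', hg.ph4]
  | w u x y z r s ihu ihx ihy ihz ihr ihs =>
    unfold canon
    refine cx_step (o := o) (b := b) _ _ _
      (fun q => R.rv o b q = (w u x y z r s).ev o b ∧ R.Ok o b q) ihx.2 ihy.2 ?_
    intro s1 x1 y1 hx1 hy1 hF1
    refine cx_step (o := o) (b := b) _ _ _
      (fun q => R.rv o b q = (w u x y z r s).ev o b ∧ R.Ok o b q) hy1 ihz.2 ?_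
    intro s2 y2 z2 hy2 hz2 hF2
    refine cx_step (o := o) (b := b) _ _ _
      (fun q => R.rv o b q = (w u x y z r s).ev o b ∧ R.Ok o b q) hz2 ihr.2 ?_
    intro s3 z3 r3 hz3 hr3 hF3
    refine cx_step (o := o) (b := b) _ _ _
      (fun q => R.rv o b q = (w u x y z r s).ev o b ∧ R.Ok o b q) hr3 ihs.2 ?_
    intro s4 r4 t4 hr4 ht4 hF4
    refine cx_step (o := o) (b := b) _ _ _
      (fun q => R.rv o b q = (w u x y z r s).ev o b ∧ R.Ok o b q) hx1 hy2 ?_
    intro s5 x5 y5 hx5 hy5 hF5
    refine cx_step (o := o) (b := b) _ _ _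
      (fun q => R.rv o b q = (w u x y z r s).ev o b ∧ R.Ok o b q) hy5 hz3 ?_
    intro s6 y6 z6 hy6 hz6 hF6
    refine cx_step (o := o) (b := b) _ _ _
      (fun q => R.rv o b q = (w u x y z r s).ev o b ∧ R.Ok o b q) hz6 hr4 ?_
    intro s7 z7 r7 hz7 hr7 hF7
    refine cx_step (o := o) (b := b) _ _ _
      (fun q => R.rv o b q = (w u x y z r s).ev o b ∧ R.Ok o b q) hx5 hy6 ?_
    intro s8 x8 y8 hx8 hy8 hF8
    refine cx_step (o := o) (b := b) _ _ _
      (fun q => R.rv o b q = (w u x y z r s).ev o b ∧ R.Ok o b q) hy8 hz7 ?_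
    intro s9 y9 z9 hy9 hz9 hF9
    refine cx_step (o := o) (b := b) _ _ _
      (fun q => R.rv o b q = (w u x y z r s).ev o b ∧ R.Ok o b q) hx8 hy9 ?_
    intro s10 x10 y10 hx10 hy10 hF10
    have h1 := hF1 (fun a b' => o.om (u.ev o b) a b' (z.ev o b) (r.ev o b) (s.ev o b))
      (fun _ _ => hg.om12 _ _ _ _ _ _)
    have h2 := hF2 (fun a b' => o.om (u.ev o b) (x1.rv o b) a b' (r.ev o b) (s.ev o b))
      (fun _ _ => hg.om23 _ _ _ _ _ _)
    have h3 := hF3 (fun a b' => o.om (u.ev o b) (x1.rv o b) (y2.rv o b) a b' (s.ev o b))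
      (fun _ _ => hg.om34 _ _ _ _ _ _)
    have h4 := hF4 (fun a b' => o.om (u.ev o b) (x1.rv o b) (y2.rv o b) (z3.rv o b) a b')
      (fun _ _ => hg.om45 _ _ _ _ _ _)
    have h5 := hF5 (fun a b' => o.om (u.ev o b) a b' (z3.rv o b) (r4.rv o b) (t4.rv o b))
      (fun _ _ => hg.om12 _ _ _ _ _ _)
    have h6 := hF6 (fun a b' => o.om (u.ev o b) (x5.rv o b) a b' (r4.rv o b) (t4.rv o b))
      (fun _ _ => hg.om23 _ _ _ _ _ _)
    have h7 := hF7 (fun a b' => o.om (u.ev o b) (x5.rv o b) (y6.rv o b) a b' (t4.rv o b))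
      (fun _ _ => hg.om34 _ _ _ _ _ _)
    have h8 := hF8 (fun a b' => o.om (u.ev o b) a b' (z7.rv o b) (r7.rv o b) (t4.rv o b))
      (fun _ _ => hg.om12 _ _ _ _ _ _)
    have h9 := hF9 (fun a b' => o.om (u.ev o b) (x8.rv o b) a b' (r7.rv o b) (t4.rv o b))
      (fun _ _ => hg.om23 _ _ _ _ _ _)
    have h10 := hF10 (fun a b' => o.om (u.ev o b) a b' (z9.rv o b) (r7.rv o b) (t4.rv o b))
      (fun _ _ => hg.om12 _ _ _ _ _ _)
    rw [ihx.1, ihy.1] at h1
    rw [ihz.1] at h2
    rw [ihr.1] at h3
    rw [ihs.1] at h4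
    constructor
    · show sg _ (o.om ((canon O u).t.ev o b) (x10.t.ev o b) (y10.t.ev o b) (z9.t.ev o b)
          (r7.t.ev o b) (t4.t.ev o b)) =
        o.om (u.ev o b) (x.ev o b) (y.ev o b) (z.ev o b) (r.ev o b) (s.ev o b)
      rw [h1, h2, h3, h4, h5, h6, h7, h8, h9, h10, ← ihu.1]
      unfold R.rv
      rw [sg_app _ (fun q => o.om q _ _ _ _ _) (fun _ => hg.om0 _ _ _ _ _ _),
        sg_app _ (fun q => o.om _ q _ _ _ _) (fun _ => hg.om1 _ _ _ _ _ _),
        sg_app _ (fun q => o.om _ _ q _ _ _) (fun _ => hg.om2 _ _ _ _ _ _),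
        sg_app _ (fun q => o.om _ _ _ q _ _) (fun _ => hg.om3 _ _ _ _ _ _),
        sg_app _ (fun q => o.om _ _ _ _ q _) (fun _ => hg.om4 _ _ _ _ _ _),
        sg_app _ (fun q => o.om _ _ _ _ _ q) (fun _ => hg.om5 _ _ _ _ _ _)]
      simp only [sg_xor]
    · intro q hq
      simp only [List.mem_append, List.mem_map] at hq
      show q.ev o b = -(o.om ((canon O u).t.ev o b) (x10.t.ev o b) (y10.t.ev o b) (z9.t.ev o b)
          (r7.t.ev o b) (t4.t.ev o b))
      rcases hq with ((((((((((hq | hq) | hq) | hq) | ⟨q', hq', rfl⟩) | ⟨q', hq', rfl⟩) |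
        ⟨q', hq', rfl⟩) | ⟨q', hq', rfl⟩) | ⟨q', hq', rfl⟩) | ⟨q', hq', rfl⟩))
      · cases h : tie x10 y10 with
        | true => rw [h] at hq; simp at hq; subst hq; exact hg.om12 _ _ _ _ _ _
        | false => rw [h] at hq; simp at hq
      · cases h : tie y10 z9 with
        | true => rw [h] at hq; simp at hq; subst hq; exact hg.om23 _ _ _ _ _ _
        | false => rw [h] at hq; simp at hq
      · cases h : tie z9 r7 with
        | true => rw [h] at hq; simp at hq; subst hq; exact hg.om34 _ _ _ _ _ _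
        | false => rw [h] at hq; simp at hq
      · cases h : tie r7 t4 with
        | true => rw [h] at hq; simp at hq; subst hq; exact hg.om45 _ _ _ _ _ _
        | false => rw [h] at hq; simp at hq
      · show o.om (q'.ev o b) _ _ _ _ _ = _
        rw [ihu.2 q' hq', hg.om0]
      · show o.om _ (q'.ev o b) _ _ _ _ = _
        rw [hx10 q' hq', hg.om1]
      · show o.om _ _ (q'.ev o b) _ _ _ = _
        rw [hy10 q' hq', hg.om2]
      · show o.om _ _ _ (q'.ev o b) _ _ = _
        rw [hz9 q' hq', hg.om3]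
      · show o.om _ _ _ _ (q'.ev o b) _ = _
        rw [hr7 q' hq', hg.om4]
      · show o.om _ _ _ _ _ (q'.ev o b) = _
        rw [ht4 q' hq', hg.om5]

/-! ### Averages -/

/-- type preserving permutations of the letters in `O` -/
def TP (O : List ℕ) (r : Equiv.Perm {x // x ∈ O}) : Prop := ∀ x, (r x).1 / 16 = x.1 / 16

instance (O : List ℕ) : DecidablePred (TP O) := fun r => by unfold TP; infer_instance

/-- the alternating average -/
noncomputable def avg (O : List ℕ) (f : (ℕ → A) → A) (b : ℕ → A) : A :=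
  ∑ r ∈ Finset.univ.filter (TP O), ((Equiv.Perm.sign r : ℤˣ) : ℤ) •
    f (b ∘ (Equiv.Perm.ofSubtype r : Equiv.Perm ℕ))

theorem avg_add (O : List ℕ) (f g : (ℕ → A) → A) (b : ℕ → A) :
    avg O (fun b => f b + g b) b = avg O f b + avg O g b := by
  unfold avg
  rw [← Finset.sum_add_distrib]
  exact Finset.sum_congr rfl fun r _ => smul_add _ _ _

theorem avg_zero (O : List ℕ) (b : ℕ → A) : avg O (fun _ => (0 : A)) b = 0 := by
  unfold avg
  simp

theorem avg_zsmul (O : List ℕ) (n : ℤ) (f : (ℕ → A) → A) (b : ℕ → A) :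
    avg O (fun b => n • f b) b = n • avg O f b := by
  unfold avg
  rw [Finset.smul_sum]
  exact Finset.sum_congr rfl fun r _ => smul_comm _ _ _

theorem avg_neg (O : List ℕ) (f : (ℕ → A) → A) (b : ℕ → A) :
    avg O (fun b => -f b) b = -avg O f b := by
  have := avg_zsmul O (-1) f b
  simpa using this

theorem avg_sg (O : List ℕ) (s : Bool) (f : (ℕ → A) → A) (b : ℕ → A) :
    avg O (fun b => sg s (f b)) b = sg s (avg O f b) := by
  cases s
  · rfl
  · exact avg_neg O f b

theorem ev_swapL (o : Ops A) (b : ℕ → A) (i j : ℕ) (t : T) :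
    (swapL i j t).ev o b = t.ev o (b ∘ Equiv.swap i j) := by
  induction t with
  | v n => simp [swapL, T.ev, Equiv.swap_apply_def]
  | m x y ihx ihy => simp [swapL, T.ev, ihx, ihy]
  | p x y z u ihx ihy ihz ihu => simp [swapL, T.ev, ihx, ihy, ihz, ihu]
  | w u x y z r s ihu ihx ihy ihz ihr ihs => simp [swapL, T.ev, ihu, ihx, ihy, ihz, ihr, ihs]

theorem TP_swap (O : List ℕ) {i j : ℕ} (hi : i ∈ O) (hj : j ∈ O) (hij : i / 16 = j / 16) :
    TP O (Equiv.swap ⟨i, hi⟩ ⟨j, hj⟩) := by
  intro x
  rw [Equiv.swap_apply_def]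
  split_ifs with h1 h2
  · subst h1; exact hij.symm
  · subst h2; exact hij
  · rfl

theorem avg_swap (O : List ℕ) (f : (ℕ → A) → A) (b : ℕ → A) {i j : ℕ} (hi : i ∈ O) (hj : j ∈ O)
    (hij : i / 16 = j / 16) (hne : i ≠ j) :
    avg O (fun b => f (b ∘ Equiv.swap i j)) b = -avg O f b := by
  unfold avg
  rw [← Finset.sum_neg_distrib]
  set σ : Equiv.Perm {x // x ∈ O} := Equiv.swap ⟨i, hi⟩ ⟨j, hj⟩ with hσ
  have hσT : TP O σ := TP_swap O hi hj hij
  have hσs : Equiv.Perm.sign σ = -1 := Equiv.Perm.sign_swap (by simpa using hne)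
  refine Finset.sum_bij' (fun r _ => r * σ) (fun r _ => r * σ) ?_ ?_ ?_ ?_ ?_
  · intro r hr
    simp only [Finset.mem_filter, Finset.mem_univ, true_and] at hr ⊢
    intro x
    rw [Equiv.Perm.mul_apply, hr, hσT]
  · intro r hr
    simp only [Finset.mem_filter, Finset.mem_univ, true_and] at hr ⊢
    intro x
    rw [Equiv.Perm.mul_apply, hr, hσT]
  · intro r _
    simp only [mul_assoc, hσ, Equiv.swap_mul_self, mul_one]
  · intro r _
    simp only [mul_assoc, hσ, Equiv.swap_mul_self, mul_one]
  · intro r _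
    have h1 : (Equiv.Perm.ofSubtype (r * σ) : Equiv.Perm ℕ)
        = Equiv.Perm.ofSubtype r * Equiv.swap i j := by
      rw [map_mul, hσ, Equiv.Perm.ofSubtype_swap_eq]
    have h2 : b ∘ (Equiv.Perm.ofSubtype (r * σ) : Equiv.Perm ℕ)
        = (b ∘ (Equiv.Perm.ofSubtype r : Equiv.Perm ℕ)) ∘ Equiv.swap i j := by
      rw [h1]; rfl
    rw [h2, Equiv.Perm.sign_mul, hσs]
    simp

theorem relab_ok (o : Ops A) (O : List ℕ) (b : ℕ → A) (n : ℕ) : ∀ (l seen : List ℕ) (s : Bool)
    (t : T), avg O (fun b => sg (relab O n l seen s t).1 ((relab O n l seen s t).2.ev o b)) b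
      = avg O (fun b => sg s (t.ev o b)) b := by
  induction n with
  | zero => intro l seen s t; cases l <;> rfl
  | succ n ih =>
    intro l seen s t
    cases l with
    | nil => rfl
    | cons x l =>
      unfold relab
      simp only
      cases h1 : Nat.beq x (16 * (x / 16) + cntSame x seen) with
      | true => simp only [cond_true]; exact ih _ _ _ _
      | false =>
        simp only [cond_false]
        cases h2 : (O.elem x && O.elem (16 * (x / 16) + cntSame x seen)
          && Nat.beq (x / 16) ((16 * (x / 16) + cntSame x seen) / 16)) with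
        | false => rfl
        | true =>
          simp only [cond_true]
          rw [ih]
          simp only [Bool.and_eq_true, List.elem_eq_mem, decide_eq_true_eq] at h2
          obtain ⟨⟨h3, h4⟩, h5⟩ := h2
          have h6 : x / 16 = (16 * (x / 16) + cntSame x seen) / 16 := Nat.eq_of_beq_eq_true h5
          have h7 : x ≠ 16 * (x / 16) + cntSame x seen := Nat.ne_of_beq_eq_false h1
          simp only [ev_swapL]
          rw [avg_sg, avg_sg, avg_swap O (fun b => t.ev o b) b h3 h4 h6 h7]
          cases s <;> simp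

theorem norm1_ok (o : Ops A) (O : List ℕ) (b : ℕ → A) (t : T) :
    sg (norm1 O t).1 (avg O (fun b => (norm1 O t).2.ev o b) b)
      = avg O (fun b => t.ev o b) b := by
  have := relab_ok o O b 16 (word O t []) [] false t
  rw [avg_sg] at this
  exact this

theorem eq_zero_of_eq_neg [IsAddTorsionFree A] {x : A} (h : x = -x) : x = 0 := by
  have h2 : (2 : ℕ) • x = (2 : ℕ) • (0 : A) := by
    rw [two_nsmul, smul_zero]
    nth_rewrite 2 [h]
    exact add_neg_cancel x
  exact (smul_right_injective A (two_ne_zero)) h2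

theorem anyZero_ok [IsAddTorsionFree A] (o : Ops A) (O : List ℕ) (b : ℕ → A) (t : T)
    (vs : List T) (hvs : ∀ b, ∀ y ∈ vs, y.ev o b = -t.ev o b)
    (h : anyZero O (norm1 O t) vs = true) : avg O (fun b => t.ev o b) b = 0 := by
  induction vs with
  | nil => simp [anyZero] at h
  | cons x l ih =>
    simp only [anyZero, Bool.or_eq_true, Bool.and_eq_true, beq_iff_eq] at h
    rcases h with ⟨h1, h2⟩ | h
    · have h3 := eq_of_beq h2
      have h4 : avg O (fun b => x.ev o b) b = -avg O (fun b => t.ev o b) b := by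
        rw [← avg_neg]
        congr 1
        funext b
        exact hvs b x (by simp)
      rw [← norm1_ok o O b x, ← norm1_ok o O b t, h1, h3] at h4
      rw [← norm1_ok o O b t]
      exact eq_zero_of_eq_neg h4
    · exact ih (fun b y hy => hvs b y (by simp [hy])) h

/-- value of a list of monomials -/
noncomputable def EV (o : Ops A) (O : List ℕ) (b : ℕ → A) (l : List E) : A :=
  (l.map fun e => e.c • avg O (fun b => e.t.ev o b) b).sum

theorem EV_nil (o : Ops A) (O : List ℕ) (b : ℕ → A) : EV o O b [] = 0 := rfl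

theorem EV_cons (o : Ops A) (O : List ℕ) (b : ℕ → A) (e : E) (l : List E) :
    EV o O b (e :: l) = e.c • avg O (fun b => e.t.ev o b) b + EV o O b l := by
  simp [EV]

theorem EV_append (o : Ops A) (O : List ℕ) (b : ℕ → A) (l l' : List E) :
    EV o O b (l ++ l') = EV o O b l + EV o O b l' := by
  simp [EV]

theorem nmono_ok [IsAddTorsionFree A] (o : Ops A) (hg : o.Good) (O : List ℕ) (b : ℕ → A) (c : ℤ)
    (t : T) : EV o O b (nmono O c t) = avg O (fun b => c • t.ev o b) b := by
  unfold nmono
  simp only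
  have hc := fun b => canon_ok o hg O b t
  have h1 : avg O (fun b => t.ev o b) b = sg (canon O t).s (avg O (fun b => (canon O t).t.ev o b) b)
      := by
    rw [← avg_sg]
    congr 1
    funext b
    exact (hc b).1.symm
  rw [avg_zsmul, h1, ← norm1_ok o O b (canon O t).t, ← sg_xor]
  cases h : anyZero O (norm1 O (canon O t).t) (canon O t).vs with
  | true =>
    have h2 := anyZero_ok o O b (canon O t).t _ (fun b => (hc b).2) h
    rw [← norm1_ok o O b (canon O t).t] at h2
    rw [cond_true, EV_nil, sg_xor, h2]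
    cases (canon O t).s <;> simp
  | false =>
    rw [cond_false, EV_cons, EV_nil, add_zero]
    cases Bool.xor (canon O t).s (norm1 O (canon O t).t).1 <;> simp

theorem merge_ok (o : Ops A) (O : List ℕ) (b : ℕ → A) (n : ℕ) : ∀ l1 l2 : List E,
    EV o O b (merge n l1 l2) = EV o O b l1 + EV o O b l2 := by
  induction n with
  | zero => intro l1 l2; exact EV_append o O b l1 l2
  | succ n ih =>
    intro l1 l2
    cases l1 with
    | nil => simp [merge, EV_nil]
    | cons x l1 =>
      cases l2 with
      | nil => simp [merge, EV_nil]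
      | cons y l2 =>
        unfold merge
        cases h1 : Nat.blt x.k y.k with
        | true => rw [cond_true, EV_cons, ih, EV_cons, EV_cons]; abel
        | false =>
          rw [cond_false]
          cases h2 : Nat.blt y.k x.k with
          | true =>
            rw [cond_true, EV_cons, ih, EV_cons, EV_cons]
            abel
          | false =>
            rw [cond_false]
            cases h3 : T.beq x.t y.t with
            | true =>
              rw [cond_true]
              have hxy := eq_of_beq h3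
              simp only
              cases h4 : (x.c + y.c == 0) with
              | true =>
                rw [cond_true, ih, EV_cons, EV_cons, ← hxy]
                have h5 : x.c + y.c = 0 := by simpa using h4
                have h6 : x.c • avg O (fun b => x.t.ev o b) b
                    + y.c • avg O (fun b => x.t.ev o b) b = 0 := by
                  rw [← add_smul, h5, zero_smul]
                calc _ = (x.c • avg O (fun b => x.t.ev o b) b
                    + y.c • avg O (fun b => x.t.ev o b) b) + (EV o O b l1 + EV o O b l2) := by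
                      rw [h6, zero_add]
                  _ = _ := by abel
              | false =>
                rw [cond_false, EV_cons, ih, EV_cons, EV_cons, ← hxy]
                simp only
                rw [add_smul]
                abel
            | false =>
              rw [cond_false, EV_cons, ih, EV_cons, EV_cons]
              abel

theorem splt_ok {α : Type} (f : α → A) (l : List α) :
    ((splt l).1.map f).sum + ((splt l).2.map f).sum = (l.map f).sum := by
  induction l with
  | nil => simp [splt]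
  | cons x l ih =>
    simp only [splt, List.map_cons, List.sum_cons]
    rw [← ih]
    abel

theorem splt_avg (o : Ops A) (O : List ℕ) (b : ℕ → A) (l : P) :
    avg O (fun b => evQ o b (splt l).1) b + avg O (fun b => evQ o b (splt l).2) b
      = avg O (fun b => evQ o b l) b := by
  rw [← avg_add]
  congr 1
  funext b
  exact splt_ok _ l

theorem evQ_cons (o : Ops A) (b : ℕ → A) (x : ℤ × T) (l : P) :
    evQ o b (x :: l) = x.1 • x.2.ev o b + evQ o b l := by
  simp [evQ]

theorem evQ_append (o : Ops A) (b : ℕ → A) (l l' : P) :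
    evQ o b (l ++ l') = evQ o b l + evQ o b l' := by
  simp [evQ]

theorem normL_ok [IsAddTorsionFree A] (o : Ops A) (hg : o.Good) (O : List ℕ) (b : ℕ → A) (q : P) :
    EV o O b (normL O q) = avg O (fun b => evQ o b q) b := by
  induction q with
  | nil => simp [normL, EV_nil, evQ, avg_zero]
  | cons x l ih =>
    rw [normL, EV_append, nmono_ok o hg, ih, ← avg_add]
    simp only [evQ_cons]

theorem norm_ok [IsAddTorsionFree A] (o : Ops A) (hg : o.Good) (O : List ℕ) (b : ℕ → A) (n : ℕ) :
    ∀ q : P, EV o O b (norm O n q) = avg O (fun b => evQ o b q) b := by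
  induction n with
  | zero => intro q; exact normL_ok o hg O b q
  | succ n ih =>
    intro q
    match q with
    | [] => simp [norm, EV_nil, evQ, avg_zero]
    | [x] =>
      unfold norm
      rw [nmono_ok o hg]
      simp [evQ]
    | x :: y :: l =>
      unfold norm
      simp only
      rw [merge_ok, ih, ih, splt_avg]

theorem zeroChk_ok [IsAddTorsionFree A] (o : Ops A) (hg : o.Good) (O : List ℕ) (b : ℕ → A) (q : P)
    (h : zeroChk O q = true) : avg O (fun b => evQ o b q) b = 0 := by
  unfold zeroChk at h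
  rw [← norm_ok o hg O b 40 q, List.isEmpty_iff.mp h, EV_nil]

theorem avg_nil (f : (ℕ → A) → A) (b : ℕ → A) : avg [] f b = f b := by
  unfold avg
  have h1 : (Finset.univ.filter (TP [])) = {(1 : Equiv.Perm {x // x ∈ ([] : List ℕ)})} := by
    ext r
    simp only [Finset.mem_filter, Finset.mem_univ, true_and, Finset.mem_singleton]
    constructor
    · intro _
      ext x
      exact absurd x.2 (by simp)
    · rintro rfl x
      rfl
  rw [h1, Finset.sum_singleton]
  simp

theorem zeroChk_nil [IsAddTorsionFree A] (o : Ops A) (hg : o.Good) (b : ℕ → A) (q : P)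
    (h : zeroChk [] q = true) : evQ o b q = 0 := by
  have := zeroChk_ok o hg [] b q h
  rwa [avg_nil] at this

theorem evQ_swap (o : Ops A) (b : ℕ → A) (i j : ℕ) (q : P) :
    evQ o b (q.map fun x => (x.1, swapL i j x.2)) = evQ o (b ∘ Equiv.swap i j) q := by
  simp [evQ, List.map_map, Function.comp_def, ev_swapL]

theorem symChk_ok [IsAddTorsionFree A] (o : Ops A) (hg : o.Good) (O : List ℕ) (q : P)
    (h : symChk O q = true) {i j : ℕ} (hi : i ∈ O) (hj : j ∈ O) (hne : i ≠ j)
    (hij : i / 16 = j / 16) (b : ℕ → A) : evQ o (b ∘ Equiv.swap i j) q = -evQ o b q := by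
  have key : ∀ i j : ℕ, i ∈ O → j ∈ O → i < j → i / 16 = j / 16 →
      evQ o (b ∘ Equiv.swap i j) q = -evQ o b q := by
    intro i j hi hj hlt hij
    unfold symChk at h
    rw [List.all_eq_true] at h
    have h1 := h i hi
    rw [List.all_eq_true] at h1
    have h2 := h1 j hj
    have h3 : (Nat.blt i j && Nat.beq (i / 16) (j / 16)) = true := by
      simp only [Bool.and_eq_true]
      refine ⟨by simpa [Nat.blt_eq] using hlt, ?_⟩
      rw [hij]; exact Nat.beq_refl _
    rw [h3, cond_true] at h2
    have h4 := zeroChk_nil o hg b _ h2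
    rw [evQ_append, evQ_swap] at h4
    exact eq_neg_of_add_eq_zero_right h4
  rcases lt_or_gt_of_ne hne with h1 | h1
  · exact key i j hi hj h1 hij
  · rw [Equiv.swap_comm]
    exact key j i hj hi h1 hij.symm

/-- an antisymmetric function is a multiple of its average -/
theorem avg_const (O : List ℕ) (f : (ℕ → A) → A)
    (hf : ∀ i j : ℕ, i ∈ O → j ∈ O → i ≠ j → i / 16 = j / 16 → ∀ b,
      f (b ∘ Equiv.swap i j) = -f b) (b : ℕ → A) :
    avg O f b = (Finset.univ.filter (TP O)).card • f b := by
  have key : ∀ (n : ℕ) (r : Equiv.Perm {x // x ∈ O}), r.support.card ≤ n → TP O r →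
      ∀ b : ℕ → A, f (b ∘ (Equiv.Perm.ofSubtype r : Equiv.Perm ℕ))
        = ((Equiv.Perm.sign r : ℤˣ) : ℤ) • f b := by
    intro n
    induction n with
    | zero =>
      intro r hr _ b
      have : r = 1 := by
        rw [← Equiv.Perm.card_support_eq_zero]; omega
      subst this
      simp
    | succ n ih =>
      intro r hr hT b
      by_cases h1 : r = 1
      · subst h1; simp
      · have h2 : ∃ x, r x ≠ x := by
          by_contra hcon
          push Not at hcon
          exact h1 (Equiv.ext hcon)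
        obtain ⟨x, hx⟩ := h2
        set σ := Equiv.swap x (r x) with hσ
        have h3 : (σ * r).support.card < r.support.card :=
          Equiv.Perm.card_support_swap_mul hx
        have hσT : TP O σ := TP_swap O x.2 (r x).2 (hT x).symm
        have h4 : TP O (σ * r) := by
          intro y
          rw [Equiv.Perm.mul_apply, hσT, hT]
        have h5 := ih (σ * r) (by omega) h4
        have h6 : r = σ * (σ * r) := by
          rw [← mul_assoc, hσ, Equiv.swap_mul_self, one_mul]
        have h7 : x.1 ≠ (r x).1 := fun h => hx (Subtype.ext h.symm)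
        have h8 : (Equiv.Perm.ofSubtype r : Equiv.Perm ℕ)
            = Equiv.swap x.1 (r x).1 * Equiv.Perm.ofSubtype (σ * r) := by
          conv_lhs => rw [h6, map_mul, hσ, Equiv.Perm.ofSubtype_swap_eq]
        have h9 : b ∘ (Equiv.Perm.ofSubtype r : Equiv.Perm ℕ)
            = (b ∘ Equiv.swap x.1 (r x).1) ∘ (Equiv.Perm.ofSubtype (σ * r) : Equiv.Perm ℕ) := by
          rw [h8]; rfl
        rw [h9, h5, hf x.1 (r x).1 x.2 (r x).2 h7 (hT x).symm b]
        have h10 : Equiv.Perm.sign (σ * r) = -Equiv.Perm.sign r := by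
          rw [Equiv.Perm.sign_mul, hσ, Equiv.Perm.sign_swap (Ne.symm hx)]
          simp
        rw [h10]
        simp
  unfold avg
  rw [← Finset.sum_const]
  refine Finset.sum_congr rfl fun r hr => ?_
  simp only [Finset.mem_filter, Finset.mem_univ, true_and] at hr
  rw [key _ r le_rfl hr b, ← mul_smul]
  rcases Int.units_eq_one_or (Equiv.Perm.sign r) with h | h <;> rw [h] <;> simp

theorem card_TP_ne (O : List ℕ) : (Finset.univ.filter (TP O)).card ≠ 0 := by
  rw [Finset.card_ne_zero]
  exact ⟨1, by simp [TP]⟩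

theorem evQ_smulP (o : Ops A) (b : ℕ → A) (n : ℤ) (q : P) :
    evQ o b (smulP n q) = n • evQ o b q := by
  unfold evQ smulP
  rw [List.smul_sum, List.map_map, List.map_map]
  congr 1
  apply List.map_congr_left
  intro x _
  simp [mul_smul]

theorem ev_subst (o : Ops A) (b : ℕ → A) (f : ℕ → T) (t : T) :
    (t.subst f).ev o b = t.ev o (fun n => (f n).ev o b) := by
  induction t with
  | v n => rfl
  | m x y ihx ihy => simp [subst, T.ev, ihx, ihy]
  | p x y z u ihx ihy ihz ihu => simp [subst, T.ev, ihx, ihy, ihz, ihu]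
  | w u x y z r s ihu ihx ihy ihz ihr ihs => simp [subst, T.ev, ihu, ihx, ihy, ihz, ihr, ihs]

theorem evQ_ctx (o : Ops A) (b : ℕ → A) (c : T) (q : P) :
    evQ o b (q.map fun x => (x.1, T.m x.2 c)) = evQ o b q * c.ev o b := by
  induction q with
  | nil => simp [evQ]
  | cons x l ih =>
    rw [List.map_cons, evQ_cons, evQ_cons, ih, add_mul]
    simp only [T.ev]
    rw [smul_mul_assoc]

theorem evQ_foldl (o : Ops A) (b : ℕ → A) (cx : List T) : ∀ q : P, evQ o b q = 0 →
    evQ o b (cx.foldl (fun q c => q.map fun x => (x.1, T.m x.2 c)) q) = 0 := by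
  induction cx with
  | nil => intro q h; exact h
  | cons c l ih =>
    intro q h
    rw [List.foldl_cons]
    apply ih
    rw [evQ_ctx, h, zero_mul]

theorem inst_ok (o : Ops A) (tm : List P) (htm : ∀ q ∈ tm, ∀ b : ℕ → A, evQ o b q = 0)
    (b : ℕ → A) (i : I) : evQ o b (inst tm i) = 0 := by
  unfold inst
  apply evQ_foldl
  have h1 : ((tm.getD i.k []).map fun x => (i.n * x.1, x.2.subst fun j => i.sl.getD j (.v 0)))
      = smulP i.n ((tm.getD i.k []).map fun x => (x.1, x.2.subst fun j => i.sl.getD j (.v 0))) := by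
    simp [smulP, List.map_map, Function.comp_def]
  rw [h1, evQ_smulP]
  have h2 : evQ o b ((tm.getD i.k []).map fun x => (x.1, x.2.subst fun j => i.sl.getD j (.v 0)))
      = evQ o (fun n => (i.sl.getD n (.v 0)).ev o b) (tm.getD i.k []) := by
    simp [evQ, List.map_map, Function.comp_def, ev_subst]
  rw [h2]
  by_cases h3 : i.k < tm.length
  · rw [List.getD_eq_getElem _ _ h3, htm _ (List.getElem_mem h3), smul_zero]
  · rw [List.getD_eq_default _ _ (not_lt.mp h3)]
    simp [evQ]

theorem instAll_ok (o : Ops A) (tm : List P) (htm : ∀ q ∈ tm, ∀ b : ℕ → A, evQ o b q = 0)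
    (b : ℕ → A) (l : List I) : evQ o b (instAll tm l) = 0 := by
  induction l with
  | nil => simp [instAll, evQ]
  | cons x l ih =>
    unfold instAll at *
    rw [List.flatMap_cons, evQ_append, ih, inst_ok o tm htm, add_zero]

/-- certificate at the level of the opaque operations: average is zero -/
theorem cert_avg [IsAddTorsionFree A] (o : Ops A) (hg : o.Good) (tm : List P)
    (htm : ∀ q ∈ tm, ∀ b : ℕ → A, evQ o b q = 0) (O : List ℕ) (q : P) (D : ℤ) (hD : D ≠ 0)
    (c : List I) (h : zeroChk O (smulP D q ++ instAll tm c) = true) (b : ℕ → A) :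
    avg O (fun b => evQ o b q) b = 0 := by
  have h1 := zeroChk_ok o hg O b _ h
  have h2 : (fun b : ℕ → A => evQ o b (smulP D q ++ instAll tm c)) = fun b => D • evQ o b q := by
    funext b
    rw [evQ_append, instAll_ok o tm htm, add_zero, evQ_smulP]
  rw [h2, avg_zsmul] at h1
  have h3 : D • avg O (fun b => evQ o b q) b = D • (0 : A) := by rw [h1, smul_zero]
  exact (smul_right_injective A hD) h3

theorem of_avg [IsAddTorsionFree A] (o : Ops A) (hg : o.Good) (O : List ℕ) (q : P)
    (hs : symChk O q = true) (b : ℕ → A) (h : avg O (fun b => evQ o b q) b = 0) :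
    evQ o b q = 0 := by
  rw [avg_const O (fun b => evQ o b q)
    (fun i j hi hj hne hij b => symChk_ok o hg O q hs hi hj hne hij b) b] at h
  have h3 : (Finset.univ.filter (TP O)).card • evQ o b q
      = (Finset.univ.filter (TP O)).card • (0 : A) := by rw [h, smul_zero]
  exact (smul_right_injective A (card_TP_ne O)) h3

/-- certificate at the level of the opaque operations -/
theorem cert [IsAddTorsionFree A] (o : Ops A) (hg : o.Good) (tm : List P)
    (htm : ∀ q ∈ tm, ∀ b : ℕ → A, evQ o b q = 0) (O : List ℕ) (q : P) (D : ℤ) (hD : D ≠ 0)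
    (c : List I) (h : zeroChk O (smulP D q ++ instAll tm c) = true)
    (hs : symChk O q = true) (b : ℕ → A) : evQ o b q = 0 :=
  of_avg o hg O q hs b (cert_avg o hg tm htm O q D hD c h b)

/-! ### Expansion -/

/-- the real operations -/
def OmT (u x y z p q : A) : A := J (P6 x y z u) p q - P6 x y z (J u p q)

/-- the real operations -/
def real : Ops A := ⟨P6, OmT⟩

theorem evQ_mul1 (o : Ops A) (b : ℕ → A) (x : ℤ × T) (r : P) :
    evQ o b (r.map fun y => (x.1 * y.1, T.m x.2 y.2)) = x.1 • x.2.ev o b * evQ o b r := by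
  induction r with
  | nil => simp [evQ]
  | cons y r ih =>
    have h2 : evQ o b ((y :: r).map fun y => (x.1 * y.1, T.m x.2 y.2))
        = (x.1 * y.1) • (x.2.ev o b * y.2.ev o b)
          + evQ o b (r.map fun y => (x.1 * y.1, T.m x.2 y.2)) := by
      simp [evQ, T.ev]
    rw [h2, evQ_cons, mul_add, ih]
    congr 1
    rw [smul_mul_assoc, mul_smul_comm, mul_smul]

theorem evQ_mulP (o : Ops A) (b : ℕ → A) (q r : P) :
    evQ o b (mulP q r) = evQ o b q * evQ o b r := by
  induction q with
  | nil => simp [mulP, evQ]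
  | cons x l ih =>
    have h1 : mulP (x :: l) r = (r.map fun y => (x.1 * y.1, T.m x.2 y.2)) ++ mulP l r := by
      simp [mulP]
    rw [h1, evQ_append, ih, evQ_cons, add_mul, evQ_mul1]

theorem evQ_Jp (o : Ops A) (b : ℕ → A) (x y z : P) :
    evQ o b (Jp x y z) = J (evQ o b x) (evQ o b y) (evQ o b z) := by
  simp only [Jp, J, evQ_append, evQ_mulP]

theorem evQ_S4p (o : Ops A) (b : ℕ → A) (x y z u : P) :
    evQ o b (S4p x y z u) = S4 (evQ o b x) (evQ o b y) (evQ o b z) (evQ o b u) := by
  simp only [S4p, S4, evQ_append, evQ_mulP, evQ_smulP, neg_smul, one_smul, two_smul]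
  abel

theorem evQ_P6p (o : Ops A) (b : ℕ → A) (x y z u : P) :
    evQ o b (P6p x y z u) = P6 (evQ o b x) (evQ o b y) (evQ o b z) (evQ o b u) := by
  simp only [P6p, P6, evQ_append, evQ_S4p, evQ_smulP, neg_smul, one_smul]
  abel

theorem evQ_Omp (o : Ops A) (b : ℕ → A) (u x y z p q : P) :
    evQ o b (Omp u x y z p q)
      = OmT (evQ o b u) (evQ o b x) (evQ o b y) (evQ o b z) (evQ o b p) (evQ o b q) := by
  simp only [Omp, OmT, evQ_append, evQ_P6p, evQ_Jp, evQ_smulP, neg_smul, one_smul]
  abel

theorem ev_expd (o : Ops A) (b : ℕ → A) (t : T) : evQ o b (expd t) = t.ev real b := by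
  induction t with
  | v n => simp [expd, evQ, T.ev]
  | m x y ihx ihy => simp only [expd, evQ_mulP, T.ev, ihx, ihy]
  | p x y z u ihx ihy ihz ihu => simp only [expd, evQ_P6p, T.ev, ihx, ihy, ihz, ihu, real]
  | w u x y z r s ihu ihx ihy ihz ihr ihs =>
    simp only [expd, evQ_Omp, T.ev, ihu, ihx, ihy, ihz, ihr, ihs, real]

theorem ev_expP (o : Ops A) (b : ℕ → A) (q : P) : evQ o b (expP q) = evQ real b q := by
  induction q with
  | nil => simp [expP, evQ]
  | cons x l ih =>
    have h1 : expP (x :: l) = smulP x.1 (expd x.2) ++ expP l := by simp [expP]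
    rw [h1, evQ_append, ih, evQ_smulP, ev_expd, evQ_cons]

/-- the trivial operations -/
def triv : Ops A := ⟨fun _ _ _ _ => 0, fun _ _ _ _ _ _ => 0⟩

theorem triv_good (ha : ∀ x y : A, x * y = -(y * x)) : (triv : Ops A).Good := by
  constructor <;> first | exact ha | (intros; simp [triv])

/-- certificate for an expanded identity: average -/
theorem cert_exp_avg [IsAddTorsionFree A] (ha : ∀ x y : A, x * y = -(y * x)) (tm : List P)
    (htm : ∀ q ∈ tm, ∀ b : ℕ → A, evQ triv b q = 0) (O : List ℕ) (q : P) (D : ℤ) (hD : D ≠ 0)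
    (c : List I) (h : zeroChk O (smulP D (expP q) ++ instAll tm c) = true) (b : ℕ → A) :
    avg O (fun b => evQ real b q) b = 0 := by
  have h1 := cert_avg triv (triv_good ha) tm htm O (expP q) D hD c h b
  simpa only [ev_expP] using h1

/-- certificate for an expanded identity -/
theorem cert_exp [IsAddTorsionFree A] (ha : ∀ x y : A, x * y = -(y * x)) (tm : List P)
    (htm : ∀ q ∈ tm, ∀ b : ℕ → A, evQ triv b q = 0) (O : List ℕ) (q : P) (D : ℤ) (hD : D ≠ 0)
    (c : List I) (h : zeroChk O (smulP D (expP q) ++ instAll tm c) = true)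
    (o : Ops A) (hg : o.Good) (ho : ∀ b, evQ o b q = evQ real b q)
    (hs : symChk O q = true) (b : ℕ → A) : evQ real b q = 0 := by
  rw [← ho]
  apply of_avg o hg O q hs b
  simp only [ho]
  exact cert_exp_avg ha tm htm O q D hD c h b

/-- certificate for an expanded identity without symmetrisation -/
theorem cert_exp_nil [IsAddTorsionFree A] (ha : ∀ x y : A, x * y = -(y * x)) (tm : List P)
    (htm : ∀ q ∈ tm, ∀ b : ℕ → A, evQ triv b q = 0) (q : P) (D : ℤ) (hD : D ≠ 0)
    (c : List I) (h : zeroChk [] (smulP D (expP q) ++ instAll tm c) = true) (b : ℕ → A) :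
    evQ real b q = 0 := by
  have h1 := cert_exp_avg ha tm htm [] q D hD c h b
  rwa [avg_nil] at h1

end Pool.Agent.Hhelper8.Chk
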