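import Mathlib
import Pool.Agent.Hhelper8.Free
import Pool.Agent.Hhelper8.Cert.Sound

/-!
Additivity of the operations.
-/

namespace Pool.Agent.Hhelper8.Chk

open Pool.Agent.Hhelper8

variable {A : Type*} [NonUnitalNonAssocRing A]

theorem S4_add1 (a a' b c u : A) : S4 (a + a') b c u = S4 a b c u + S4 a' b c u := by
  simp only [S4, add_mul, mul_add]; abel
theorem S4_add2 (a b b' c u : A) : S4 a (b + b') c u = S4 a b c u + S4 a b' c u := by
  simp only [S4, add_mul, mul_add]; abel
theorem S4_add3 (a b c c' u : A) : S4 a b (c + c') u = S4 a b c u + S4 a b c' u := by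
  simp only [S4, add_mul, mul_add]; abel
theorem S4_add4 (a b c u u' : A) : S4 a b c (u + u') = S4 a b c u + S4 a b c u' := by
  simp only [S4, add_mul, mul_add]; abel

theorem P6_add1 (a a' b c u : A) : P6 (a + a') b c u = P6 a b c u + P6 a' b c u := by
  simp only [P6, S4_add1]; abel
theorem P6_add2 (a b b' c u : A) : P6 a (b + b') c u = P6 a b c u + P6 a b' c u := by
  simp only [P6, S4_add2, S4_add3]; abel
theorem P6_add3 (a b c c' u : A) : P6 a b (c + c') u = P6 a b c u + P6 a b c' u := by
  simp only [P6, S4_add2, S4_add3, S4_add4]; abel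
theorem P6_add4 (a b c u u' : A) : P6 a b c (u + u') = P6 a b c u + P6 a b c u' := by
  simp only [P6, S4_add2, S4_add4]; abel

theorem J_add1 (a a' b c : A) : J (a + a') b c = J a b c + J a' b c := by
  simp only [J, add_mul, mul_add]; abel
theorem J_add2 (a b b' c : A) : J a (b + b') c = J a b c + J a b' c := by
  simp only [J, add_mul, mul_add]; abel
theorem J_add3 (a b c c' : A) : J a b (c + c') = J a b c + J a b c' := by
  simp only [J, add_mul, mul_add]; abel

theorem Om_add0 (u u' a b c d e : A) : OmT (u + u') a b c d e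
    = OmT u a b c d e + OmT u' a b c d e := by
  simp only [OmT, P6_add4, J_add1]; abel
theorem Om_add1 (u a a' b c d e : A) : OmT u (a + a') b c d e
    = OmT u a b c d e + OmT u a' b c d e := by
  simp only [OmT, P6_add1, J_add1]; abel
theorem Om_add2 (u a b b' c d e : A) : OmT u a (b + b') c d e
    = OmT u a b c d e + OmT u a b' c d e := by
  simp only [OmT, P6_add2, J_add1]; abel
theorem Om_add3 (u a b c c' d e : A) : OmT u a b (c + c') d e
    = OmT u a b c d e + OmT u a b c' d e := by
  simp only [OmT, P6_add3, J_add1]; abel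
theorem Om_add4 (u a b c d d' e : A) : OmT u a b c (d + d') e
    = OmT u a b c d e + OmT u a b c d' e := by
  simp only [OmT, P6_add4, J_add2]; abel
theorem Om_add5 (u a b c d e e' : A) : OmT u a b c d (e + e')
    = OmT u a b c d e + OmT u a b c d e' := by
  simp only [OmT, P6_add4, J_add3]; abel

theorem J_swap23 (ha : ∀ x y : A, x * y = -(y * x)) (a b c : A) : J a c b = -J a b c := by
  simp only [J]
  rw [ha a c, ha c b, ha b a, neg_mul, neg_mul, neg_mul]
  abel

theorem J_swap12 (ha : ∀ x y : A, x * y = -(y * x)) (a b c : A) : J b a c = -J a b c := by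
  simp only [J]
  rw [ha b a, ha a c, ha c b, neg_mul, neg_mul, neg_mul]
  abel

theorem Om_zero0 (a b c d e : A) : OmT 0 a b c d e = 0 := by
  have := Om_add0 0 0 a b c d e
  simpa using this

end Pool.Agent.Hhelper8.Chk
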