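import Mathlib
import Pool.Agent.Hhelper8.Free
import Pool.Agent.Hhelper8.Cert.Checker
import Pool.Agent.Hhelper8.Cert.Sound

/-!
First identities of Malcev rings.
-/

namespace Pool.Agent.Hhelper8.Chk

open Pool.Agent.Hhelper8 T

variable {A : Type*} [NonUnitalNonAssocRing A]

theorem anti (hM : IsMalcev A) (x y : A) : x * y = -(y * x) := by
  have h := hM.mul_self (x + y)
  rw [mul_add, add_mul, add_mul, hM.mul_self, hM.mul_self, zero_add, add_zero] at h
  exact eq_neg_of_add_eq_zero_right h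

/-- a letter as a polynomial -/
def L (n : ℕ) : P := [(1, v n)]

@[simp] theorem evQ_L (o : Ops A) (b : ℕ → A) (n : ℕ) : evQ o b (L n) = b n := by
  simp [L, evQ, T.ev]

/-- linearised Malcev identity -/
def malP : P :=
  Jp (L 0) (L 1) (mulP (L 2) (L 3)) ++ Jp (L 2) (L 1) (mulP (L 0) (L 3)) ++
    smulP (-1) (mulP (Jp (L 0) (L 1) (L 3)) (L 2)) ++ smulP (-1) (mulP (Jp (L 2) (L 1) (L 3)) (L 0))

theorem malP_ev (hM : IsMalcev A) (o : Ops A) (b : ℕ → A) : evQ o b malP = 0 := by
  have h := hM.malcev (b 0 + b 2) (b 1) (b 3)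
  have h1 := hM.malcev (b 0) (b 1) (b 3)
  have h2 := hM.malcev (b 2) (b 1) (b 3)
  simp only [malP, evQ_append, evQ_Jp, evQ_mulP, evQ_smulP, evQ_L, neg_smul, one_smul]
  simp only [J, add_mul, mul_add] at h h1 h2 ⊢
  linear_combination (norm := module) h - h1 - h2

theorem sagle_ev (hM : IsMalcev A) [IsAddTorsionFree A] (o : Ops A) (b : ℕ → A) :
    evQ o b sagle = 0 := by
  have h1 : ∀ b : ℕ → A, evQ (real : Ops A) b sagle = 0 := fun b =>
    cert_exp_nil (anti hM) [malP] (by simpa using malP_ev hM triv) sagle 2 (by norm_num)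
      [⟨1, 0, [v 0, v 1, v 2, v 3], []⟩, ⟨-1, 0, [v 1, v 3, v 2, v 0], []⟩,
       ⟨-1, 0, [v 2, v 0, v 3, v 1], []⟩] (by decide +kernel) b
  have h2 : evQ o b sagle = evQ real b sagle := by simp [sagle, evQ, T.ev]
  rw [h2]
  exact h1 b

/-- valuation from a list -/
def val (l : List (ℕ × A)) (n : ℕ) : A :=
  match l with
  | [] => 0
  | (k, x) :: l => if n = k then x else val l n

theorem sagle_mem (hM : IsMalcev A) [IsAddTorsionFree A] (o : Ops A) :
    ∀ q ∈ [sagle], ∀ b : ℕ → A, evQ o b q = 0 := by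
  simpa using sagle_ev hM o

section neg

theorem S4_neg1 (a b c u : A) : S4 (-a) b c u = -S4 a b c u := by simp [S4]; abel
theorem S4_neg2 (a b c u : A) : S4 a (-b) c u = -S4 a b c u := by simp [S4]; abel
theorem S4_neg3 (a b c u : A) : S4 a b (-c) u = -S4 a b c u := by simp [S4]; abel
theorem S4_neg4 (a b c u : A) : S4 a b c (-u) = -S4 a b c u := by simp [S4]; abel

theorem P6_neg1 (a b c u : A) : P6 (-a) b c u = -P6 a b c u := by
  simp only [P6, S4_neg1]; abel
theorem P6_neg2 (a b c u : A) : P6 a (-b) c u = -P6 a b c u := by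
  simp only [P6, S4_neg2, S4_neg3]; abel
theorem P6_neg3 (a b c u : A) : P6 a b (-c) u = -P6 a b c u := by
  simp only [P6, S4_neg2, S4_neg3, S4_neg4]; abel
theorem P6_neg4 (a b c u : A) : P6 a b c (-u) = -P6 a b c u := by
  simp only [P6, S4_neg2, S4_neg4]; abel

theorem J_neg1 (a b c : A) : J (-a) b c = -J a b c := by simp [J]; abel
theorem J_neg2 (a b c : A) : J a (-b) c = -J a b c := by simp [J]; abel
theorem J_neg3 (a b c : A) : J a b (-c) = -J a b c := by simp [J]; abel

theorem Om_neg0 (u a b c d e : A) : OmT (-u) a b c d e = -OmT u a b c d e := by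
  simp only [OmT, P6_neg4, J_neg1]; abel
theorem Om_neg1 (u a b c d e : A) : OmT u (-a) b c d e = -OmT u a b c d e := by
  simp only [OmT, P6_neg1, J_neg1]; abel
theorem Om_neg2 (u a b c d e : A) : OmT u a (-b) c d e = -OmT u a b c d e := by
  simp only [OmT, P6_neg2, J_neg1]; abel
theorem Om_neg3 (u a b c d e : A) : OmT u a b (-c) d e = -OmT u a b c d e := by
  simp only [OmT, P6_neg3, J_neg1]; abel
theorem Om_neg4 (u a b c d e : A) : OmT u a b c (-d) e = -OmT u a b c d e := by
  simp only [OmT, P6_neg4, J_neg2]; abel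
theorem Om_neg5 (u a b c d e : A) : OmT u a b c d (-e) = -OmT u a b c d e := by
  simp only [OmT, P6_neg4, J_neg3]; abel

end neg

/-- the polynomial `P6 a b c u + P6 b a c u` -/
def alt12 : P := [(1, p (v 0) (v 1) (v 2) (v 3)), (1, p (v 1) (v 0) (v 2) (v 3))]

theorem P6_12 (hM : IsMalcev A) [IsAddTorsionFree A] (a b c u : A) :
    P6 b a c u = -P6 a b c u := by
  have h := cert_exp_nil (anti hM) [sagle] (sagle_mem hM triv) alt12 1 one_ne_zero
    [⟨1, 0, [v 0, v 3, v 1, v 2], []⟩, ⟨1, 0, [v 0, v 2, v 1, v 3], []⟩] (by decide +kernel)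
    (val [(0, a), (1, b), (2, c), (3, u)])
  simp [alt12, evQ, T.ev, real, val] at h
  rw [add_comm] at h
  exact eq_neg_of_add_eq_zero_left h

/-- the polynomial `P6 a b c u + P6 a c b u` -/
def alt23 : P := [(1, p (v 0) (v 1) (v 2) (v 3)), (1, p (v 0) (v 2) (v 1) (v 3))]

theorem P6_23 (hM : IsMalcev A) [IsAddTorsionFree A] (a b c u : A) :
    P6 a c b u = -P6 a b c u := by
  have h := cert_exp_nil (anti hM) [sagle] (sagle_mem hM triv) alt23 1 one_ne_zero
    [] (by decide +kernel)
    (val [(0, a), (1, b), (2, c), (3, u)])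
  simp [alt23, evQ, T.ev, real, val] at h
  rw [add_comm] at h
  exact eq_neg_of_add_eq_zero_left h

/-- operations with the trivial `om` -/
def ops6 : Ops A := ⟨P6, fun _ _ _ _ _ _ => 0⟩

theorem ops6_good (hM : IsMalcev A) [IsAddTorsionFree A] : (ops6 : Ops A).Good where
  anti := anti hM
  ph1 := P6_neg1
  ph2 := P6_neg2
  ph3 := P6_neg3
  ph4 := P6_neg4
  ph12 := P6_12 hM
  ph23 := P6_23 hM
  om0 := by intros; simp [ops6]
  om1 := by intros; simp [ops6]
  om2 := by intros; simp [ops6]
  om3 := by intros; simp [ops6]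
  om4 := by intros; simp [ops6]
  om5 := by intros; simp [ops6]
  om12 := by intros; simp [ops6]
  om23 := by intros; simp [ops6]
  om34 := by intros; simp [ops6]
  om45 := by intros; simp [ops6]

/-- no node of the second kind -/
def noW : T → Bool
  | v _ => true
  | m a b => noW a && noW b
  | p a b c d => noW a && noW b && noW c && noW d
  | w _ _ _ _ _ _ => false

theorem ev_noW (b : ℕ → A) (t : T) (h : noW t = true) : t.ev ops6 b = t.ev real b := by
  induction t with
  | v n => rfl
  | m x y ihx ihy =>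
    simp only [noW, Bool.and_eq_true] at h
    simp only [T.ev, ihx h.1, ihy h.2]
  | p x y z u ihx ihy ihz ihu =>
    simp only [noW, Bool.and_eq_true] at h
    simp only [T.ev, ihx h.1.1.1, ihy h.1.1.2, ihz h.1.2, ihu h.2]
    rfl
  | w u x y z r s => simp [noW] at h

theorem evQ_noW (q : P) (h : (q.all fun x => noW x.2) = true) (b : ℕ → A) :
    evQ ops6 b q = evQ real b q := by
  unfold evQ
  congr 1
  apply List.map_congr_left
  intro x hx
  rw [List.all_eq_true] at h
  rw [ev_noW b x.2 (h x hx)]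

/-- certificate for identities without nodes of the second kind -/
theorem cert6 (hM : IsMalcev A) [IsAddTorsionFree A] (tm : List P)
    (htm : ∀ q ∈ tm, ∀ b : ℕ → A, evQ triv b q = 0) (O : List ℕ) (q : P) (D : ℤ) (hD : D ≠ 0)
    (c : List I) (h : zeroChk O (smulP D (expP q) ++ instAll tm c) = true)
    (hw : (q.all fun x => noW x.2) = true)
    (hs : symChk O q = true) (b : ℕ → A) : evQ real b q = 0 :=
  cert_exp (anti hM) tm htm O q D hD c h ops6 (ops6_good hM) (evQ_noW q hw) hs b

end Pool.Agent.Hhelper8.Chk
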