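import Mathlib
import Pool.Agent.Hhelper8.Free
import Pool.Agent.Hhelper8.Cert.Checker
import Pool.Agent.Hhelper8.Cert.Sound
import Pool.Agent.Hhelper8.Cert.Basic
import Pool.Agent.Hhelper8.Cert.Additive

/-!
Identities of degree six.
-/

namespace Pool.Agent.Hhelper8.Chk

open Pool.Agent.Hhelper8 T

variable {A : Type*} [NonUnitalNonAssocRing A]

/-- certificate -/
def E6c : List I := [
  ⟨-4, 0, [(v 32), (m (v 16) (v 64)), (v 32), (m (v 17) (v 18))], []⟩,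
  ⟨-4, 0, [(v 16), (v 64), (v 17), (m (v 32) (m (v 18) (v 32)))], []⟩,
  ⟨-4, 0, [(v 16), (v 64), (m (v 32) (m (v 17) (v 18))), (v 32)], []⟩,
  ⟨4, 0, [(v 16), (v 64), (m (v 17) (m (v 18) (v 32))), (v 32)], []⟩,
  ⟨-4, 0, [(v 16), (v 32), (v 64), (m (v 32) (m (v 17) (v 18)))], []⟩,
  ⟨4, 0, [(v 16), (v 32), (v 64), (m (v 17) (m (v 18) (v 32)))], []⟩,
  ⟨-4, 0, [(v 16), (v 32), (m (v 17) (v 18)), (m (v 32) (v 64))], []⟩,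
  ⟨-8, 0, [(v 16), (v 32), (m (v 17) (m (v 18) (v 64))), (v 32)], []⟩,
  ⟨-4, 0, [(v 16), (m (v 32) (v 64)), (m (v 17) (v 18)), (v 32)], []⟩,
  ⟨4, 0, [(v 16), (v 17), (m (v 18) (v 32)), (m (v 32) (v 64))], []⟩,
  ⟨-4, 0, [(v 16), (v 17), (m (v 32) (m (v 18) (v 64))), (v 32)], []⟩,
  ⟨4, 0, [(v 16), (v 17), (m (v 18) (m (v 32) (v 64))), (v 32)], []⟩,
  ⟨4, 0, [(v 16), (v 17), (m (v 32) (m (v 18) (v 32))), (v 64)], []⟩,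
  ⟨4, 0, [(v 16), (m (v 17) (v 64)), (m (v 18) (v 32)), (v 32)], []⟩,
  ⟨4, 0, [(v 16), (m (v 17) (v 32)), (v 32), (m (v 18) (v 64))], []⟩,
  ⟨4, 0, [(v 16), (v 32), (v 32), (v 64)], [(m (v 17) (v 18))]⟩,
  ⟨4, 0, [(v 16), (v 32), (v 17), (v 18)], [(m (v 32) (v 64))]⟩,
  ⟨4, 0, [(v 16), (v 32), (v 17), (m (v 18) (v 64))], [(v 32)]⟩,
  ⟨4, 0, [(v 16), (v 32), (m (v 17) (v 64)), (v 18)], [(v 32)]⟩,
  ⟨4, 0, [(v 16), (v 32), (m (v 17) (v 18)), (v 32)], [(v 64)]⟩,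
  ⟨4, 0, [(v 16), (m (v 32) (v 64)), (v 17), (v 18)], [(v 32)]⟩,
  ⟨4, 0, [(v 16), (v 17), (m (v 18) (v 64)), (v 32)], [(v 32)]⟩,
  ⟨-4, 0, [(v 16), (v 17), (m (v 18) (v 32)), (v 32)], [(v 64)]⟩,
  ⟨-4, 0, [(v 16), (v 64), (v 17), (v 32)], [(v 32), (v 18)]⟩,
  ⟨-4, 0, [(v 16), (v 64), (v 17), (v 32)], [(v 18), (v 32)]⟩,
  ⟨-4, 0, [(v 16), (v 32), (v 64), (v 17)], [(v 32), (v 18)]⟩,
  ⟨-4, 0, [(v 16), (v 32), (v 64), (v 17)], [(v 18), (v 32)]⟩,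
  ⟨4, 0, [(v 16), (v 32), (v 32), (v 64)], [(v 17), (v 18)]⟩,
  ⟨-4, 0, [(v 16), (v 32), (v 17), (v 18)], [(v 32), (v 64)]⟩]

/-- identity E6 -/
def E6q : P :=
  [(2, m (m (p (v 16) (v 17) (v 18) (v 32)) (v 32)) (v 64)),
   (-2, m (p (m (v 16) (v 64)) (v 17) (v 18) (v 32)) (v 32)),
   (-2, m (p (v 16) (m (v 17) (v 64)) (v 18) (v 32)) (v 32)),
   (-2, m (p (v 16) (v 17) (m (v 18) (v 64)) (v 32)) (v 32)),
   (-2, m (p (v 16) (v 17) (v 18) (m (v 32) (v 64))) (v 32)),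
   (-2, m (p (v 16) (v 17) (v 18) (v 32)) (m (v 32) (v 64)))]

theorem E6k : zeroChk [16, 17, 18] (smulP 1 (expP E6q) ++ instAll [sagle] E6c) = true := by
  decide +kernel

theorem E6s : symChk [16, 17, 18] E6q = true := by decide +kernel

theorem E6_ev (hM : IsMalcev A) [IsAddTorsionFree A] (b : ℕ → A) : evQ real b E6q = 0 :=
  cert6 hM [sagle] (sagle_mem hM triv) _ E6q _ (by norm_num) E6c E6k (by decide +kernel) E6s b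

theorem E6 (hM : IsMalcev A) [IsAddTorsionFree A] (x y z w r : A) :
    f6 x y z w w * r = f6 (x * r) y z w w + f6 x (y * r) z w w
      + f6 x y (z * r) w w + f6 x y z (w * r) w + f6 x y z w (w * r) := by
  have h := E6_ev hM (val [(16, x), (17, y), (18, z), (32, w), (64, r)])
  simp [E6q, evQ, T.ev, real, val] at h
  simp only [f6, add_mul]
  linear_combination (norm := module) h

/-- certificate -/
def omc : List I := [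
  ⟨3, 0, [(v 32), (v 64), (v 32), (m (v 96) (m (v 16) (v 17)))], []⟩,
  ⟨-2, 0, [(v 32), (v 64), (v 32), (m (v 16) (m (v 17) (v 96)))], []⟩,
  ⟨5, 0, [(v 32), (v 64), (m (v 32) (v 96)), (m (v 16) (v 17))], []⟩,
  ⟨8, 0, [(v 32), (v 64), (m (v 16) (v 32)), (m (v 17) (v 96))], []⟩,
  ⟨-2, 0, [(v 32), (v 64), (m (v 16) (v 17)), (m (v 32) (v 96))], []⟩,
  ⟨-4, 0, [(v 32), (v 64), (m (v 96) (m (v 16) (v 17))), (v 32)], []⟩,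
  ⟨5, 0, [(v 32), (v 32), (m (v 16) (v 17)), (m (v 64) (v 96))], []⟩,
  ⟨5, 0, [(v 32), (v 32), (m (v 64) (m (v 16) (v 17))), (v 96)], []⟩,
  ⟨-5, 0, [(v 32), (m (v 32) (v 96)), (v 64), (m (v 16) (v 17))], []⟩,
  ⟨2, 0, [(v 32), (m (v 32) (v 64)), (v 96), (m (v 16) (v 17))], []⟩,
  ⟨-8, 0, [(v 32), (m (v 16) (v 96)), (v 64), (m (v 17) (v 32))], []⟩,
  ⟨-2, 0, [(v 32), (m (v 16) (v 96)), (v 32), (m (v 17) (v 64))], []⟩,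
  ⟨-10, 0, [(v 32), (m (v 16) (v 96)), (m (v 17) (v 32)), (v 64)], []⟩,
  ⟨-4, 0, [(v 32), (m (v 16) (v 32)), (m (v 17) (v 96)), (v 64)], []⟩,
  ⟨6, 0, [(v 32), (m (v 16) (v 17)), (v 64), (m (v 32) (v 96))], []⟩,
  ⟨3, 0, [(v 32), (m (v 16) (v 17)), (m (v 32) (v 64)), (v 96)], []⟩,
  ⟨-1, 0, [(v 32), (m (v 32) (m (v 16) (v 17))), (v 96), (v 64)], []⟩,
  ⟨2, 0, [(v 16), (v 96), (v 32), (m (v 32) (m (v 17) (v 64)))], []⟩,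
  ⟨-2, 0, [(v 16), (v 96), (v 32), (m (v 17) (m (v 32) (v 64)))], []⟩,
  ⟨2, 0, [(v 16), (v 96), (m (v 32) (m (v 17) (v 64))), (v 32)], []⟩,
  ⟨-2, 0, [(v 16), (v 96), (m (v 17) (m (v 32) (v 64))), (v 32)], []⟩,
  ⟨2, 0, [(v 16), (v 64), (v 96), (m (v 32) (m (v 17) (v 32)))], []⟩,
  ⟨4, 0, [(v 16), (v 64), (v 32), (m (v 96) (m (v 17) (v 32)))], []⟩,
  ⟨4, 0, [(v 16), (v 64), (m (v 32) (v 96)), (m (v 17) (v 32))], []⟩,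
  ⟨-2, 0, [(v 16), (v 64), (m (v 17) (v 32)), (m (v 32) (v 96))], []⟩,
  ⟨-4, 0, [(v 16), (v 64), (m (v 32) (m (v 17) (v 96))), (v 32)], []⟩,
  ⟨4, 0, [(v 16), (v 64), (m (v 17) (m (v 32) (v 96))), (v 32)], []⟩,
  ⟨-2, 0, [(v 16), (v 32), (v 96), (m (v 32) (m (v 17) (v 64)))], []⟩,
  ⟨-4, 0, [(v 16), (v 32), (v 64), (m (v 17) (m (v 32) (v 96)))], []⟩,
  ⟨-6, 0, [(v 16), (v 32), (m (v 64) (v 96)), (m (v 17) (v 32))], []⟩,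
  ⟨4, 0, [(v 16), (v 32), (v 32), (m (v 17) (m (v 64) (v 96)))], []⟩,
  ⟨6, 0, [(v 16), (v 32), (m (v 96) (m (v 32) (v 64))), (v 17)], []⟩,
  ⟨-8, 0, [(v 16), (v 32), (m (v 64) (m (v 32) (v 96))), (v 17)], []⟩,
  ⟨10, 0, [(v 16), (v 32), (m (v 32) (m (v 64) (v 96))), (v 17)], []⟩,
  ⟨6, 0, [(v 16), (v 32), (v 17), (m (v 96) (m (v 32) (v 64)))], []⟩,
  ⟨-4, 0, [(v 16), (v 32), (v 17), (m (v 64) (m (v 32) (v 96)))], []⟩,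
  ⟨2, 0, [(v 16), (v 32), (v 17), (m (v 32) (m (v 64) (v 96)))], []⟩,
  ⟨-2, 0, [(v 16), (v 32), (m (v 17) (v 96)), (m (v 32) (v 64))], []⟩,
  ⟨-2, 0, [(v 16), (v 32), (m (v 17) (v 64)), (m (v 32) (v 96))], []⟩,
  ⟨2, 0, [(v 16), (v 32), (m (v 96) (m (v 17) (v 64))), (v 32)], []⟩,
  ⟨-2, 0, [(v 16), (v 32), (m (v 64) (m (v 17) (v 96))), (v 32)], []⟩,
  ⟨2, 0, [(v 16), (v 32), (m (v 32) (m (v 17) (v 96))), (v 64)], []⟩,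
  ⟨-2, 0, [(v 16), (v 32), (m (v 17) (m (v 32) (v 96))), (v 64)], []⟩,
  ⟨2, 0, [(v 16), (m (v 32) (v 96)), (m (v 32) (v 64)), (v 17)], []⟩,
  ⟨-2, 0, [(v 16), (m (v 32) (v 96)), (m (v 17) (v 64)), (v 32)], []⟩,
  ⟨6, 0, [(v 16), (m (v 32) (v 64)), (v 96), (m (v 17) (v 32))], []⟩,
  ⟨-6, 0, [(v 16), (m (v 32) (v 64)), (m (v 17) (v 32)), (v 96)], []⟩,
  ⟨6, 0, [(v 16), (m (v 96) (m (v 32) (v 64))), (v 32), (v 17)], []⟩,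
  ⟨-4, 0, [(v 16), (m (v 64) (m (v 32) (v 96))), (v 32), (v 17)], []⟩,
  ⟨4, 0, [(v 16), (m (v 32) (m (v 64) (v 96))), (v 32), (v 17)], []⟩,
  ⟨2, 0, [(v 16), (m (v 17) (v 96)), (m (v 32) (v 64)), (v 32)], []⟩,
  ⟨-6, 0, [(v 16), (m (v 17) (v 32)), (v 96), (m (v 32) (v 64))], []⟩,
  ⟨4, 0, [(v 16), (m (v 17) (v 32)), (v 64), (m (v 32) (v 96))], []⟩,
  ⟨-6, 0, [(v 16), (m (v 17) (v 32)), (v 32), (m (v 64) (v 96))], []⟩,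
  ⟨-4, 0, [(v 16), (m (v 17) (v 32)), (m (v 32) (v 96)), (v 64)], []⟩,
  ⟨6, 0, [(v 16), (m (v 17) (v 32)), (m (v 32) (v 64)), (v 96)], []⟩,
  ⟨4, 0, [(v 16), (m (v 96) (m (v 17) (v 32))), (v 32), (v 64)], []⟩,
  ⟨-4, 0, [(v 16), (m (v 32) (m (v 17) (v 96))), (v 64), (v 32)], []⟩,
  ⟨2, 0, [(v 16), (m (v 17) (m (v 32) (v 96))), (v 32), (v 64)], []⟩,
  ⟨-2, 0, [(v 16), (m (v 32) (m (v 17) (v 64))), (v 32), (v 96)], []⟩,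
  ⟨2, 0, [(v 16), (m (v 32) (m (v 17) (v 32))), (v 64), (v 96)], []⟩,
  ⟨-2, 0, [(v 32), (v 96), (v 64), (v 32)], [(m (v 16) (v 17))]⟩,
  ⟨10, 0, [(v 32), (v 96), (v 64), (m (v 16) (v 32))], [(v 17)]⟩,
  ⟨-1, 0, [(v 32), (v 96), (v 32), (m (v 16) (v 17))], [(v 64)]⟩,
  ⟨2, 0, [(v 32), (v 96), (m (v 16) (v 64)), (v 32)], [(v 17)]⟩,
  ⟨8, 0, [(v 32), (v 96), (m (v 16) (v 32)), (v 64)], [(v 17)]⟩,
  ⟨-5, 0, [(v 32), (v 96), (m (v 16) (v 17)), (v 64)], [(v 32)]⟩,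
  ⟨3, 0, [(v 32), (v 64), (v 96), (v 32)], [(m (v 16) (v 17))]⟩,
  ⟨5, 0, [(v 32), (v 64), (v 96), (m (v 16) (v 17))], [(v 32)]⟩,
  ⟨-4, 0, [(v 32), (v 64), (m (v 16) (v 32)), (v 96)], [(v 17)]⟩,
  ⟨5, 0, [(v 32), (v 32), (m (v 16) (v 17)), (v 96)], [(v 64)]⟩,
  ⟨8, 0, [(v 32), (m (v 16) (v 32)), (v 96), (v 64)], [(v 17)]⟩,
  ⟨-3, 0, [(v 32), (m (v 16) (v 17)), (v 96), (v 64)], [(v 32)]⟩,
  ⟨7, 0, [(v 32), (m (v 16) (v 17)), (v 64), (v 96)], [(v 32)]⟩,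
  ⟨-4, 0, [(v 16), (v 96), (v 64), (v 32)], [(m (v 17) (v 32))]⟩,
  ⟨2, 0, [(v 16), (v 96), (v 64), (m (v 17) (v 32))], [(v 32)]⟩,
  ⟨2, 0, [(v 16), (v 96), (v 32), (m (v 32) (v 64))], [(v 17)]⟩,
  ⟨-2, 0, [(v 16), (v 96), (v 32), (m (v 17) (v 64))], [(v 32)]⟩,
  ⟨4, 0, [(v 16), (v 64), (v 96), (m (v 17) (v 32))], [(v 32)]⟩,
  ⟨4, 0, [(v 16), (v 64), (v 32), (m (v 17) (v 96))], [(v 32)]⟩,
  ⟨-4, 0, [(v 16), (v 32), (v 96), (v 64)], [(m (v 17) (v 32))]⟩,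
  ⟨-6, 0, [(v 16), (v 32), (v 96), (v 17)], [(m (v 32) (v 64))]⟩,
  ⟨-2, 0, [(v 16), (v 32), (v 96), (m (v 17) (v 64))], [(v 32)]⟩,
  ⟨-2, 0, [(v 16), (v 32), (v 96), (m (v 17) (v 32))], [(v 64)]⟩,
  ⟨-2, 0, [(v 16), (v 32), (v 64), (v 32)], [(m (v 17) (v 96))]⟩,
  ⟨-2, 0, [(v 16), (v 32), (v 64), (m (v 32) (v 96))], [(v 17)]⟩,
  ⟨2, 0, [(v 16), (v 32), (v 64), (m (v 17) (v 96))], [(v 32)]⟩,
  ⟨-4, 0, [(v 16), (v 32), (m (v 64) (v 96)), (v 32)], [(v 17)]⟩,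
  ⟨-2, 0, [(v 16), (v 32), (v 32), (v 96)], [(m (v 17) (v 64))]⟩,
  ⟨4, 0, [(v 16), (v 32), (v 32), (m (v 64) (v 96))], [(v 17)]⟩,
  ⟨-4, 0, [(v 16), (v 32), (v 32), (m (v 17) (v 96))], [(v 64)]⟩,
  ⟨8, 0, [(v 16), (v 32), (m (v 17) (v 96)), (v 32)], [(v 64)]⟩,
  ⟨-2, 0, [(v 16), (m (v 32) (v 96)), (v 64), (v 32)], [(v 17)]⟩,
  ⟨4, 0, [(v 16), (m (v 32) (v 96)), (v 32), (v 17)], [(v 64)]⟩,
  ⟨-2, 0, [(v 16), (m (v 32) (v 64)), (v 32), (v 96)], [(v 17)]⟩,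
  ⟨2, 0, [(v 16), (m (v 17) (v 96)), (v 64), (v 32)], [(v 32)]⟩,
  ⟨-2, 0, [(v 16), (m (v 17) (v 32)), (v 96), (v 64)], [(v 32)]⟩,
  ⟨4, 0, [(v 16), (m (v 17) (v 32)), (v 64), (v 96)], [(v 32)]⟩,
  ⟨-2, 0, [(v 16), (m (v 17) (v 32)), (v 32), (v 96)], [(v 64)]⟩,
  ⟨-2, 0, [(v 32), (v 96), (v 64), (v 32)], [(v 16), (v 17)]⟩,
  ⟨2, 0, [(v 16), (v 96), (v 64), (v 32)], [(v 17), (v 32)]⟩,
  ⟨-2, 0, [(v 16), (v 96), (v 64), (v 17)], [(v 32), (v 32)]⟩,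
  ⟨-4, 0, [(v 16), (v 96), (v 32), (v 64)], [(v 32), (v 17)]⟩,
  ⟨2, 0, [(v 16), (v 96), (v 32), (v 64)], [(v 17), (v 32)]⟩,
  ⟨-4, 0, [(v 16), (v 96), (v 32), (v 32)], [(v 17), (v 64)]⟩,
  ⟨-2, 0, [(v 16), (v 96), (v 32), (v 17)], [(v 64), (v 32)]⟩,
  ⟨6, 0, [(v 16), (v 96), (v 32), (v 17)], [(v 32), (v 64)]⟩,
  ⟨2, 0, [(v 16), (v 64), (v 96), (v 17)], [(v 32), (v 32)]⟩,
  ⟨2, 0, [(v 16), (v 64), (v 32), (v 96)], [(v 32), (v 17)]⟩,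
  ⟨-2, 0, [(v 16), (v 64), (v 32), (v 96)], [(v 17), (v 32)]⟩,
  ⟨-2, 0, [(v 16), (v 32), (v 96), (v 17)], [(v 64), (v 32)]⟩,
  ⟨-4, 0, [(v 16), (v 32), (v 64), (v 96)], [(v 32), (v 17)]⟩,
  ⟨4, 0, [(v 16), (v 32), (v 64), (v 96)], [(v 17), (v 32)]⟩,
  ⟨2, 0, [(v 16), (v 32), (v 64), (v 32)], [(v 96), (v 17)]⟩,
  ⟨-2, 0, [(v 16), (v 32), (v 64), (v 17)], [(v 96), (v 32)]⟩,
  ⟨-2, 0, [(v 16), (v 32), (v 32), (v 96)], [(v 64), (v 17)]⟩]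

/-- identity OmAlt -/
def omq : P :=
  [(1, m (m (p (v 16) (v 17) (v 32) (v 96)) (v 32)) (v 64)),
   (1, m (m (v 32) (v 64)) (p (v 16) (v 17) (v 32) (v 96))),
   (1, m (m (v 64) (p (v 16) (v 17) (v 32) (v 96))) (v 32)),
   (-1, p (v 16) (v 17) (v 32) (m (m (v 96) (v 32)) (v 64))),
   (-1, p (v 16) (v 17) (v 32) (m (m (v 32) (v 64)) (v 96))),
   (-1, p (v 16) (v 17) (v 32) (m (m (v 64) (v 96)) (v 32)))]

theorem omk : zeroChk [16, 17] (smulP 6 (expP omq) ++ instAll [sagle] omc) = true := by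
  decide +kernel

theorem oms : symChk [16, 17] omq = true := by decide +kernel

theorem om_ev (hM : IsMalcev A) [IsAddTorsionFree A] (b : ℕ → A) : evQ real b omq = 0 :=
  cert6 hM [sagle] (sagle_mem hM triv) _ omq _ (by norm_num) omc omk (by decide +kernel) oms b

theorem Om_sq (hM : IsMalcev A) [IsAddTorsionFree A] (u x y z q : A) : OmT u x y z z q = 0 := by
  have h := om_ev hM (val [(16, x), (17, y), (32, z), (64, q), (96, u)])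
  simp [omq, evQ, T.ev, real, val] at h
  simp only [OmT, J, P6_add4]
  linear_combination (norm := module) h

theorem Om_34 (hM : IsMalcev A) [IsAddTorsionFree A] (u a b c d e : A) :
    OmT u a b d c e = -OmT u a b c d e := by
  have h := Om_sq hM u a b (c + d) e
  rw [Om_add3, Om_add4, Om_add4, Om_sq hM, Om_sq hM, zero_add, add_zero] at h
  exact eq_neg_of_add_eq_zero_right h

theorem real_good (hM : IsMalcev A) [IsAddTorsionFree A] : (real : Ops A).Good where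
  anti := anti hM
  ph1 := P6_neg1
  ph2 := P6_neg2
  ph3 := P6_neg3
  ph4 := P6_neg4
  ph12 := P6_12 hM
  ph23 := P6_23 hM
  om0 := Om_neg0
  om1 := Om_neg1
  om2 := Om_neg2
  om3 := Om_neg3
  om4 := Om_neg4
  om5 := Om_neg5
  om12 := by
    intro u a b c d e
    simp only [real, OmT, P6_12 hM a b c, J_neg1]
    abel
  om23 := by
    intro u a b c d e
    simp only [real, OmT, P6_23 hM a b c, J_neg1]
    abel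
  om34 := Om_34 hM
  om45 := by
    intro u a b c d e
    simp only [real, OmT, J_swap23 (anti hM) _ d e, P6_neg4]
    abel

/-- certificate -/
def nrc : List I := [
  ⟨-12, 0, [(v 32), (v 64), (v 32), (m (v 16) (m (v 17) (v 18)))], []⟩,
  ⟨30, 0, [(v 32), (v 64), (m (v 16) (v 32)), (m (v 17) (v 18))], []⟩,
  ⟨64, 0, [(v 32), (v 64), (m (v 16) (m (v 17) (v 18))), (v 32)], []⟩,
  ⟨-68, 0, [(v 32), (v 32), (m (v 16) (v 64)), (m (v 17) (v 18))], []⟩,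
  ⟨-106, 0, [(v 32), (m (v 16) (v 32)), (v 64), (m (v 17) (v 18))], []⟩,
  ⟨-118, 0, [(v 32), (m (v 16) (v 32)), (m (v 17) (v 18)), (v 64)], []⟩,
  ⟨140, 0, [(v 32), (m (v 16) (v 17)), (v 64), (m (v 18) (v 32))], []⟩,
  ⟨32, 0, [(v 32), (m (v 16) (v 17)), (m (v 18) (v 32)), (v 64)], []⟩,
  ⟨118, 0, [(v 16), (v 64), (v 32), (m (v 32) (m (v 17) (v 18)))], []⟩,
  ⟨-76, 0, [(v 16), (v 64), (v 32), (m (v 17) (m (v 18) (v 32)))], []⟩,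
  ⟨-66, 0, [(v 16), (v 64), (m (v 32) (m (v 17) (v 32))), (v 18)], []⟩,
  ⟨-118, 0, [(v 16), (v 64), (m (v 32) (m (v 17) (v 18))), (v 32)], []⟩,
  ⟨110, 0, [(v 16), (v 64), (m (v 17) (m (v 18) (v 32))), (v 32)], []⟩,
  ⟨2, 0, [(v 16), (v 32), (v 64), (m (v 17) (m (v 18) (v 32)))], []⟩,
  ⟨-64, 0, [(v 16), (v 32), (v 32), (m (v 64) (m (v 17) (v 18)))], []⟩,
  ⟨12, 0, [(v 16), (v 32), (m (v 32) (v 64)), (m (v 17) (v 18))], []⟩,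
  ⟨2, 0, [(v 16), (v 32), (v 17), (m (v 64) (m (v 18) (v 32)))], []⟩,
  ⟨42, 0, [(v 16), (v 32), (v 17), (m (v 18) (m (v 32) (v 64)))], []⟩,
  ⟨-24, 0, [(v 16), (v 32), (m (v 17) (v 32)), (m (v 18) (v 64))], []⟩,
  ⟨50, 0, [(v 16), (v 32), (m (v 32) (m (v 17) (v 64))), (v 18)], []⟩,
  ⟨-54, 0, [(v 16), (v 32), (m (v 17) (v 18)), (m (v 32) (v 64))], []⟩,
  ⟨-24, 0, [(v 16), (v 32), (m (v 17) (m (v 18) (v 64))), (v 32)], []⟩,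
  ⟨24, 0, [(v 16), (m (v 32) (v 64)), (v 17), (m (v 18) (v 32))], []⟩,
  ⟨-32, 0, [(v 16), (m (v 32) (v 64)), (m (v 17) (v 32)), (v 18)], []⟩,
  ⟨-42, 0, [(v 16), (m (v 32) (v 64)), (m (v 17) (v 18)), (v 32)], []⟩,
  ⟨128, 0, [(v 16), (v 17), (m (v 64) (m (v 18) (v 32))), (v 32)], []⟩,
  ⟨-170, 0, [(v 16), (v 17), (m (v 32) (m (v 18) (v 64))), (v 32)], []⟩,
  ⟨128, 0, [(v 16), (v 17), (m (v 18) (m (v 32) (v 64))), (v 32)], []⟩,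
  ⟨-120, 0, [(v 16), (v 17), (m (v 32) (m (v 18) (v 32))), (v 64)], []⟩,
  ⟨-48, 0, [(v 16), (m (v 17) (v 32)), (v 32), (m (v 18) (v 64))], []⟩,
  ⟨144, 0, [(v 16), (m (v 17) (v 32)), (m (v 18) (v 64)), (v 32)], []⟩,
  ⟨-116, 0, [(v 16), (m (v 17) (v 32)), (m (v 18) (v 32)), (v 64)], []⟩,
  ⟨12, 0, [(v 16), (m (v 17) (v 18)), (m (v 32) (v 64)), (v 32)], []⟩,
  ⟨16, 0, [(v 16), (m (v 17) (m (v 18) (v 64))), (v 32), (v 32)], []⟩,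
  ⟨12, 0, [(v 32), (v 64), (v 32), (m (v 16) (v 17))], [(v 18)]⟩,
  ⟨12, 0, [(v 16), (v 64), (v 32), (v 32)], [(m (v 17) (v 18))]⟩,
  ⟨-76, 0, [(v 16), (v 64), (v 32), (v 17)], [(m (v 18) (v 32))]⟩,
  ⟨38, 0, [(v 16), (v 64), (v 32), (m (v 17) (v 18))], [(v 32)]⟩,
  ⟨-8, 0, [(v 16), (v 64), (v 17), (m (v 18) (v 32))], [(v 32)]⟩,
  ⟨-10, 0, [(v 16), (v 64), (m (v 17) (v 32)), (v 32)], [(v 18)]⟩,
  ⟨-34, 0, [(v 16), (v 64), (m (v 17) (v 32)), (v 18)], [(v 32)]⟩,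
  ⟨8, 0, [(v 16), (v 32), (v 64), (v 17)], [(m (v 18) (v 32))]⟩,
  ⟨106, 0, [(v 16), (v 32), (v 64), (m (v 17) (v 32))], [(v 18)]⟩,
  ⟨-106, 0, [(v 16), (v 32), (v 32), (v 64)], [(m (v 17) (v 18))]⟩,
  ⟨-68, 0, [(v 16), (v 32), (v 32), (v 17)], [(m (v 18) (v 64))]⟩,
  ⟨-104, 0, [(v 16), (v 32), (v 32), (m (v 17) (v 64))], [(v 18)]⟩,
  ⟨-64, 0, [(v 16), (v 32), (m (v 32) (v 64)), (v 17)], [(v 18)]⟩,
  ⟨42, 0, [(v 16), (v 32), (v 17), (v 18)], [(m (v 32) (v 64))]⟩,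
  ⟨-22, 0, [(v 16), (v 32), (v 17), (m (v 18) (v 32))], [(v 64)]⟩,
  ⟨16, 0, [(v 16), (v 32), (m (v 17) (v 64)), (v 18)], [(v 32)]⟩,
  ⟨-64, 0, [(v 16), (v 32), (m (v 17) (v 32)), (v 64)], [(v 18)]⟩,
  ⟨138, 0, [(v 16), (v 32), (m (v 17) (v 32)), (v 18)], [(v 64)]⟩,
  ⟨-64, 0, [(v 16), (v 32), (m (v 17) (v 18)), (v 64)], [(v 32)]⟩,
  ⟨160, 0, [(v 16), (v 32), (m (v 17) (v 18)), (v 32)], [(v 64)]⟩,
  ⟨-122, 0, [(v 16), (v 17), (m (v 18) (v 32)), (v 32)], [(v 64)]⟩,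
  ⟨28, 0, [(v 16), (m (v 17) (v 64)), (v 32), (v 32)], [(v 18)]⟩,
  ⟨44, 0, [(v 16), (m (v 17) (v 32)), (v 64), (v 32)], [(v 18)]⟩,
  ⟨102, 0, [(v 16), (m (v 17) (v 18)), (v 64), (v 32)], [(v 32)]⟩,
  ⟨-68, 0, [(v 16), (m (v 17) (v 18)), (v 32), (v 64)], [(v 32)]⟩,
  ⟨-64, 0, [(v 16), (v 64), (v 32), (v 32)], [(v 17), (v 18)]⟩,
  ⟨38, 0, [(v 16), (v 64), (v 32), (v 17)], [(v 18), (v 32)]⟩,
  ⟨-66, 0, [(v 16), (v 64), (v 17), (v 32)], [(v 32), (v 18)]⟩,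
  ⟨28, 0, [(v 16), (v 64), (v 17), (v 32)], [(v 18), (v 32)]⟩,
  ⟨-106, 0, [(v 16), (v 32), (v 64), (v 17)], [(v 32), (v 18)]⟩,
  ⟨-4, 0, [(v 16), (v 32), (v 64), (v 17)], [(v 18), (v 32)]⟩,
  ⟨10, 0, [(v 16), (v 32), (v 32), (v 64)], [(v 17), (v 18)]⟩,
  ⟨-12, 0, [(v 16), (v 32), (v 32), (v 17)], [(v 64), (v 18)]⟩,
  ⟨76, 0, [(v 16), (v 32), (v 32), (v 17)], [(v 18), (v 64)]⟩,
  ⟨38, 0, [(v 16), (v 32), (v 17), (v 18)], [(v 64), (v 32)]⟩,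
  ⟨-42, 0, [(v 16), (v 32), (v 17), (v 18)], [(v 32), (v 64)]⟩]

/-- identity nrel -/
def nrq : P :=
  [(1, m (m (p (v 16) (v 17) (v 18) (v 32)) (v 32)) (v 64)),
   (1, m (m (v 32) (v 64)) (p (v 16) (v 17) (v 18) (v 32))),
   (1, m (m (v 64) (p (v 16) (v 17) (v 18) (v 32))) (v 32)),
   (1, w (v 32) (v 32) (v 16) (v 17) (v 18) (v 64))]

theorem nrk : zeroChk [16, 17, 18] (smulP 59 (expP nrq) ++ instAll [sagle] nrc) = true := by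
  decide +kernel

theorem nrs : symChk [16, 17, 18] nrq = true := by decide +kernel

theorem nr_ev (hM : IsMalcev A) [IsAddTorsionFree A] (b : ℕ → A) : evQ real b nrq = 0 :=
  cert_exp (anti hM) [sagle] (sagle_mem hM triv) _ nrq _ (by norm_num) nrc nrk real (real_good hM)
    (fun _ => rfl) nrs b

/-- the relation between the Jacobian and `Ω` -/
theorem nrel (hM : IsMalcev A) [IsAddTorsionFree A] (x y z w r : A) :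
    J (P6 x y z w) w r = -OmT w w x y z r := by
  have h := nr_ev hM (val [(16, x), (17, y), (18, z), (32, w), (64, r)])
  simp [nrq, evQ, T.ev, real, val] at h
  simp only [J]
  linear_combination (norm := module) h

end Pool.Agent.Hhelper8.Chk
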