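import Mathlib
import Pool.Agent.Hhelper8.Free
import Pool.Agent.Hhelper8.Cert.Checker
import Pool.Agent.Hhelper8.Cert.Sound
import Pool.Agent.Hhelper8.Cert.Basic
import Pool.Agent.Hhelper8.Cert.Additive
import Pool.Agent.Hhelper8.Cert.Deg6

/-!
Identity I1.
-/

namespace Pool.Agent.Hhelper8.Chk

open Pool.Agent.Hhelper8 T

variable {A : Type*} [NonUnitalNonAssocRing A]

/-- certificate -/
def I1c : List I := [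
  ⟨-522, 0, [(v 64), (m (v 16) (v 32)), (m (v 17) (v 32)), (m (v 18) (v 19))], []⟩,
  ⟨-35, 0, [(v 32), (v 64), (m (v 16) (m (v 17) (v 32))), (m (v 18) (v 19))], []⟩,
  ⟨-23, 0, [(v 32), (m (v 16) (m (v 17) (v 32))), (v 64), (m (v 18) (v 19))], []⟩,
  ⟨508, 0, [(v 16), (v 64), (v 32), (m (v 17) (m (v 18) (m (v 19) (v 32))))], []⟩,
  ⟨49, 0, [(v 16), (v 64), (v 17), (m (v 32) (m (v 18) (m (v 19) (v 32))))], []⟩,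
  ⟨252, 0, [(v 16), (v 64), (v 17), (m (v 18) (m (v 32) (m (v 19) (v 32))))], []⟩,
  ⟨144, 0, [(v 16), (v 64), (v 17), (m (m (v 18) (v 32)) (m (v 19) (v 32)))], []⟩,
  ⟨-72, 0, [(v 16), (v 64), (m (v 17) (v 32)), (m (v 32) (m (v 18) (v 19)))], []⟩,
  ⟨162, 0, [(v 16), (v 64), (m (v 32) (m (v 17) (v 32))), (m (v 18) (v 19))], []⟩,
  ⟨144, 0, [(v 16), (v 64), (m (v 32) (m (v 17) (v 18))), (m (v 19) (v 32))], []⟩,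
  ⟨-156, 0, [(v 16), (v 64), (m (v 17) (m (v 18) (v 32))), (m (v 19) (v 32))], []⟩,
  ⟨89, 0, [(v 16), (v 64), (m (v 32) (m (v 17) (m (v 18) (v 32)))), (v 19)], []⟩,
  ⟨-216, 0, [(v 16), (v 64), (m (v 17) (m (v 32) (m (v 18) (v 32)))), (v 19)], []⟩,
  ⟨234, 0, [(v 16), (v 64), (m (v 17) (m (v 32) (m (v 18) (v 19)))), (v 32)], []⟩,
  ⟨-230, 0, [(v 16), (v 64), (m (v 17) (m (v 18) (m (v 19) (v 32)))), (v 32)], []⟩,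
  ⟨-684, 0, [(v 16), (v 64), (m (m (v 17) (v 18)) (m (v 19) (v 32))), (v 32)], []⟩,
  ⟨360, 0, [(v 16), (v 32), (v 64), (m (v 32) (m (v 17) (m (v 18) (v 19))))], []⟩,
  ⟨-378, 0, [(v 16), (v 32), (v 64), (m (v 17) (m (v 32) (m (v 18) (v 19))))], []⟩,
  ⟨184, 0, [(v 16), (v 32), (m (v 32) (v 64)), (m (v 17) (m (v 18) (v 19)))], []⟩,
  ⟨-108, 0, [(v 16), (v 32), (v 17), (m (v 64) (m (v 18) (m (v 19) (v 32))))], []⟩,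
  ⟨-18, 0, [(v 16), (v 32), (v 17), (m (v 32) (m (v 18) (m (v 19) (v 64))))], []⟩,
  ⟨-28, 0, [(v 16), (v 32), (v 17), (m (v 18) (m (v 19) (m (v 32) (v 64))))], []⟩,
  ⟨-90, 0, [(v 16), (v 32), (v 17), (m (m (v 18) (v 32)) (m (v 19) (v 64)))], []⟩,
  ⟨100, 0, [(v 16), (v 32), (v 17), (m (m (v 18) (v 19)) (m (v 32) (v 64)))], []⟩,
  ⟨-18, 0, [(v 16), (v 32), (m (v 17) (v 64)), (m (v 32) (m (v 18) (v 19)))], []⟩,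
  ⟨-130, 0, [(v 16), (v 32), (m (v 17) (v 64)), (m (v 18) (m (v 19) (v 32)))], []⟩,
  ⟨360, 0, [(v 16), (v 32), (m (v 17) (v 32)), (m (v 18) (m (v 19) (v 64)))], []⟩,
  ⟨360, 0, [(v 16), (v 32), (m (v 17) (m (v 18) (v 64))), (m (v 19) (v 32))], []⟩,
  ⟨-18, 0, [(v 16), (v 32), (m (v 32) (m (v 17) (v 18))), (m (v 19) (v 64))], []⟩,
  ⟨-130, 0, [(v 16), (v 32), (m (v 17) (m (v 18) (v 32))), (m (v 19) (v 64))], []⟩,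
  ⟨-108, 0, [(v 16), (v 32), (m (v 64) (m (v 17) (m (v 18) (v 32)))), (v 19)], []⟩,
  ⟨-18, 0, [(v 16), (v 32), (m (v 32) (m (v 17) (m (v 18) (v 64)))), (v 19)], []⟩,
  ⟨-28, 0, [(v 16), (v 32), (m (v 17) (m (v 18) (m (v 32) (v 64)))), (v 19)], []⟩,
  ⟨-90, 0, [(v 16), (v 32), (m (m (v 17) (v 32)) (m (v 18) (v 64))), (v 19)], []⟩,
  ⟨100, 0, [(v 16), (v 32), (m (m (v 17) (v 18)) (m (v 32) (v 64))), (v 19)], []⟩,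
  ⟨184, 0, [(v 16), (v 32), (m (v 17) (m (v 18) (v 19))), (m (v 32) (v 64))], []⟩,
  ⟨360, 0, [(v 16), (v 32), (m (v 32) (m (v 17) (m (v 18) (v 19)))), (v 64)], []⟩,
  ⟨-378, 0, [(v 16), (v 32), (m (v 17) (m (v 32) (m (v 18) (v 19)))), (v 64)], []⟩,
  ⟨-169, 0, [(v 16), (m (v 32) (v 64)), (v 17), (m (v 32) (m (v 18) (v 19)))], []⟩,
  ⟨-11, 0, [(v 16), (m (v 32) (v 64)), (m (v 17) (v 32)), (m (v 18) (v 19))], []⟩,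
  ⟨653, 0, [(v 16), (m (v 32) (v 64)), (m (v 17) (v 18)), (m (v 19) (v 32))], []⟩,
  ⟨-100, 0, [(v 16), (m (v 32) (v 64)), (m (v 32) (m (v 17) (v 18))), (v 19)], []⟩,
  ⟨-508, 0, [(v 16), (m (v 32) (v 64)), (m (v 17) (m (v 18) (v 32))), (v 19)], []⟩,
  ⟨-451, 0, [(v 16), (m (v 32) (m (v 32) (v 64))), (v 17), (m (v 18) (v 19))], []⟩,
  ⟨-267, 0, [(v 16), (m (v 32) (m (v 32) (v 64))), (m (v 17) (v 18)), (v 19)], []⟩,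
  ⟨-137, 0, [(v 16), (v 17), (v 18), (m (v 32) (m (v 64) (m (v 19) (v 32))))], []⟩,
  ⟨155, 0, [(v 16), (v 17), (v 18), (m (v 32) (m (v 32) (m (v 19) (v 64))))], []⟩,
  ⟨-554, 0, [(v 16), (v 17), (v 18), (m (v 32) (m (v 19) (m (v 32) (v 64))))], []⟩,
  ⟨660, 0, [(v 16), (v 17), (v 18), (m (v 19) (m (v 32) (m (v 32) (v 64))))], []⟩,
  ⟨-106, 0, [(v 16), (v 17), (v 18), (m (m (v 19) (v 32)) (m (v 32) (v 64)))], []⟩,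
  ⟨288, 0, [(v 16), (v 17), (m (v 32) (m (v 18) (v 64))), (m (v 19) (v 32))], []⟩,
  ⟨234, 0, [(v 16), (v 17), (m (v 32) (m (v 18) (v 32))), (m (v 19) (v 64))], []⟩,
  ⟨267, 0, [(v 16), (v 17), (m (v 18) (v 19)), (m (v 32) (m (v 32) (v 64)))], []⟩,
  ⟨467, 0, [(v 16), (v 17), (m (v 32) (m (v 18) (v 19))), (m (v 32) (v 64))], []⟩,
  ⟨-12, 0, [(v 16), (v 17), (m (v 18) (m (v 19) (v 32))), (m (v 32) (v 64))], []⟩,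
  ⟨-12, 0, [(v 16), (v 17), (m (v 64) (m (v 18) (m (v 19) (v 32)))), (v 32)], []⟩,
  ⟨-199, 0, [(v 16), (v 17), (m (v 32) (m (v 18) (m (v 19) (v 32)))), (v 64)], []⟩,
  ⟨-198, 0, [(v 16), (v 17), (m (m (v 18) (v 32)) (m (v 19) (v 32))), (v 64)], []⟩,
  ⟨-126, 0, [(v 16), (m (v 17) (v 64)), (v 18), (m (v 32) (m (v 19) (v 32)))], []⟩,
  ⟨252, 0, [(v 16), (m (v 17) (v 32)), (v 64), (m (v 32) (m (v 18) (v 19)))], []⟩,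
  ⟨248, 0, [(v 16), (m (v 17) (v 32)), (v 64), (m (v 18) (m (v 19) (v 32)))], []⟩,
  ⟨-54, 0, [(v 16), (m (v 17) (v 32)), (v 32), (m (v 64) (m (v 18) (v 19)))], []⟩,
  ⟨-90, 0, [(v 16), (m (v 17) (v 32)), (v 18), (m (v 32) (m (v 19) (v 64)))], []⟩,
  ⟨-496, 0, [(v 16), (m (v 17) (v 32)), (v 18), (m (v 19) (m (v 32) (v 64)))], []⟩,
  ⟨74, 0, [(v 16), (m (v 17) (v 32)), (m (v 18) (m (v 19) (v 32))), (v 64)], []⟩,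
  ⟨144, 0, [(v 16), (m (v 64) (m (v 17) (v 32))), (v 32), (m (v 18) (v 19))], []⟩,
  ⟨-342, 0, [(v 16), (m (v 64) (m (v 17) (v 32))), (m (v 18) (v 19)), (v 32)], []⟩,
  ⟨360, 0, [(v 16), (m (v 32) (m (v 17) (v 64))), (m (v 18) (v 19)), (v 32)], []⟩,
  ⟨859, 0, [(v 16), (m (v 17) (m (v 32) (v 64))), (v 32), (m (v 18) (v 19))], []⟩,
  ⟨162, 0, [(v 16), (m (v 17) (v 18)), (v 64), (m (v 32) (m (v 19) (v 32)))], []⟩,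
  ⟨-342, 0, [(v 16), (m (v 17) (v 18)), (v 32), (m (v 64) (m (v 19) (v 32)))], []⟩,
  ⟨360, 0, [(v 16), (m (v 17) (v 18)), (v 32), (m (v 32) (m (v 19) (v 64)))], []⟩,
  ⟨-630, 0, [(v 16), (m (v 17) (v 18)), (m (v 19) (v 32)), (m (v 32) (v 64))], []⟩,
  ⟨144, 0, [(v 16), (m (v 17) (v 18)), (m (v 64) (m (v 19) (v 32))), (v 32)], []⟩,
  ⟨608, 0, [(v 16), (m (v 17) (v 18)), (m (v 19) (m (v 32) (v 64))), (v 32)], []⟩,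
  ⟨-54, 0, [(v 16), (m (v 64) (m (v 17) (v 18))), (m (v 19) (v 32)), (v 32)], []⟩,
  ⟨-144, 0, [(v 16), (m (v 32) (m (v 17) (v 18))), (m (v 19) (v 32)), (v 64)], []⟩,
  ⟨-174, 0, [(v 16), (m (v 17) (m (v 18) (v 32))), (m (v 19) (v 32)), (v 64)], []⟩,
  ⟨-251, 0, [(v 16), (m (v 17) (m (v 18) (v 19))), (v 32), (m (v 32) (v 64))], []⟩,
  ⟨234, 0, [(v 16), (m (v 17) (m (v 32) (m (v 18) (v 19)))), (v 32), (v 64)], []⟩,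
  ⟨508, 0, [(v 16), (m (v 17) (m (v 18) (m (v 19) (v 32)))), (v 64), (v 32)], []⟩,
  ⟨-230, 0, [(v 16), (m (v 17) (m (v 18) (m (v 19) (v 32)))), (v 32), (v 64)], []⟩,
  ⟨-684, 0, [(v 16), (m (m (v 17) (v 18)) (m (v 19) (v 32))), (v 32), (v 64)], []⟩,
  ⟨-378, 0, [(v 32), (v 64), (m (v 16) (v 17)), (m (v 18) (v 32))], [(v 19)]⟩,
  ⟨155, 0, [(v 32), (m (v 16) (v 64)), (v 32), (m (v 17) (v 18))], [(v 19)]⟩,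
  ⟨144, 0, [(v 32), (m (v 16) (v 17)), (v 64), (m (v 18) (v 32))], [(v 19)]⟩,
  ⟨677, 0, [(v 32), (m (v 16) (v 17)), (m (v 18) (v 32)), (v 64)], [(v 19)]⟩,
  ⟨-205, 0, [(v 16), (v 64), (v 32), (v 32)], [(m (v 17) (m (v 18) (v 19)))]⟩,
  ⟨77, 0, [(v 16), (v 64), (v 32), (v 17)], [(m (v 18) (m (v 19) (v 32)))]⟩,
  ⟨-252, 0, [(v 16), (v 64), (v 32), (m (v 17) (v 32))], [(m (v 18) (v 19))]⟩,
  ⟨-162, 0, [(v 16), (v 64), (v 32), (m (v 17) (v 18))], [(m (v 19) (v 32))]⟩,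
  ⟨211, 0, [(v 16), (v 64), (v 17), (v 32)], [(m (v 18) (m (v 19) (v 32)))]⟩,
  ⟨486, 0, [(v 16), (v 64), (v 17), (m (v 18) (v 32))], [(m (v 19) (v 32))]⟩,
  ⟨252, 0, [(v 16), (v 64), (m (v 17) (v 32)), (v 18)], [(m (v 19) (v 32))]⟩,
  ⟨54, 0, [(v 16), (v 64), (m (v 17) (v 32)), (m (v 18) (v 32))], [(v 19)]⟩,
  ⟨-252, 0, [(v 16), (v 64), (m (v 32) (m (v 17) (v 32))), (v 18)], [(v 19)]⟩,
  ⟨-288, 0, [(v 16), (v 64), (m (v 32) (m (v 17) (v 18))), (v 32)], [(v 19)]⟩,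
  ⟨-150, 0, [(v 16), (v 64), (m (v 17) (m (v 18) (v 32))), (v 32)], [(v 19)]⟩,
  ⟨37, 0, [(v 16), (v 32), (v 64), (v 17)], [(m (v 18) (m (v 19) (v 32)))]⟩,
  ⟨144, 0, [(v 16), (v 32), (v 64), (m (v 17) (v 32))], [(m (v 18) (v 19))]⟩,
  ⟨98, 0, [(v 16), (v 32), (v 64), (m (v 17) (m (v 18) (v 32)))], [(v 19)]⟩,
  ⟨-18, 0, [(v 16), (v 32), (v 32), (v 17)], [(m (v 18) (m (v 19) (v 64)))]⟩,
  ⟨-360, 0, [(v 16), (v 32), (v 32), (m (v 17) (v 18))], [(m (v 19) (v 64))]⟩,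
  ⟨-169, 0, [(v 16), (v 32), (m (v 32) (v 64)), (v 17)], [(m (v 18) (v 19))]⟩,
  ⟨718, 0, [(v 16), (v 32), (v 17), (m (v 32) (v 64))], [(m (v 18) (v 19))]⟩,
  ⟨18, 0, [(v 16), (v 32), (v 17), (v 18)], [(m (v 64) (m (v 19) (v 32)))]⟩,
  ⟨922, 0, [(v 16), (v 32), (v 17), (v 18)], [(m (v 19) (m (v 32) (v 64)))]⟩,
  ⟨-234, 0, [(v 16), (v 32), (v 17), (m (v 18) (v 64))], [(m (v 19) (v 32))]⟩,
  ⟨-288, 0, [(v 16), (v 32), (v 17), (m (v 18) (v 32))], [(m (v 19) (v 64))]⟩,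
  ⟨16, 0, [(v 16), (v 32), (v 17), (m (v 18) (v 19))], [(m (v 32) (v 64))]⟩,
  ⟨30, 0, [(v 16), (v 32), (v 17), (m (v 32) (m (v 18) (v 19)))], [(v 64)]⟩,
  ⟨508, 0, [(v 16), (v 32), (v 17), (m (v 18) (m (v 19) (v 32)))], [(v 64)]⟩,
  ⟨-126, 0, [(v 16), (v 32), (m (v 17) (v 64)), (v 18)], [(m (v 19) (v 32))]⟩,
  ⟨-90, 0, [(v 16), (v 32), (m (v 17) (v 32)), (v 18)], [(m (v 19) (v 64))]⟩,
  ⟨-338, 0, [(v 16), (v 32), (m (v 17) (v 32)), (m (v 18) (v 19))], [(v 64)]⟩,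
  ⟨90, 0, [(v 16), (v 32), (m (v 32) (m (v 17) (v 64))), (v 18)], [(v 19)]⟩,
  ⟨496, 0, [(v 16), (v 32), (m (v 17) (m (v 32) (v 64))), (v 18)], [(v 19)]⟩,
  ⟨-107, 0, [(v 16), (v 32), (m (v 17) (v 18)), (m (v 32) (v 64))], [(v 19)]⟩,
  ⟨451, 0, [(v 16), (v 32), (m (v 17) (v 18)), (v 19)], [(m (v 32) (v 64))]⟩,
  ⟨-209, 0, [(v 16), (v 32), (m (v 64) (m (v 17) (v 18))), (v 32)], [(v 19)]⟩,
  ⟨252, 0, [(v 16), (v 32), (m (v 32) (m (v 17) (v 18))), (v 64)], [(v 19)]⟩,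
  ⟨309, 0, [(v 16), (v 32), (m (v 32) (m (v 17) (v 18))), (v 19)], [(v 64)]⟩,
  ⟨248, 0, [(v 16), (v 32), (m (v 17) (m (v 18) (v 32))), (v 64)], [(v 19)]⟩,
  ⟨-100, 0, [(v 16), (m (v 32) (v 64)), (v 32), (v 17)], [(m (v 18) (v 19))]⟩,
  ⟨262, 0, [(v 16), (m (v 32) (v 64)), (v 17), (v 18)], [(m (v 19) (v 32))]⟩,
  ⟨-380, 0, [(v 16), (m (v 32) (v 64)), (v 17), (m (v 18) (v 32))], [(v 19)]⟩,
  ⟨-1252, 0, [(v 16), (m (v 32) (v 64)), (m (v 17) (v 32)), (v 18)], [(v 19)]⟩,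
  ⟨-475, 0, [(v 16), (m (v 32) (v 64)), (m (v 17) (v 18)), (v 32)], [(v 19)]⟩,
  ⟨5, 0, [(v 16), (v 17), (v 18), (m (v 19) (v 32))], [(m (v 32) (v 64))]⟩,
  ⟨380, 0, [(v 16), (v 17), (m (v 18) (v 32)), (m (v 32) (v 64))], [(v 19)]⟩,
  ⟨404, 0, [(v 16), (v 17), (m (v 18) (v 32)), (m (v 19) (v 32))], [(v 64)]⟩,
  ⟨-288, 0, [(v 16), (v 17), (m (v 32) (m (v 18) (v 64))), (v 32)], [(v 19)]⟩,
  ⟨486, 0, [(v 16), (v 17), (m (v 32) (m (v 18) (v 32))), (v 64)], [(v 19)]⟩,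
  ⟨537, 0, [(v 16), (v 17), (m (v 32) (m (v 18) (v 19))), (v 32)], [(v 64)]⟩,
  ⟨18, 0, [(v 16), (m (v 17) (v 64)), (v 32), (v 32)], [(m (v 18) (v 19))]⟩,
  ⟨-144, 0, [(v 16), (m (v 17) (v 32)), (v 64), (v 32)], [(m (v 18) (v 19))]⟩,
  ⟨54, 0, [(v 16), (m (v 17) (v 32)), (v 64), (m (v 18) (v 32))], [(v 19)]⟩,
  ⟨72, 0, [(v 16), (m (v 17) (v 32)), (v 32), (v 64)], [(m (v 18) (v 19))]⟩,
  ⟨677, 0, [(v 16), (m (v 17) (v 32)), (v 32), (m (v 18) (v 19))], [(v 64)]⟩,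
  ⟨-632, 0, [(v 16), (m (v 17) (v 32)), (v 18), (m (v 19) (v 32))], [(v 64)]⟩,
  ⟨-54, 0, [(v 16), (m (v 17) (v 32)), (m (v 18) (v 32)), (v 64)], [(v 19)]⟩,
  ⟨-162, 0, [(v 16), (m (v 17) (v 18)), (v 64), (v 32)], [(m (v 19) (v 32))]⟩,
  ⟨140, 0, [(v 16), (m (v 17) (v 18)), (v 32), (m (v 32) (v 64))], [(v 19)]⟩,
  ⟨192, 0, [(v 16), (m (v 17) (v 18)), (m (v 19) (v 32)), (v 32)], [(v 64)]⟩,
  ⟨360, 0, [(v 16), (m (v 17) (m (v 18) (v 64))), (v 32), (v 32)], [(v 19)]⟩,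
  ⟨-227, 0, [(v 16), (m (v 32) (m (v 17) (v 18))), (v 64), (v 32)], [(v 19)]⟩,
  ⟨-132, 0, [(v 16), (m (v 17) (m (v 18) (v 32))), (v 32), (v 64)], [(v 19)]⟩,
  ⟨-225, 0, [(v 16), (m (v 17) (m (v 18) (v 19))), (v 32), (v 32)], [(v 64)]⟩,
  ⟨533, 0, [(v 16), (v 64), (v 32), (v 32)], [(v 17), (m (v 18) (v 19))]⟩,
  ⟨-216, 0, [(v 16), (v 64), (v 32), (v 17)], [(v 18), (m (v 19) (v 32))]⟩,
  ⟨140, 0, [(v 16), (v 64), (v 32), (m (v 17) (v 32))], [(v 18), (v 19)]⟩,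
  ⟨7, 0, [(v 16), (v 64), (v 32), (m (v 17) (v 18))], [(v 32), (v 19)]⟩,
  ⟨-396, 0, [(v 16), (v 64), (v 17), (v 32)], [(m (v 18) (v 32)), (v 19)]⟩,
  ⟨-486, 0, [(v 16), (v 64), (v 17), (m (v 18) (v 32))], [(v 32), (v 19)]⟩,
  ⟨122, 0, [(v 16), (v 64), (m (v 17) (v 32)), (v 32)], [(v 18), (v 19)]⟩,
  ⟨-252, 0, [(v 16), (v 64), (m (v 17) (v 32)), (v 18)], [(v 32), (v 19)]⟩,
  ⟨-234, 0, [(v 16), (v 32), (v 64), (v 32)], [(v 17), (m (v 18) (v 19))]⟩,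
  ⟨-540, 0, [(v 16), (v 32), (v 64), (v 32)], [(m (v 17) (v 18)), (v 19)]⟩,
  ⟨252, 0, [(v 16), (v 32), (v 64), (v 17)], [(v 18), (m (v 19) (v 32))]⟩,
  ⟨-288, 0, [(v 16), (v 32), (v 64), (v 17)], [(m (v 18) (v 32)), (v 19)]⟩,
  ⟨-18, 0, [(v 16), (v 32), (v 64), (m (v 17) (v 32))], [(v 18), (v 19)]⟩,
  ⟨90, 0, [(v 16), (v 32), (v 32), (v 17)], [(m (v 18) (v 64)), (v 19)]⟩,
  ⟨30, 0, [(v 16), (v 32), (v 32), (v 17)], [(m (v 18) (v 19)), (v 64)]⟩,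
  ⟨-342, 0, [(v 16), (v 32), (v 32), (m (v 17) (v 18))], [(v 64), (v 19)]⟩,
  ⟨47, 0, [(v 16), (v 32), (v 32), (m (v 17) (v 18))], [(v 19), (v 64)]⟩,
  ⟨-120, 0, [(v 16), (v 32), (m (v 32) (v 64)), (v 17)], [(v 18), (v 19)]⟩,
  ⟨953, 0, [(v 16), (v 32), (v 17), (v 18)], [(m (v 32) (v 64)), (v 19)]⟩,
  ⟨-394, 0, [(v 16), (v 32), (v 17), (v 18)], [(v 19), (m (v 32) (v 64))]⟩,
  ⟨941, 0, [(v 16), (v 32), (v 17), (v 18)], [(m (v 19) (v 32)), (v 64)]⟩,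
  ⟨234, 0, [(v 16), (v 32), (v 17), (m (v 18) (v 64))], [(v 32), (v 19)]⟩,
  ⟨156, 0, [(v 16), (v 32), (v 17), (m (v 18) (v 19))], [(v 32), (v 64)]⟩,
  ⟨126, 0, [(v 16), (v 32), (m (v 17) (v 64)), (v 18)], [(v 32), (v 19)]⟩,
  ⟨-508, 0, [(v 16), (v 32), (m (v 17) (v 32)), (v 18)], [(v 19), (v 64)]⟩,
  ⟨288, 0, [(v 16), (v 32), (m (v 17) (v 18)), (v 32)], [(v 64), (v 19)]⟩,
  ⟨-806, 0, [(v 16), (v 32), (m (v 17) (v 18)), (v 32)], [(v 19), (v 64)]⟩,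
  ⟨381, 0, [(v 16), (v 32), (m (v 17) (v 18)), (v 19)], [(v 32), (v 64)]⟩,
  ⟨496, 0, [(v 16), (m (v 32) (v 64)), (v 32), (v 17)], [(v 18), (v 19)]⟩,
  ⟨121, 0, [(v 16), (v 17), (v 18), (m (v 19) (v 32))], [(v 32), (v 64)]⟩,
  ⟨-238, 0, [(v 16), (m (v 17) (v 64)), (v 32), (v 32)], [(v 18), (v 19)]⟩,
  ⟨7, 0, [(v 16), (m (v 17) (v 18)), (v 64), (v 32)], [(v 32), (v 19)]⟩,
  ⟨-209, 0, [(v 16), (v 64), (v 32), (v 17)], [(v 32), (v 18), (v 19)]⟩,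
  ⟨216, 0, [(v 16), (v 64), (v 32), (v 17)], [(v 18), (v 32), (v 19)]⟩,
  ⟨-79, 0, [(v 16), (v 64), (v 17), (v 32)], [(v 32), (v 18), (v 19)]⟩,
  ⟨-122, 0, [(v 16), (v 32), (v 64), (v 32)], [(v 17), (v 18), (v 19)]⟩,
  ⟨-61, 0, [(v 16), (v 32), (v 64), (v 17)], [(v 32), (v 18), (v 19)]⟩,
  ⟨-252, 0, [(v 16), (v 32), (v 64), (v 17)], [(v 18), (v 32), (v 19)]⟩,
  ⟨616, 0, [(v 16), (v 32), (v 32), (v 64)], [(v 17), (v 18), (v 19)]⟩,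
  ⟨252, 0, [(v 16), (v 32), (v 32), (v 17)], [(v 64), (v 18), (v 19)]⟩,
  ⟨-40, 0, [(v 16), (v 32), (v 32), (v 17)], [(v 18), (v 19), (v 64)]⟩,
  ⟨-18, 0, [(v 16), (v 32), (v 17), (v 18)], [(v 32), (v 64), (v 19)]⟩,
  ⟨916, 0, [(v 16), (v 32), (v 17), (v 18)], [(v 32), (v 19), (v 64)]⟩,
  ⟨-534, 0, [(v 16), (v 32), (v 17), (v 18)], [(v 19), (v 32), (v 64)]⟩]

/-- identity -/
def I1q : P := [
  (1, (w (v 32) (v 16) (v 17) (v 18) (v 19) (m (v 32) (v 64)))),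
  (-1, (m (v 64) (w (v 32) (v 16) (v 17) (v 18) (v 19) (v 32))))]

theorem I1k : zeroChk [16, 17, 18, 19] (smulP 369 (expP I1q) ++ instAll [sagle] I1c) = true := by
  decide +kernel

theorem I1s : symChk [16, 17, 18, 19] I1q = true := by decide +kernel

theorem I1_ev (hM : IsMalcev A) [IsAddTorsionFree A] (b : ℕ → A) : evQ real b I1q = 0 :=
  cert_exp (anti hM) [sagle] (sagle_mem hM triv) _ I1q _ (by norm_num) I1c I1k real (real_good hM)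
    (fun _ => rfl) I1s b

end Pool.Agent.Hhelper8.Chk
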