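import Mathlib
import Pool.Agent.Hhelper8.Free
import Pool.Agent.Hhelper8.Cert.Checker
import Pool.Agent.Hhelper8.Cert.Sound
import Pool.Agent.Hhelper8.Cert.Basic
import Pool.Agent.Hhelper8.Cert.Additive
import Pool.Agent.Hhelper8.Cert.Deg6

/-!
Identity c12.
-/

namespace Pool.Agent.Hhelper8.Chk

open Pool.Agent.Hhelper8 T

variable {A : Type*} [NonUnitalNonAssocRing A]

/-- certificate -/
def c12c : List I := [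
  ⟨-856, 0, [(v 64), (m (v 16) (v 32)), (m (v 17) (v 18)), (m (v 19) (v 20))], []⟩,
  ⟨164, 0, [(v 64), (m (v 16) (v 17)), (m (v 18) (v 32)), (m (v 19) (v 20))], []⟩,
  ⟨356, 0, [(v 32), (m (v 16) (v 17)), (m (v 18) (v 19)), (m (v 20) (v 64))], []⟩,
  ⟨528, 0, [(v 16), (v 64), (v 32), (m (v 17) (m (v 18) (m (v 19) (v 20))))], []⟩,
  ⟨212, 0, [(v 16), (v 64), (v 17), (m (v 18) (m (v 32) (m (v 19) (v 20))))], []⟩,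
  ⟨692, 0, [(v 16), (v 64), (m (v 32) (m (v 17) (v 18))), (m (v 19) (v 20))], []⟩,
  ⟨-500, 0, [(v 16), (v 64), (m (v 17) (m (v 18) (v 32))), (m (v 19) (v 20))], []⟩,
  ⟨-164, 0, [(v 16), (v 64), (m (v 32) (m (v 17) (m (v 18) (v 19)))), (v 20)], []⟩,
  ⟨212, 0, [(v 16), (v 64), (m (v 17) (m (v 32) (m (v 18) (v 19)))), (v 20)], []⟩,
  ⟨-116, 0, [(v 16), (v 32), (v 64), (m (v 17) (m (v 18) (m (v 19) (v 20))))], []⟩,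
  ⟨-164, 0, [(v 16), (v 32), (v 17), (m (v 64) (m (v 18) (m (v 19) (v 20))))], []⟩,
  ⟨356, 0, [(v 16), (v 32), (m (v 17) (v 18)), (m (v 19) (m (v 20) (v 64)))], []⟩,
  ⟨356, 0, [(v 16), (v 32), (m (v 17) (m (v 18) (v 64))), (m (v 19) (v 20))], []⟩,
  ⟨164, 0, [(v 16), (v 32), (m (v 64) (m (v 17) (m (v 18) (v 19)))), (v 20)], []⟩,
  ⟨-116, 0, [(v 16), (v 32), (m (v 17) (m (v 18) (m (v 19) (v 20)))), (v 64)], []⟩,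
  ⟨694, 0, [(v 16), (m (v 32) (v 64)), (m (v 17) (v 18)), (m (v 19) (v 20))], []⟩,
  ⟨116, 0, [(v 16), (m (v 32) (v 64)), (m (v 17) (m (v 18) (v 19))), (v 20)], []⟩,
  ⟨500, 0, [(v 16), (v 17), (v 18), (m (v 64) (m (v 32) (m (v 19) (v 20))))], []⟩,
  ⟨-500, 0, [(v 16), (v 17), (v 18), (m (v 32) (m (v 64) (m (v 19) (v 20))))], []⟩,
  ⟨488, 0, [(v 16), (v 17), (v 18), (m (v 19) (m (v 20) (m (v 32) (v 64))))], []⟩,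
  ⟨-506, 0, [(v 16), (v 17), (v 18), (m (m (v 19) (v 20)) (m (v 32) (v 64)))], []⟩,
  ⟨144, 0, [(v 16), (v 17), (m (v 18) (v 32)), (m (v 64) (m (v 19) (v 20)))], []⟩,
  ⟨-212, 0, [(v 16), (v 17), (m (v 64) (m (v 18) (v 32))), (m (v 19) (v 20))], []⟩,
  ⟨394, 0, [(v 16), (v 17), (m (v 32) (m (v 18) (v 64))), (m (v 19) (v 20))], []⟩,
  ⟨-236, 0, [(v 16), (v 17), (m (v 18) (m (v 32) (v 64))), (m (v 19) (v 20))], []⟩,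
  ⟨38, 0, [(v 16), (v 17), (m (v 18) (v 19)), (m (v 32) (m (v 20) (v 64)))], []⟩,
  ⟨312, 0, [(v 16), (v 17), (m (v 18) (v 19)), (m (v 20) (m (v 32) (v 64)))], []⟩,
  ⟨-356, 0, [(v 16), (v 17), (m (v 32) (m (v 18) (v 19))), (m (v 20) (v 64))], []⟩,
  ⟨-384, 0, [(v 16), (v 17), (m (v 32) (m (v 18) (m (v 19) (v 20)))), (v 64)], []⟩,
  ⟨356, 0, [(v 16), (v 17), (m (m (v 18) (v 19)) (m (v 20) (v 32))), (v 64)], []⟩,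
  ⟨116, 0, [(v 16), (m (v 17) (v 64)), (v 32), (m (v 18) (m (v 19) (v 20)))], []⟩,
  ⟨220, 0, [(v 16), (m (v 17) (v 32)), (v 64), (m (v 18) (m (v 19) (v 20)))], []⟩,
  ⟨164, 0, [(v 16), (m (v 17) (v 32)), (m (v 18) (m (v 19) (v 20))), (v 64)], []⟩,
  ⟨68, 0, [(v 16), (m (v 64) (m (v 17) (v 32))), (v 18), (m (v 19) (v 20))], []⟩,
  ⟨-250, 0, [(v 16), (m (v 32) (m (v 17) (v 64))), (v 18), (m (v 19) (v 20))], []⟩,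
  ⟨176, 0, [(v 16), (m (v 17) (m (v 32) (v 64))), (v 18), (m (v 19) (v 20))], []⟩,
  ⟨856, 0, [(v 16), (m (v 17) (v 18)), (v 64), (m (v 32) (m (v 19) (v 20)))], []⟩,
  ⟨-164, 0, [(v 16), (m (v 17) (v 18)), (v 32), (m (v 64) (m (v 19) (v 20)))], []⟩,
  ⟨-144, 0, [(v 16), (m (v 17) (v 18)), (v 32), (m (v 19) (m (v 20) (v 64)))], []⟩,
  ⟨-356, 0, [(v 16), (m (v 17) (v 18)), (m (v 32) (m (v 19) (v 20))), (v 64)], []⟩,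
  ⟨-164, 0, [(v 16), (m (v 64) (m (v 17) (v 18))), (m (v 19) (v 20)), (v 32)], []⟩,
  ⟨-144, 0, [(v 16), (m (v 17) (m (v 18) (v 64))), (m (v 19) (v 20)), (v 32)], []⟩,
  ⟨-144, 0, [(v 16), (m (v 17) (m (v 18) (v 32))), (v 64), (m (v 19) (v 20))], []⟩,
  ⟨164, 0, [(v 16), (m (v 17) (m (v 18) (v 19))), (v 64), (m (v 20) (v 32))], []⟩,
  ⟨-116, 0, [(v 16), (m (v 17) (m (v 18) (v 19))), (m (v 20) (v 64)), (v 32)], []⟩,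
  ⟨336, 0, [(v 16), (m (v 17) (m (v 18) (v 19))), (m (v 20) (v 32)), (v 64)], []⟩,
  ⟨528, 0, [(v 16), (m (v 17) (m (v 18) (m (v 19) (v 20)))), (v 64), (v 32)], []⟩,
  ⟨164, 0, [(v 32), (v 64), (m (v 16) (v 17)), (m (v 18) (v 19))], [(v 20)]⟩,
  ⟨-856, 0, [(v 32), (m (v 16) (v 17)), (m (v 18) (v 19)), (v 64)], [(v 20)]⟩,
  ⟨164, 0, [(v 16), (v 64), (v 32), (v 17)], [(m (v 18) (m (v 19) (v 20)))]⟩,
  ⟨-856, 0, [(v 16), (v 64), (v 32), (m (v 17) (v 18))], [(m (v 19) (v 20))]⟩,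
  ⟨164, 0, [(v 16), (v 64), (v 32), (m (v 17) (m (v 18) (v 19)))], [(v 20)]⟩,
  ⟨384, 0, [(v 16), (v 64), (v 17), (v 32)], [(m (v 18) (m (v 19) (v 20)))]⟩,
  ⟨356, 0, [(v 16), (v 64), (v 17), (m (v 18) (v 32))], [(m (v 19) (v 20))]⟩,
  ⟨-182, 0, [(v 16), (v 64), (v 17), (m (v 18) (v 19))], [(m (v 20) (v 32))]⟩,
  ⟨144, 0, [(v 16), (v 64), (v 17), (m (v 32) (m (v 18) (v 19)))], [(v 20)]⟩,
  ⟨356, 0, [(v 16), (v 64), (m (v 17) (v 18)), (v 32)], [(m (v 19) (v 20))]⟩,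
  ⟨182, 0, [(v 16), (v 64), (m (v 17) (v 18)), (v 19)], [(m (v 20) (v 32))]⟩,
  ⟨336, 0, [(v 16), (v 64), (m (v 17) (m (v 18) (v 19))), (v 32)], [(v 20)]⟩,
  ⟨-164, 0, [(v 16), (v 32), (v 64), (m (v 17) (m (v 18) (v 19)))], [(v 20)]⟩,
  ⟨500, 0, [(v 16), (v 32), (v 17), (v 18)], [(m (v 64) (m (v 19) (v 20)))]⟩,
  ⟨-356, 0, [(v 16), (v 32), (v 17), (m (v 18) (v 64))], [(m (v 19) (v 20))]⟩,
  ⟨394, 0, [(v 16), (v 32), (v 17), (m (v 18) (v 19))], [(m (v 20) (v 64))]⟩,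
  ⟨-144, 0, [(v 16), (v 32), (v 17), (m (v 64) (m (v 18) (v 19)))], [(v 20)]⟩,
  ⟨116, 0, [(v 16), (v 32), (v 17), (m (v 18) (m (v 19) (v 20)))], [(v 64)]⟩,
  ⟨-250, 0, [(v 16), (v 32), (m (v 17) (v 18)), (v 19)], [(m (v 20) (v 64))]⟩,
  ⟨-694, 0, [(v 16), (v 32), (m (v 17) (v 18)), (m (v 19) (v 20))], [(v 64)]⟩,
  ⟨-220, 0, [(v 16), (v 32), (m (v 17) (m (v 18) (v 19))), (v 64)], [(v 20)]⟩,
  ⟨-538, 0, [(v 16), (m (v 32) (v 64)), (v 17), (v 18)], [(m (v 19) (v 20))]⟩,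
  ⟨524, 0, [(v 16), (m (v 32) (v 64)), (v 17), (m (v 18) (v 19))], [(v 20)]⟩,
  ⟨-676, 0, [(v 16), (m (v 32) (v 64)), (m (v 17) (v 18)), (v 19)], [(v 20)]⟩,
  ⟨212, 0, [(v 16), (v 17), (v 18), (m (v 19) (v 32))], [(m (v 20) (v 64))]⟩,
  ⟨212, 0, [(v 16), (v 17), (v 18), (m (v 64) (m (v 19) (v 32)))], [(v 20)]⟩,
  ⟨-212, 0, [(v 16), (v 17), (v 18), (m (v 32) (m (v 19) (v 64)))], [(v 20)]⟩,
  ⟨138, 0, [(v 16), (v 17), (v 18), (m (v 32) (m (v 19) (v 20)))], [(v 64)]⟩,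
  ⟨-488, 0, [(v 16), (v 17), (v 18), (m (v 19) (m (v 20) (v 32)))], [(v 64)]⟩,
  ⟨-144, 0, [(v 16), (v 17), (m (v 18) (v 32)), (v 64)], [(m (v 19) (v 20))]⟩,
  ⟨524, 0, [(v 16), (v 17), (m (v 18) (v 32)), (m (v 19) (v 20))], [(v 64)]⟩,
  ⟨-38, 0, [(v 16), (v 17), (m (v 18) (v 19)), (v 64)], [(m (v 20) (v 32))]⟩,
  ⟨38, 0, [(v 16), (v 17), (m (v 18) (v 19)), (v 32)], [(m (v 20) (v 64))]⟩,
  ⟨-424, 0, [(v 16), (v 17), (m (v 18) (v 19)), (m (v 32) (v 64))], [(v 20)]⟩,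
  ⟨-736, 0, [(v 16), (v 17), (m (v 18) (v 19)), (m (v 20) (v 32))], [(v 64)]⟩,
  ⟨-356, 0, [(v 16), (v 17), (m (v 32) (m (v 18) (v 19))), (v 64)], [(v 20)]⟩,
  ⟨-676, 0, [(v 16), (m (v 17) (v 32)), (v 18), (m (v 19) (v 20))], [(v 64)]⟩,
  ⟨-692, 0, [(v 16), (m (v 17) (v 18)), (v 64), (v 32)], [(m (v 19) (v 20))]⟩,
  ⟨-212, 0, [(v 16), (v 64), (v 32), (v 17)], [(v 18), (m (v 19) (v 20))]⟩,
  ⟨356, 0, [(v 16), (v 64), (v 17), (v 32)], [(m (v 18) (v 19)), (v 20)]⟩,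
  ⟨182, 0, [(v 16), (v 64), (v 17), (m (v 18) (v 19))], [(v 32), (v 20)]⟩,
  ⟨-182, 0, [(v 16), (v 64), (m (v 17) (v 18)), (v 19)], [(v 32), (v 20)]⟩,
  ⟨212, 0, [(v 16), (v 32), (v 64), (v 17)], [(v 18), (m (v 19) (v 20))]⟩,
  ⟨-500, 0, [(v 16), (v 32), (v 17), (v 18)], [(v 64), (m (v 19) (v 20))]⟩,
  ⟨894, 0, [(v 16), (v 32), (v 17), (v 18)], [(m (v 19) (v 20)), (v 64)]⟩,
  ⟨212, 0, [(v 16), (v 32), (v 17), (m (v 18) (v 19))], [(v 64), (v 20)]⟩,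
  ⟨-236, 0, [(v 16), (v 32), (v 17), (m (v 18) (v 19))], [(v 20), (v 64)]⟩,
  ⟨-144, 0, [(v 16), (v 32), (m (v 17) (v 18)), (v 64)], [(v 19), (v 20)]⟩,
  ⟨-68, 0, [(v 16), (v 32), (m (v 17) (v 18)), (v 19)], [(v 64), (v 20)]⟩,
  ⟨176, 0, [(v 16), (v 32), (m (v 17) (v 18)), (v 19)], [(v 20), (v 64)]⟩,
  ⟨212, 0, [(v 16), (v 17), (v 18), (m (v 19) (v 32))], [(v 64), (v 20)]⟩,
  ⟨38, 0, [(v 16), (v 17), (m (v 18) (v 19)), (v 64)], [(v 32), (v 20)]⟩,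
  ⟨-500, 0, [(v 16), (m (v 17) (v 18)), (v 64), (v 32)], [(v 19), (v 20)]⟩]

/-- identity -/
def c12q : P := [
  (1, (w (v 32) (v 16) (v 17) (v 18) (v 64) (m (v 19) (v 20)))),
  (-4, (w (m (v 32) (v 64)) (v 16) (v 17) (v 18) (v 19) (v 20))),
  (-4, (m (v 64) (w (v 32) (v 16) (v 17) (v 18) (v 19) (v 20)))),
  (-1, (w (v 32) (v 16) (v 17) (v 19) (v 64) (m (v 18) (v 20)))),
  (1, (w (v 32) (v 16) (v 17) (v 20) (v 64) (m (v 18) (v 19)))),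
  (1, (w (v 32) (v 16) (v 18) (v 19) (v 64) (m (v 17) (v 20)))),
  (-1, (w (v 32) (v 16) (v 18) (v 20) (v 64) (m (v 17) (v 19)))),
  (1, (w (v 32) (v 16) (v 19) (v 20) (v 64) (m (v 17) (v 18)))),
  (-1, (w (v 32) (v 17) (v 18) (v 19) (v 64) (m (v 16) (v 20)))),
  (1, (w (v 32) (v 17) (v 18) (v 20) (v 64) (m (v 16) (v 19)))),
  (-1, (w (v 32) (v 17) (v 19) (v 20) (v 64) (m (v 16) (v 18)))),
  (1, (w (v 32) (v 18) (v 19) (v 20) (v 64) (m (v 16) (v 17))))]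

theorem c12k : zeroChk [16, 17, 18, 19, 20] (smulP 25 (expP c12q) ++ instAll [sagle] c12c) = true := by
  decide +kernel

theorem c12s : symChk [16, 17, 18, 19, 20] c12q = true := by decide +kernel

theorem c12_ev (hM : IsMalcev A) [IsAddTorsionFree A] (b : ℕ → A) : evQ real b c12q = 0 :=
  cert_exp (anti hM) [sagle] (sagle_mem hM triv) _ c12q _ (by norm_num) c12c c12k real (real_good hM)
    (fun _ => rfl) c12s b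

end Pool.Agent.Hhelper8.Chk
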