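import Mathlib
import Pool.Agent.Hhelper8.Free
import Pool.Agent.Hhelper8.Cert.Checker
import Pool.Agent.Hhelper8.Cert.Sound
import Pool.Agent.Hhelper8.Cert.Basic
import Pool.Agent.Hhelper8.Cert.Additive
import Pool.Agent.Hhelper8.Cert.Deg6

/-!
Identity g1.
-/

namespace Pool.Agent.Hhelper8.Chk

open Pool.Agent.Hhelper8 T

variable {A : Type*} [NonUnitalNonAssocRing A]

/-- certificate -/
def g1c : List I := [
  ⟨8798823336, 0, [(v 48), (v 64), (v 49), (m (v 16) (m (v 17) (m (v 18) (v 19))))], []⟩,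
  ⟨8203001472, 0, [(v 48), (v 64), (m (v 16) (m (v 17) (m (v 18) (v 19)))), (v 49)], []⟩,
  ⟨2865826560, 0, [(v 48), (v 49), (m (v 16) (v 64)), (m (v 17) (m (v 18) (v 19)))], []⟩,
  ⟨-3989457768, 0, [(v 48), (v 49), (m (v 16) (v 17)), (m (v 18) (m (v 19) (v 64)))], []⟩,
  ⟨5934894864, 0, [(v 48), (v 49), (m (v 64) (m (v 16) (v 17))), (m (v 18) (v 19))], []⟩,
  ⟨2117953824, 0, [(v 48), (m (v 49) (v 64)), (m (v 16) (v 17)), (m (v 18) (v 19))], []⟩,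
  ⟨-75352860, 0, [(v 48), (m (v 16) (v 64)), (m (v 17) (v 49)), (m (v 18) (v 19))], []⟩,
  ⟨9922657800, 0, [(v 48), (m (v 16) (v 49)), (v 64), (m (v 17) (m (v 18) (v 19)))], []⟩,
  ⟨-10197963198, 0, [(v 48), (m (v 16) (v 49)), (m (v 17) (v 64)), (m (v 18) (v 19))], []⟩,
  ⟨14795785980, 0, [(v 48), (m (v 16) (v 49)), (m (v 17) (v 18)), (m (v 19) (v 64))], []⟩,
  ⟨-3119522220, 0, [(v 48), (m (v 16) (v 49)), (m (v 17) (m (v 18) (v 19))), (v 64)], []⟩,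
  ⟨6499150200, 0, [(v 48), (m (v 16) (v 17)), (v 49), (m (v 64) (m (v 18) (v 19)))], []⟩,
  ⟨1930626816, 0, [(v 48), (m (v 16) (v 17)), (v 49), (m (v 18) (m (v 19) (v 64)))], []⟩,
  ⟨-6775949148, 0, [(v 48), (m (v 16) (v 17)), (m (v 49) (v 64)), (m (v 18) (v 19))], []⟩,
  ⟨14969278566, 0, [(v 48), (m (v 16) (v 17)), (m (v 18) (v 64)), (m (v 19) (v 49))], []⟩,
  ⟨-24829808010, 0, [(v 48), (m (v 16) (v 17)), (m (v 18) (v 49)), (m (v 19) (v 64))], []⟩,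
  ⟨-9326835936, 0, [(v 48), (m (v 16) (m (v 17) (v 18))), (m (v 19) (v 49)), (v 64)], []⟩,
  ⟨-8495441160, 0, [(v 16), (v 64), (v 48), (m (v 49) (m (v 17) (m (v 18) (v 19))))], []⟩,
  ⟨-7013048304, 0, [(v 16), (v 64), (v 48), (m (v 17) (m (v 18) (m (v 19) (v 49))))], []⟩,
  ⟨310533672, 0, [(v 16), (v 64), (m (v 48) (v 49)), (m (v 17) (m (v 18) (v 19)))], []⟩,
  ⟨1728085170, 0, [(v 16), (v 64), (v 17), (m (m (v 18) (v 19)) (m (v 48) (v 49)))], []⟩,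
  ⟨-2197621440, 0, [(v 16), (v 64), (m (v 17) (v 48)), (m (v 49) (m (v 18) (v 19)))], []⟩,
  ⟨-10934717424, 0, [(v 16), (v 64), (m (v 17) (v 48)), (m (v 18) (m (v 19) (v 49)))], []⟩,
  ⟨-711970632, 0, [(v 16), (v 64), (m (v 48) (m (v 17) (v 49))), (m (v 18) (v 19))], []⟩,
  ⟨-711970632, 0, [(v 16), (v 64), (m (v 17) (v 18)), (m (v 48) (m (v 19) (v 49)))], []⟩,
  ⟨8737095984, 0, [(v 16), (v 64), (m (v 17) (m (v 18) (v 48))), (m (v 19) (v 49))], []⟩,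
  ⟨2197621440, 0, [(v 16), (v 64), (m (v 17) (m (v 48) (m (v 18) (v 49)))), (v 19)], []⟩,
  ⟨1728085170, 0, [(v 16), (v 64), (m (m (v 17) (v 18)) (m (v 48) (v 49))), (v 19)], []⟩,
  ⟨906355536, 0, [(v 16), (v 64), (m (v 17) (m (v 18) (v 19))), (m (v 48) (v 49))], []⟩,
  ⟨8495441160, 0, [(v 16), (v 64), (m (v 48) (m (v 17) (m (v 18) (v 19)))), (v 49)], []⟩,
  ⟨9210669744, 0, [(v 16), (v 64), (m (v 17) (m (v 18) (m (v 19) (v 48)))), (v 49)], []⟩,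
  ⟨3921669120, 0, [(v 16), (v 48), (v 64), (m (v 17) (m (v 18) (m (v 19) (v 49))))], []⟩,
  ⟨-2790473700, 0, [(v 16), (v 48), (v 64), (m (m (v 17) (v 18)) (m (v 19) (v 49)))], []⟩,
  ⟨-1861210662, 0, [(v 16), (v 48), (v 49), (m (v 17) (m (v 64) (m (v 18) (v 19))))], []⟩,
  ⟨-5920870140, 0, [(v 16), (v 48), (v 49), (m (v 17) (m (v 18) (m (v 19) (v 64))))], []⟩,
  ⟨688867356, 0, [(v 16), (v 48), (v 49), (m (m (v 17) (v 18)) (m (v 19) (v 64)))], []⟩,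
  ⟨-4758626364, 0, [(v 16), (v 48), (m (v 49) (v 64)), (m (v 17) (m (v 18) (v 19)))], []⟩,
  ⟨2787464664, 0, [(v 16), (v 48), (v 17), (m (v 64) (m (v 18) (m (v 19) (v 49))))], []⟩,
  ⟨-5181676080, 0, [(v 16), (v 48), (v 17), (m (v 49) (m (v 64) (m (v 18) (v 19))))], []⟩,
  ⟨-8183681424, 0, [(v 16), (v 48), (v 17), (m (v 49) (m (v 18) (m (v 19) (v 64))))], []⟩,
  ⟨2260218588, 0, [(v 16), (v 48), (v 17), (m (v 18) (m (v 64) (m (v 19) (v 49))))], []⟩,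
  ⟨-1428903948, 0, [(v 16), (v 48), (v 17), (m (v 18) (m (v 19) (m (v 49) (v 64))))], []⟩,
  ⟨-4715913684, 0, [(v 16), (v 48), (v 17), (m (m (v 18) (v 19)) (m (v 49) (v 64)))], []⟩,
  ⟨-3415571076, 0, [(v 16), (v 48), (m (v 17) (v 49)), (m (v 64) (m (v 18) (v 19)))], []⟩,
  ⟨6326126712, 0, [(v 16), (v 48), (m (v 64) (m (v 17) (v 49))), (m (v 18) (v 19))], []⟩,
  ⟨-4342433496, 0, [(v 16), (v 48), (m (v 49) (m (v 17) (v 64))), (m (v 18) (v 19))], []⟩,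
  ⟨2209553472, 0, [(v 16), (v 48), (m (v 17) (v 18)), (m (v 49) (m (v 19) (v 64)))], []⟩,
  ⟨-1361037156, 0, [(v 16), (v 48), (m (v 17) (v 18)), (m (v 19) (m (v 49) (v 64)))], []⟩,
  ⟨2891915004, 0, [(v 16), (v 48), (m (v 64) (m (v 17) (v 18))), (m (v 19) (v 49))], []⟩,
  ⟨-6340900080, 0, [(v 16), (v 48), (m (v 17) (m (v 18) (v 64))), (m (v 19) (v 49))], []⟩,
  ⟨1460996160, 0, [(v 16), (v 48), (m (v 17) (m (v 18) (v 49))), (m (v 19) (v 64))], []⟩,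
  ⟨13050079404, 0, [(v 16), (v 48), (m (v 64) (m (v 49) (m (v 17) (v 18)))), (v 19)], []⟩,
  ⟨397579176, 0, [(v 16), (v 48), (m (v 64) (m (v 17) (m (v 18) (v 49)))), (v 19)], []⟩,
  ⟨-8658225036, 0, [(v 16), (v 48), (m (v 49) (m (v 64) (m (v 17) (v 18)))), (v 19)], []⟩,
  ⟨-5972082084, 0, [(v 16), (v 48), (m (v 17) (m (v 64) (m (v 18) (v 49)))), (v 19)], []⟩,
  ⟨1322132052, 0, [(v 16), (v 48), (m (v 17) (m (v 18) (m (v 49) (v 64)))), (v 19)], []⟩,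
  ⟨6529969584, 0, [(v 16), (v 48), (m (v 17) (m (v 18) (v 19))), (m (v 49) (v 64))], []⟩,
  ⟨419384958, 0, [(v 16), (v 48), (m (v 64) (m (v 17) (m (v 18) (v 19)))), (v 49)], []⟩,
  ⟨-11407614432, 0, [(v 16), (v 48), (m (v 17) (m (v 64) (m (v 18) (v 19)))), (v 49)], []⟩,
  ⟨738677802, 0, [(v 16), (v 48), (m (m (v 17) (v 18)) (m (v 19) (v 64))), (v 49)], []⟩,
  ⟨-2530540344, 0, [(v 16), (v 48), (m (v 17) (m (v 49) (m (v 18) (v 19)))), (v 64)], []⟩,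
  ⟨-7659243204, 0, [(v 16), (m (v 48) (v 64)), (v 49), (m (v 17) (m (v 18) (v 19)))], []⟩,
  ⟨-1526995020, 0, [(v 16), (m (v 48) (v 64)), (v 17), (m (v 49) (m (v 18) (v 19)))], []⟩,
  ⟨-3722459316, 0, [(v 16), (m (v 48) (v 64)), (m (v 49) (m (v 17) (v 18))), (v 19)], []⟩,
  ⟨9210669744, 0, [(v 16), (m (v 48) (v 64)), (m (v 17) (m (v 18) (v 49))), (v 19)], []⟩,
  ⟨3261892152, 0, [(v 16), (m (v 48) (v 49)), (v 17), (m (v 18) (m (v 19) (v 64)))], []⟩,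
  ⟨-8906628, 0, [(v 16), (m (v 48) (v 49)), (m (v 17) (v 18)), (m (v 19) (v 64))], []⟩,
  ⟨-8418934128, 0, [(v 16), (m (v 48) (v 49)), (m (v 17) (m (v 18) (v 64))), (v 19)], []⟩,
  ⟨-2425296162, 0, [(v 16), (m (v 48) (v 49)), (m (v 17) (m (v 18) (v 19))), (v 64)], []⟩,
  ⟨-12637560786, 0, [(v 16), (m (v 64) (m (v 48) (v 49))), (v 17), (m (v 18) (v 19))], []⟩,
  ⟨-1102907616, 0, [(v 16), (m (v 64) (m (v 48) (v 49))), (m (v 17) (v 18)), (v 19)], []⟩,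
  ⟨-15328792920, 0, [(v 16), (m (v 48) (m (v 49) (v 64))), (v 17), (m (v 18) (v 19))], []⟩,
  ⟨-32572339728, 0, [(v 16), (v 17), (v 18), (m (v 64) (m (v 48) (m (v 19) (v 49))))], []⟩,
  ⟨21914017752, 0, [(v 16), (v 17), (v 18), (m (v 48) (m (v 64) (m (v 19) (v 49))))], []⟩,
  ⟨-12984024216, 0, [(v 16), (v 17), (v 18), (m (v 48) (m (v 49) (m (v 19) (v 64))))], []⟩,
  ⟨231763536, 0, [(v 16), (v 17), (v 18), (m (v 48) (m (v 19) (m (v 49) (v 64))))], []⟩,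
  ⟨5152768152, 0, [(v 16), (v 17), (v 18), (m (v 19) (m (v 64) (m (v 48) (v 49))))], []⟩,
  ⟨1524237288, 0, [(v 16), (v 17), (v 18), (m (v 19) (m (v 48) (m (v 49) (v 64))))], []⟩,
  ⟨-12925738908, 0, [(v 16), (v 17), (v 18), (m (m (v 19) (v 64)) (m (v 48) (v 49)))], []⟩,
  ⟨-20449101180, 0, [(v 16), (v 17), (v 18), (m (m (v 19) (v 48)) (m (v 49) (v 64)))], []⟩,
  ⟨4660863606, 0, [(v 16), (v 17), (m (v 18) (v 64)), (m (v 48) (m (v 19) (v 49)))], []⟩,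
  ⟨1545463608, 0, [(v 16), (v 17), (m (v 18) (v 48)), (m (v 64) (m (v 19) (v 49)))], []⟩,
  ⟨-31221552, 0, [(v 16), (v 17), (m (v 18) (v 48)), (m (v 49) (m (v 19) (v 64)))], []⟩,
  ⟨10747216248, 0, [(v 16), (v 17), (m (v 18) (v 48)), (m (v 19) (m (v 49) (v 64)))], []⟩,
  ⟨-5552052144, 0, [(v 16), (v 17), (m (v 48) (m (v 18) (v 64))), (m (v 19) (v 49))], []⟩,
  ⟨8236749786, 0, [(v 16), (v 17), (m (v 48) (m (v 18) (v 49))), (m (v 19) (v 64))], []⟩,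
  ⟨5425150512, 0, [(v 16), (v 17), (m (v 18) (v 19)), (m (v 64) (m (v 48) (v 49)))], []⟩,
  ⟨2910923352, 0, [(v 16), (v 17), (m (v 18) (v 19)), (m (v 48) (m (v 49) (v 64)))], []⟩,
  ⟨9666614364, 0, [(v 16), (v 17), (m (v 64) (m (v 18) (v 19))), (m (v 48) (v 49))], []⟩,
  ⟨-3079007928, 0, [(v 16), (v 17), (m (v 18) (m (v 19) (v 64))), (m (v 48) (v 49))], []⟩,
  ⟨6608908512, 0, [(v 16), (v 17), (m (v 48) (m (v 18) (v 19))), (m (v 49) (v 64))], []⟩,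
  ⟨786172440, 0, [(v 16), (v 17), (m (v 64) (m (v 48) (m (v 18) (v 19)))), (v 49)], []⟩,
  ⟨9599904552, 0, [(v 16), (v 17), (m (v 64) (m (v 18) (m (v 19) (v 48)))), (v 49)], []⟩,
  ⟨-1934587572, 0, [(v 16), (v 17), (m (v 48) (m (v 64) (m (v 18) (v 19)))), (v 49)], []⟩,
  ⟨7329643644, 0, [(v 16), (v 17), (m (m (v 18) (v 48)) (m (v 19) (v 64))), (v 49)], []⟩,
  ⟨-2302332852, 0, [(v 16), (v 17), (m (m (v 18) (v 19)) (m (v 48) (v 64))), (v 49)], []⟩,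
  ⟨-3220208496, 0, [(v 16), (m (v 17) (v 64)), (v 48), (m (v 49) (m (v 18) (v 19)))], []⟩,
  ⟨1492217712, 0, [(v 16), (m (v 17) (v 64)), (v 48), (m (v 18) (m (v 19) (v 49)))], []⟩,
  ⟨-2918984568, 0, [(v 16), (m (v 17) (v 64)), (m (v 48) (v 49)), (m (v 18) (v 19))], []⟩,
  ⟨-3821367354, 0, [(v 16), (m (v 17) (v 64)), (v 18), (m (v 48) (m (v 19) (v 49)))], []⟩,
  ⟨-6086035056, 0, [(v 16), (m (v 17) (v 64)), (v 18), (m (v 19) (m (v 48) (v 49)))], []⟩,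
  ⟨1106009274, 0, [(v 16), (m (v 17) (v 64)), (m (v 18) (v 19)), (m (v 48) (v 49))], []⟩,
  ⟨-2530540344, 0, [(v 16), (m (v 17) (v 48)), (v 64), (m (v 49) (m (v 18) (v 19)))], []⟩,
  ⟨1460996160, 0, [(v 16), (m (v 17) (v 48)), (v 64), (m (v 18) (m (v 19) (v 49)))], []⟩,
  ⟨-17336163288, 0, [(v 16), (m (v 17) (v 48)), (m (v 49) (v 64)), (m (v 18) (v 19))], []⟩,
  ⟨4395242880, 0, [(v 16), (m (v 17) (v 48)), (v 18), (m (v 64) (m (v 19) (v 49)))], []⟩,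
  ⟨-5289000624, 0, [(v 16), (m (v 17) (v 48)), (v 18), (m (v 19) (m (v 49) (v 64)))], []⟩,
  ⟨6222815220, 0, [(v 16), (m (v 17) (v 48)), (m (v 18) (v 19)), (m (v 49) (v 64))], []⟩,
  ⟨-10883505480, 0, [(v 16), (m (v 17) (v 48)), (m (v 18) (m (v 19) (v 64))), (v 49)], []⟩,
  ⟨4825204644, 0, [(v 16), (m (v 17) (v 48)), (m (v 49) (m (v 18) (v 19))), (v 64)], []⟩,
  ⟨3580194552, 0, [(v 16), (m (v 64) (m (v 17) (v 48))), (v 49), (m (v 18) (v 19))], []⟩,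
  ⟨21528314760, 0, [(v 16), (m (v 48) (m (v 17) (v 49))), (v 64), (m (v 18) (v 19))], []⟩,
  ⟨7805573538, 0, [(v 16), (m (v 17) (m (v 48) (v 49))), (v 64), (m (v 18) (v 19))], []⟩,
  ⟨19186100184, 0, [(v 16), (m (v 17) (v 18)), (v 48), (m (v 64) (m (v 19) (v 49)))], []⟩,
  ⟨-12502588440, 0, [(v 16), (m (v 17) (v 18)), (v 48), (m (v 49) (m (v 19) (v 64)))], []⟩,
  ⟨4174688424, 0, [(v 16), (m (v 17) (v 18)), (v 48), (m (v 19) (m (v 49) (v 64)))], []⟩,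
  ⟨-5553657900, 0, [(v 16), (m (v 17) (v 18)), (m (v 48) (v 64)), (m (v 19) (v 49))], []⟩,
  ⟨-10680306726, 0, [(v 16), (m (v 17) (v 18)), (m (v 19) (v 64)), (m (v 48) (v 49))], []⟩,
  ⟨-18511800756, 0, [(v 16), (m (v 17) (v 18)), (m (v 19) (v 48)), (m (v 49) (v 64))], []⟩,
  ⟨-10685592288, 0, [(v 16), (m (v 17) (v 18)), (m (v 19) (m (v 48) (v 64))), (v 49)], []⟩,
  ⟨24052015116, 0, [(v 16), (m (v 17) (v 18)), (m (v 48) (m (v 19) (v 49))), (v 64)], []⟩,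
  ⟨10230869700, 0, [(v 16), (m (v 17) (v 18)), (m (v 19) (m (v 48) (v 49))), (v 64)], []⟩,
  ⟨7392824004, 0, [(v 16), (m (v 64) (m (v 17) (v 18))), (v 48), (m (v 19) (v 49))], []⟩,
  ⟨11153114628, 0, [(v 16), (m (v 64) (m (v 17) (v 18))), (m (v 19) (v 48)), (v 49)], []⟩,
  ⟨-2765013900, 0, [(v 16), (m (v 17) (m (v 18) (v 64))), (m (v 19) (v 48)), (v 49)], []⟩,
  ⟨-4825204644, 0, [(v 16), (m (v 48) (m (v 17) (v 18))), (v 64), (m (v 19) (v 49))], []⟩,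
  ⟨4410273264, 0, [(v 16), (m (v 48) (m (v 17) (v 18))), (m (v 19) (v 64)), (v 49)], []⟩,
  ⟨3921669120, 0, [(v 16), (m (v 17) (m (v 18) (v 48))), (v 49), (m (v 19) (v 64))], []⟩,
  ⟨-1460996160, 0, [(v 16), (m (v 17) (m (v 18) (v 48))), (m (v 19) (v 49)), (v 64)], []⟩,
  ⟨2273101104, 0, [(v 16), (m (v 17) (m (v 18) (v 19))), (v 48), (m (v 49) (v 64))], []⟩,
  ⟨4066209000, 0, [(v 16), (m (v 17) (m (v 18) (v 19))), (m (v 48) (v 64)), (v 49)], []⟩,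
  ⟨-6199998330, 0, [(v 16), (m (v 64) (m (v 17) (m (v 18) (v 19)))), (v 48), (v 49)], []⟩,
  ⟨-10934717424, 0, [(v 16), (m (v 17) (m (v 18) (m (v 19) (v 64)))), (v 48), (v 49)], []⟩,
  ⟨-21939232086, 0, [(v 16), (m (m (v 17) (v 18)) (m (v 19) (v 64))), (v 48), (v 49)], []⟩,
  ⟨-595821864, 0, [(v 16), (m (v 48) (m (v 17) (m (v 18) (v 19)))), (v 49), (v 64)], []⟩,
  ⟨-3921669120, 0, [(v 16), (m (v 17) (m (v 18) (m (v 19) (v 48)))), (v 49), (v 64)], []⟩,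
  ⟨2790473700, 0, [(v 16), (m (m (v 17) (v 18)) (m (v 19) (v 48))), (v 49), (v 64)], []⟩,
  ⟨5934894864, 0, [(v 48), (v 64), (v 49), (m (v 16) (v 17))], [(m (v 18) (v 19))]⟩,
  ⟨5934894864, 0, [(v 48), (v 64), (m (v 16) (v 17)), (v 49)], [(m (v 18) (v 19))]⟩,
  ⟨5317781412, 0, [(v 48), (v 64), (m (v 16) (v 17)), (m (v 18) (v 19))], [(v 49)]⟩,
  ⟨4026058656, 0, [(v 48), (v 64), (m (v 16) (m (v 17) (v 18))), (v 49)], [(v 19)]⟩,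
  ⟨-94481724, 0, [(v 48), (v 49), (m (v 16) (v 17)), (v 64)], [(m (v 18) (v 19))]⟩,
  ⟨-22677909888, 0, [(v 48), (v 49), (m (v 16) (v 17)), (m (v 18) (v 64))], [(v 19)]⟩,
  ⟨-23941542432, 0, [(v 48), (m (v 16) (v 49)), (v 64), (m (v 17) (v 18))], [(v 19)]⟩,
  ⟨-11674310448, 0, [(v 48), (m (v 16) (v 49)), (m (v 17) (v 18)), (v 64)], [(v 19)]⟩,
  ⟨14065287900, 0, [(v 48), (m (v 16) (v 17)), (v 64), (m (v 18) (v 49))], [(v 19)]⟩,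
  ⟨-9080985816, 0, [(v 48), (m (v 16) (v 17)), (m (v 18) (v 49)), (v 64)], [(v 19)]⟩,
  ⟨-1181368788, 0, [(v 48), (m (v 16) (v 17)), (m (v 18) (v 19)), (v 64)], [(v 49)]⟩,
  ⟨10774470744, 0, [(v 16), (v 64), (v 48), (v 49)], [(m (v 17) (m (v 18) (v 19)))]⟩,
  ⟨-2912293620, 0, [(v 16), (v 64), (v 48), (v 17)], [(m (v 49) (m (v 18) (v 19)))]⟩,
  ⟨6461693040, 0, [(v 16), (v 64), (v 48), (v 17)], [(m (v 18) (m (v 19) (v 49)))]⟩,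
  ⟨12085584612, 0, [(v 16), (v 64), (v 48), (m (v 17) (v 49))], [(m (v 18) (v 19))]⟩,
  ⟨2175357384, 0, [(v 16), (v 64), (m (v 48) (v 49)), (m (v 17) (v 18))], [(v 19)]⟩,
  ⟨-8123297616, 0, [(v 16), (v 64), (v 17), (v 48)], [(m (v 18) (m (v 19) (v 49)))]⟩,
  ⟨7805573538, 0, [(v 16), (v 64), (v 17), (m (v 48) (v 49))], [(m (v 18) (v 19))]⟩,
  ⟨14327402298, 0, [(v 16), (v 64), (v 17), (v 18)], [(m (v 48) (m (v 19) (v 49)))]⟩,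
  ⟨5791361622, 0, [(v 16), (v 64), (v 17), (v 18)], [(m (v 19) (m (v 48) (v 49)))]⟩,
  ⟨3797675940, 0, [(v 16), (v 64), (v 17), (m (v 48) (m (v 18) (v 49)))], [(v 19)]⟩,
  ⟨3528203778, 0, [(v 16), (v 64), (v 17), (m (v 18) (v 19))], [(m (v 48) (v 49))]⟩,
  ⟨2512560372, 0, [(v 16), (v 64), (v 17), (m (v 48) (m (v 18) (v 19)))], [(v 49)]⟩,
  ⟨-6947482176, 0, [(v 16), (v 64), (v 17), (m (v 18) (m (v 19) (v 48)))], [(v 49)]⟩,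
  ⟨10154700780, 0, [(v 16), (v 64), (m (v 17) (v 48)), (v 49)], [(m (v 18) (v 19))]⟩,
  ⟨6377385372, 0, [(v 16), (v 64), (m (v 48) (m (v 17) (v 49))), (v 18)], [(v 19)]⟩,
  ⟨5087530656, 0, [(v 16), (v 64), (m (v 17) (m (v 48) (v 49))), (v 18)], [(v 19)]⟩,
  ⟨7022826084, 0, [(v 16), (v 64), (m (v 17) (v 18)), (v 48)], [(m (v 19) (v 49))]⟩,
  ⟨-7067940396, 0, [(v 16), (v 64), (m (v 17) (v 18)), (m (v 48) (v 49))], [(v 19)]⟩,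
  ⟨12637560786, 0, [(v 16), (v 64), (m (v 17) (v 18)), (v 19)], [(m (v 48) (v 49))]⟩,
  ⟨13804929252, 0, [(v 16), (v 64), (m (v 17) (v 18)), (m (v 19) (v 48))], [(v 49)]⟩,
  ⟨7178870832, 0, [(v 16), (v 64), (m (v 48) (m (v 17) (v 18))), (v 49)], [(v 19)]⟩,
  ⟨65566128, 0, [(v 16), (v 64), (m (v 17) (m (v 18) (v 48))), (v 19)], [(v 49)]⟩,
  ⟨336696348, 0, [(v 16), (v 64), (m (v 17) (m (v 18) (v 19))), (v 48)], [(v 49)]⟩,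
  ⟨1369253124, 0, [(v 16), (v 48), (v 64), (v 17)], [(m (v 49) (m (v 18) (v 19)))]⟩,
  ⟨-2856619260, 0, [(v 16), (v 48), (v 64), (v 17)], [(m (v 18) (m (v 19) (v 49)))]⟩,
  ⟨-15743468652, 0, [(v 16), (v 48), (v 64), (m (v 17) (v 18))], [(m (v 19) (v 49))]⟩,
  ⟨-3921669120, 0, [(v 16), (v 48), (v 64), (m (v 17) (m (v 18) (v 49)))], [(v 19)]⟩,
  ⟨-564255336, 0, [(v 16), (v 48), (v 49), (v 17)], [(m (v 64) (m (v 18) (v 19)))]⟩,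
  ⟨-6340900080, 0, [(v 16), (v 48), (v 49), (v 17)], [(m (v 18) (m (v 19) (v 64)))]⟩,
  ⟨3630859668, 0, [(v 16), (v 48), (v 49), (m (v 17) (v 64))], [(m (v 18) (v 19))]⟩,
  ⟨9164775456, 0, [(v 16), (v 48), (v 49), (m (v 17) (m (v 18) (v 64)))], [(v 19)]⟩,
  ⟨595821864, 0, [(v 16), (v 48), (v 49), (m (v 17) (m (v 18) (v 19)))], [(v 64)]⟩,
  ⟨4391521404, 0, [(v 16), (v 48), (m (v 49) (v 64)), (v 17)], [(m (v 18) (v 19))]⟩,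
  ⟨3023658804, 0, [(v 16), (v 48), (m (v 49) (v 64)), (m (v 17) (v 18))], [(v 19)]⟩,
  ⟨-1728085170, 0, [(v 16), (v 48), (v 17), (v 49)], [(m (v 64) (m (v 18) (v 19)))]⟩,
  ⟨7181462508, 0, [(v 16), (v 48), (v 17), (m (v 49) (v 64))], [(m (v 18) (v 19))]⟩,
  ⟨1245010092, 0, [(v 16), (v 48), (v 17), (v 18)], [(m (v 64) (m (v 19) (v 49)))]⟩,
  ⟨-2530540344, 0, [(v 16), (v 48), (v 17), (v 18)], [(m (v 49) (m (v 19) (v 64)))]⟩,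
  ⟨2886449196, 0, [(v 16), (v 48), (v 17), (v 18)], [(m (v 19) (m (v 49) (v 64)))]⟩,
  ⟨6775167426, 0, [(v 16), (v 48), (v 17), (m (v 18) (v 64))], [(m (v 19) (v 49))]⟩,
  ⟨-4141244688, 0, [(v 16), (v 48), (v 17), (m (v 64) (m (v 18) (v 49)))], [(v 19)]⟩,
  ⟨-669157320, 0, [(v 16), (v 48), (v 17), (m (v 18) (v 19))], [(m (v 49) (v 64))]⟩,
  ⟨-1593818268, 0, [(v 16), (v 48), (v 17), (m (v 18) (m (v 19) (v 64)))], [(v 49)]⟩,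
  ⟨-269102430, 0, [(v 16), (v 48), (m (v 17) (v 64)), (v 18)], [(m (v 19) (v 49))]⟩,
  ⟨3309930048, 0, [(v 16), (v 48), (m (v 17) (m (v 49) (v 64))), (v 18)], [(v 19)]⟩,
  ⟨502116684, 0, [(v 16), (v 48), (m (v 17) (v 18)), (v 19)], [(m (v 49) (v 64))]⟩,
  ⟨2862120132, 0, [(v 16), (v 48), (m (v 17) (m (v 18) (v 64))), (v 49)], [(v 19)]⟩,
  ⟨3420029016, 0, [(v 16), (v 48), (m (v 17) (m (v 18) (v 64))), (v 19)], [(v 49)]⟩,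
  ⟨-4745559480, 0, [(v 16), (v 48), (m (v 49) (m (v 17) (v 18))), (v 64)], [(v 19)]⟩,
  ⟨-1523439264, 0, [(v 16), (v 48), (m (v 17) (m (v 18) (v 49))), (v 64)], [(v 19)]⟩,
  ⟨-3796348740, 0, [(v 16), (v 48), (m (v 17) (m (v 18) (v 19))), (v 64)], [(v 49)]⟩,
  ⟨-13243809852, 0, [(v 16), (m (v 48) (v 64)), (v 17), (v 18)], [(m (v 19) (v 49))]⟩,
  ⟨3926554092, 0, [(v 16), (m (v 48) (v 64)), (v 17), (m (v 18) (v 49))], [(v 19)]⟩,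
  ⟨-1143327516, 0, [(v 16), (m (v 48) (v 64)), (v 17), (m (v 18) (v 19))], [(v 49)]⟩,
  ⟨8531602596, 0, [(v 16), (m (v 48) (v 64)), (m (v 17) (v 49)), (v 18)], [(v 19)]⟩,
  ⟨-1633603446, 0, [(v 16), (m (v 48) (v 49)), (v 64), (v 17)], [(m (v 18) (v 19))]⟩,
  ⟨-6086035056, 0, [(v 16), (m (v 48) (v 49)), (v 17), (m (v 18) (v 64))], [(v 19)]⟩,
  ⟨-14560665720, 0, [(v 16), (m (v 48) (v 49)), (m (v 17) (v 64)), (v 18)], [(v 19)]⟩,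
  ⟨-10564825686, 0, [(v 16), (m (v 48) (v 49)), (m (v 17) (v 18)), (v 64)], [(v 19)]⟩,
  ⟨5782594164, 0, [(v 16), (v 17), (v 18), (m (v 19) (v 64))], [(m (v 48) (v 49))]⟩,
  ⟨7302630636, 0, [(v 16), (v 17), (v 18), (m (v 64) (m (v 19) (v 48)))], [(v 49)]⟩,
  ⟨-6662175300, 0, [(v 16), (v 17), (v 18), (m (v 48) (m (v 19) (v 64)))], [(v 49)]⟩,
  ⟨-8836811550, 0, [(v 16), (v 17), (m (v 18) (v 64)), (v 48)], [(m (v 19) (v 49))]⟩,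
  ⟨5087530656, 0, [(v 16), (v 17), (m (v 18) (v 64)), (m (v 48) (v 49))], [(v 19)]⟩,
  ⟨-7449854958, 0, [(v 16), (v 17), (m (v 18) (v 64)), (m (v 19) (v 48))], [(v 49)]⟩,
  ⟨4779148476, 0, [(v 16), (v 17), (m (v 18) (v 48)), (m (v 49) (v 64))], [(v 19)]⟩,
  ⟨-1078030098, 0, [(v 16), (v 17), (m (v 18) (v 48)), (m (v 19) (v 64))], [(v 49)]⟩,
  ⟨-6235431528, 0, [(v 16), (v 17), (m (v 64) (m (v 18) (v 48))), (v 49)], [(v 19)]⟩,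
  ⟨-9068715900, 0, [(v 16), (v 17), (m (v 48) (m (v 18) (v 49))), (v 64)], [(v 19)]⟩,
  ⟨-1605296028, 0, [(v 16), (v 17), (m (v 18) (v 19)), (m (v 48) (v 64))], [(v 49)]⟩,
  ⟨-604881456, 0, [(v 16), (v 17), (m (v 64) (m (v 18) (v 19))), (v 48)], [(v 49)]⟩,
  ⟨4763652408, 0, [(v 16), (v 17), (m (v 18) (m (v 19) (v 64))), (v 48)], [(v 49)]⟩,
  ⟨-6827553228, 0, [(v 16), (v 17), (m (v 48) (m (v 18) (v 19))), (v 64)], [(v 49)]⟩,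
  ⟨3346422336, 0, [(v 16), (m (v 17) (v 64)), (v 48), (v 49)], [(m (v 18) (v 19))]⟩,
  ⟨-4728201288, 0, [(v 16), (m (v 17) (v 64)), (v 48), (m (v 18) (v 19))], [(v 49)]⟩,
  ⟨7240267746, 0, [(v 16), (m (v 17) (v 64)), (v 18), (m (v 19) (v 48))], [(v 49)]⟩,
  ⟨-3457706808, 0, [(v 16), (m (v 17) (v 48)), (v 64), (v 49)], [(m (v 18) (v 19))]⟩,
  ⟨-8582870616, 0, [(v 16), (m (v 17) (v 48)), (v 64), (m (v 18) (v 19))], [(v 49)]⟩,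
  ⟨14428400292, 0, [(v 16), (m (v 17) (v 48)), (m (v 18) (v 19)), (v 64)], [(v 49)]⟩,
  ⟨2790473700, 0, [(v 16), (m (v 17) (v 18)), (v 64), (v 48)], [(m (v 19) (v 49))]⟩,
  ⟨14428400292, 0, [(v 16), (m (v 17) (v 18)), (v 64), (m (v 19) (v 48))], [(v 49)]⟩,
  ⟨-6652205628, 0, [(v 16), (m (v 17) (v 18)), (v 48), (v 64)], [(m (v 19) (v 49))]⟩,
  ⟨2865826560, 0, [(v 16), (m (v 17) (v 18)), (v 48), (v 49)], [(m (v 19) (v 64))]⟩,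
  ⟨-7932139332, 0, [(v 16), (m (v 17) (v 18)), (m (v 19) (v 48)), (v 64)], [(v 49)]⟩,
  ⟨2912173272, 0, [(v 16), (m (v 64) (m (v 17) (v 18))), (v 48), (v 49)], [(v 19)]⟩,
  ⟨-1769941968, 0, [(v 16), (m (v 17) (m (v 18) (v 64))), (v 48), (v 49)], [(v 19)]⟩,
  ⟨3654556260, 0, [(v 16), (m (v 17) (m (v 18) (v 19))), (v 64), (v 48)], [(v 49)]⟩,
  ⟨-3152638896, 0, [(v 16), (m (v 17) (m (v 18) (v 19))), (v 48), (v 64)], [(v 49)]⟩,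
  ⟨-239100204, 0, [(v 48), (v 64), (m (v 16) (v 17)), (v 49)], [(v 18), (v 19)]⟩,
  ⟨5085036132, 0, [(v 48), (v 49), (m (v 16) (v 17)), (v 64)], [(v 18), (v 19)]⟩,
  ⟨15372432156, 0, [(v 16), (v 64), (v 48), (v 49)], [(v 17), (m (v 18) (v 19))]⟩,
  ⟨10943193138, 0, [(v 16), (v 64), (v 48), (v 49)], [(m (v 17) (v 18)), (v 19)]⟩,
  ⟨8536487568, 0, [(v 16), (v 64), (v 48), (v 17)], [(v 18), (m (v 19) (v 49))]⟩,
  ⟨544925256, 0, [(v 16), (v 64), (v 48), (m (v 17) (v 49))], [(v 18), (v 19)]⟩,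
  ⟨-3905144064, 0, [(v 16), (v 64), (v 48), (m (v 17) (v 18))], [(v 19), (v 49)]⟩,
  ⟨-2598673968, 0, [(v 16), (v 64), (m (v 48) (v 49)), (v 17)], [(v 18), (v 19)]⟩,
  ⟨5552052144, 0, [(v 16), (v 64), (v 17), (v 48)], [(m (v 18) (v 49)), (v 19)]⟩,
  ⟨2385985716, 0, [(v 16), (v 64), (v 17), (m (v 48) (v 49))], [(v 18), (v 19)]⟩,
  ⟨-1329000510, 0, [(v 16), (v 64), (v 17), (v 18)], [(v 48), (m (v 19) (v 49))]⟩,
  ⟨10411824432, 0, [(v 16), (v 64), (v 17), (v 18)], [(m (v 48) (v 49)), (v 19)]⟩,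
  ⟨-12364348938, 0, [(v 16), (v 64), (v 17), (v 18)], [(v 19), (m (v 48) (v 49))]⟩,
  ⟨9210669744, 0, [(v 16), (v 64), (v 17), (m (v 18) (v 48))], [(v 49), (v 19)]⟩,
  ⟨1366315908, 0, [(v 16), (v 64), (m (v 17) (v 48)), (v 49)], [(v 18), (v 19)]⟩,
  ⟨3025813056, 0, [(v 16), (v 64), (m (v 17) (v 48)), (v 18)], [(v 19), (v 49)]⟩,
  ⟨-11857557732, 0, [(v 16), (v 64), (m (v 17) (v 18)), (v 19)], [(v 48), (v 49)]⟩,
  ⟨-2861362494, 0, [(v 16), (v 48), (v 64), (v 49)], [(m (v 17) (v 18)), (v 19)]⟩,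
  ⟨-8821861356, 0, [(v 16), (v 48), (v 64), (v 17)], [(v 18), (m (v 19) (v 49))]⟩,
  ⟨-4636656936, 0, [(v 16), (v 48), (v 64), (v 17)], [(m (v 18) (v 19)), (v 49)]⟩,
  ⟨-8495441160, 0, [(v 16), (v 48), (v 64), (m (v 17) (v 18))], [(v 49), (v 19)]⟩,
  ⟨5045886732, 0, [(v 16), (v 48), (v 64), (m (v 17) (v 18))], [(v 19), (v 49)]⟩,
  ⟨-13460602836, 0, [(v 16), (v 48), (v 49), (v 64)], [(v 17), (m (v 18) (v 19))]⟩,
  ⟨-3093126030, 0, [(v 16), (v 48), (v 49), (v 64)], [(m (v 17) (v 18)), (v 19)]⟩,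
  ⟨6086035056, 0, [(v 16), (v 48), (v 49), (v 17)], [(v 18), (m (v 19) (v 64))]⟩,
  ⟨-3409961352, 0, [(v 16), (v 48), (v 49), (m (v 17) (v 64))], [(v 18), (v 19)]⟩,
  ⟨-4955836506, 0, [(v 16), (v 48), (v 49), (m (v 17) (v 18))], [(v 64), (v 19)]⟩,
  ⟨-5007231492, 0, [(v 16), (v 48), (m (v 49) (v 64)), (v 17)], [(v 18), (v 19)]⟩,
  ⟨2296908672, 0, [(v 16), (v 48), (v 17), (v 49)], [(v 18), (m (v 19) (v 64))]⟩,
  ⟨4652167200, 0, [(v 16), (v 48), (v 17), (v 49)], [(m (v 18) (v 64)), (v 19)]⟩,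
  ⟨4972300680, 0, [(v 16), (v 48), (v 17), (m (v 49) (v 64))], [(v 18), (v 19)]⟩,
  ⟨5702592180, 0, [(v 16), (v 48), (v 17), (v 18)], [(m (v 49) (v 64)), (v 19)]⟩,
  ⟨-167040636, 0, [(v 16), (v 48), (v 17), (v 18)], [(v 19), (m (v 49) (v 64))]⟩,
  ⟨-12745819284, 0, [(v 16), (v 48), (v 17), (v 18)], [(m (v 19) (v 64)), (v 49)]⟩,
  ⟨-12067361472, 0, [(v 16), (v 48), (m (v 17) (v 64)), (v 49)], [(v 18), (v 19)]⟩,
  ⟨2751036000, 0, [(v 16), (v 48), (m (v 17) (v 64)), (v 18)], [(v 19), (v 49)]⟩,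
  ⟨3877895244, 0, [(v 16), (v 48), (m (v 17) (v 49)), (v 64)], [(v 18), (v 19)]⟩,
  ⟨2197621440, 0, [(v 16), (v 48), (m (v 17) (v 49)), (v 18)], [(v 19), (v 64)]⟩,
  ⟨14037219492, 0, [(v 16), (v 48), (m (v 17) (v 18)), (v 64)], [(v 19), (v 49)]⟩,
  ⟨-2425296162, 0, [(v 16), (v 48), (m (v 17) (v 18)), (v 49)], [(v 64), (v 19)]⟩,
  ⟨-5646184440, 0, [(v 16), (v 48), (m (v 17) (v 18)), (v 19)], [(v 64), (v 49)]⟩,
  ⟨-2063232648, 0, [(v 16), (m (v 48) (v 64)), (v 49), (v 17)], [(v 18), (v 19)]⟩,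
  ⟨-8092267656, 0, [(v 16), (m (v 48) (v 64)), (v 17), (v 18)], [(v 49), (v 19)]⟩,
  ⟨7207874724, 0, [(v 16), (m (v 48) (v 49)), (v 64), (v 17)], [(v 18), (v 19)]⟩,
  ⟨-774194640, 0, [(v 16), (v 17), (v 18), (m (v 19) (v 64))], [(v 48), (v 49)]⟩,
  ⟨-5206487616, 0, [(v 16), (v 17), (m (v 18) (v 48)), (v 64)], [(v 19), (v 49)]⟩,
  ⟨31221552, 0, [(v 16), (v 17), (m (v 18) (v 48)), (v 49)], [(v 64), (v 19)]⟩,
  ⟨1222100748, 0, [(v 16), (m (v 17) (v 64)), (v 48), (v 49)], [(v 18), (v 19)]⟩,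
  ⟨6508098948, 0, [(v 16), (m (v 17) (v 48)), (v 49), (v 64)], [(v 18), (v 19)]⟩,
  ⟨2593324632, 0, [(v 16), (m (v 17) (v 18)), (v 64), (v 48)], [(v 49), (v 19)]⟩,
  ⟨-217709640, 0, [(v 16), (m (v 17) (v 18)), (v 64), (v 48)], [(v 19), (v 49)]⟩,
  ⟨-333955986, 0, [(v 16), (m (v 17) (v 18)), (v 48), (v 49)], [(v 64), (v 19)]⟩,
  ⟨11415184632, 0, [(v 16), (v 64), (v 48), (v 49)], [(v 17), (v 18), (v 19)]⟩,
  ⟨8657400120, 0, [(v 16), (v 64), (v 48), (v 17)], [(v 49), (v 18), (v 19)]⟩,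
  ⟨2751036000, 0, [(v 16), (v 64), (v 48), (v 17)], [(v 18), (v 19), (v 49)]⟩,
  ⟨-49810446, 0, [(v 16), (v 64), (v 17), (v 18)], [(v 48), (v 19), (v 49)]⟩,
  ⟨9996347070, 0, [(v 16), (v 64), (v 17), (v 18)], [(v 19), (v 48), (v 49)]⟩,
  ⟨4344720492, 0, [(v 16), (v 48), (v 64), (v 49)], [(v 17), (v 18), (v 19)]⟩,
  ⟨1881026100, 0, [(v 16), (v 48), (v 64), (v 17)], [(v 18), (v 49), (v 19)]⟩,
  ⟨-1874277588, 0, [(v 16), (v 48), (v 49), (v 64)], [(v 17), (v 18), (v 19)]⟩,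
  ⟨4984659684, 0, [(v 16), (v 48), (v 49), (v 17)], [(v 64), (v 18), (v 19)]⟩,
  ⟨-5087530656, 0, [(v 16), (v 48), (v 49), (v 17)], [(v 18), (v 64), (v 19)]⟩,
  ⟨-2559376104, 0, [(v 16), (v 48), (v 17), (v 49)], [(v 18), (v 64), (v 19)]⟩,
  ⟨-5689596576, 0, [(v 16), (v 48), (v 17), (v 18)], [(v 64), (v 19), (v 49)]⟩,
  ⟨8158744812, 0, [(v 16), (v 48), (v 17), (v 18)], [(v 19), (v 64), (v 49)]⟩]

/-- identity -/
def g1q : P := [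
  (12, (w (v 64) (v 16) (v 17) (v 18) (v 19) (m (v 48) (v 49)))),
  (3, (w (v 64) (v 17) (v 18) (v 19) (v 49) (m (v 16) (v 48)))),
  (2, (w (v 64) (v 18) (v 19) (v 48) (v 49) (m (v 16) (v 17)))),
  (-3, (w (v 64) (v 17) (v 18) (v 19) (v 48) (m (v 16) (v 49)))),
  (-2, (w (v 64) (v 17) (v 19) (v 48) (v 49) (m (v 16) (v 18)))),
  (2, (w (v 64) (v 17) (v 18) (v 48) (v 49) (m (v 16) (v 19)))),
  (-3, (w (v 64) (v 16) (v 18) (v 19) (v 49) (m (v 17) (v 48)))),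
  (3, (w (v 64) (v 16) (v 18) (v 19) (v 48) (m (v 17) (v 49)))),
  (2, (w (v 64) (v 16) (v 19) (v 48) (v 49) (m (v 17) (v 18)))),
  (-2, (w (v 64) (v 16) (v 18) (v 48) (v 49) (m (v 17) (v 19)))),
  (3, (w (v 64) (v 16) (v 17) (v 19) (v 49) (m (v 18) (v 48)))),
  (-3, (w (v 64) (v 16) (v 17) (v 19) (v 48) (m (v 18) (v 49)))),
  (2, (w (v 64) (v 16) (v 17) (v 48) (v 49) (m (v 18) (v 19)))),
  (-3, (w (v 64) (v 16) (v 17) (v 18) (v 49) (m (v 19) (v 48)))),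
  (3, (w (v 64) (v 16) (v 17) (v 18) (v 48) (m (v 19) (v 49))))]

theorem g1k : zeroChk [16, 17, 18, 19, 48, 49] (smulP 486701095 (expP g1q) ++ instAll [sagle] g1c) = true := by
  decide +kernel

theorem g1s : symChk [16, 17, 18, 19, 48, 49] g1q = true := by decide +kernel

theorem g1_ev (hM : IsMalcev A) [IsAddTorsionFree A] (b : ℕ → A) : evQ real b g1q = 0 :=
  cert_exp (anti hM) [sagle] (sagle_mem hM triv) _ g1q _ (by norm_num) g1c g1k real (real_good hM)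
    (fun _ => rfl) g1s b

end Pool.Agent.Hhelper8.Chk
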