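import Mathlib
import Pool.Agent.Hhelper8.Free
import Pool.Agent.Hhelper8.Cert.Checker
import Pool.Agent.Hhelper8.Cert.Sound
import Pool.Agent.Hhelper8.Cert.Basic
import Pool.Agent.Hhelper8.Cert.Additive
import Pool.Agent.Hhelper8.Cert.Deg6

/-!
Identity z62.
-/

namespace Pool.Agent.Hhelper8.Chk

open Pool.Agent.Hhelper8 T

variable {A : Type*} [NonUnitalNonAssocRing A]

/-- certificate -/
def z62c : List I := [
  ⟨-2590482910, 0, [(v 48), (v 49), (m (v 16) (v 17)), (m (v 18) (m (v 19) (m (v 20) (v 21))))], []⟩,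
  ⟨41631531850, 0, [(v 48), (m (v 16) (v 17)), (v 49), (m (v 18) (m (v 19) (m (v 20) (v 21))))], []⟩,
  ⟨-36215104500, 0, [(v 48), (m (v 16) (v 17)), (m (v 18) (v 49)), (m (v 19) (m (v 20) (v 21)))], []⟩,
  ⟨32912087260, 0, [(v 48), (m (v 16) (v 17)), (m (v 49) (m (v 18) (v 19))), (m (v 20) (v 21))], []⟩,
  ⟨119789065300, 0, [(v 48), (m (v 16) (v 17)), (m (v 18) (m (v 19) (v 49))), (m (v 20) (v 21))], []⟩,
  ⟨176702582720, 0, [(v 48), (m (v 16) (v 17)), (m (v 18) (m (v 19) (v 20))), (m (v 21) (v 49))], []⟩,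
  ⟨-53387575660, 0, [(v 48), (m (v 49) (m (v 16) (v 17))), (m (v 18) (v 19)), (m (v 20) (v 21))], []⟩,
  ⟨-35486978780, 0, [(v 48), (m (v 16) (m (v 17) (v 18))), (v 49), (m (v 19) (m (v 20) (v 21)))], []⟩,
  ⟨-11965148940, 0, [(v 48), (m (v 16) (m (v 17) (v 18))), (m (v 19) (v 49)), (m (v 20) (v 21))], []⟩,
  ⟨-5918761860, 0, [(v 16), (v 48), (v 49), (m (v 17) (m (v 18) (m (v 19) (m (v 20) (v 21)))))], []⟩,
  ⟨14793789410, 0, [(v 16), (v 48), (v 17), (m (v 18) (m (v 49) (m (v 19) (m (v 20) (v 21)))))], []⟩,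
  ⟨173343622140, 0, [(v 16), (v 48), (v 17), (m (m (v 18) (v 49)) (m (v 19) (m (v 20) (v 21))))], []⟩,
  ⟨27041637150, 0, [(v 16), (v 48), (m (v 17) (v 18)), (m (v 49) (m (v 19) (m (v 20) (v 21))))], []⟩,
  ⟨-338264200, 0, [(v 16), (v 48), (m (v 17) (v 18)), (m (m (v 19) (v 20)) (m (v 21) (v 49)))], []⟩,
  ⟨39896576520, 0, [(v 16), (v 48), (m (v 17) (m (v 18) (v 49))), (m (v 19) (m (v 20) (v 21)))], []⟩,
  ⟨14057086990, 0, [(v 16), (v 48), (m (v 17) (m (v 18) (v 19))), (m (v 49) (m (v 20) (v 21)))], []⟩,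
  ⟨-17324611238, 0, [(v 16), (v 48), (m (v 17) (m (v 18) (m (v 19) (v 49)))), (m (v 20) (v 21))], []⟩,
  ⟨47218678620, 0, [(v 16), (v 48), (m (m (v 17) (v 18)) (m (v 19) (v 49))), (m (v 20) (v 21))], []⟩,
  ⟨-19926218800, 0, [(v 16), (v 48), (m (v 17) (m (v 18) (m (v 19) (v 20)))), (m (v 21) (v 49))], []⟩,
  ⟨17527379130, 0, [(v 16), (v 48), (m (v 17) (m (v 49) (m (v 18) (m (v 19) (v 20))))), (v 21)], []⟩,
  ⟨14446765540, 0, [(v 16), (v 48), (m (m (v 17) (v 18)) (m (v 49) (m (v 19) (v 20)))), (v 21)], []⟩,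
  ⟨-2733589720, 0, [(v 16), (v 48), (m (v 17) (m (v 18) (m (v 19) (m (v 20) (v 21))))), (v 49)], []⟩,
  ⟨35486978780, 0, [(v 16), (m (v 48) (v 49)), (m (v 17) (m (v 18) (v 19))), (m (v 20) (v 21))], []⟩,
  ⟨-2733589720, 0, [(v 16), (m (v 48) (v 49)), (m (v 17) (m (v 18) (m (v 19) (v 20)))), (v 21)], []⟩,
  ⟨-60941453600, 0, [(v 16), (v 17), (v 18), (m (v 48) (m (v 49) (m (v 19) (m (v 20) (v 21)))))], []⟩,
  ⟨8377973102, 0, [(v 16), (v 17), (v 18), (m (v 48) (m (v 19) (m (v 20) (m (v 21) (v 49)))))], []⟩,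
  ⟨16478542450, 0, [(v 16), (v 17), (v 18), (m (v 48) (m (m (v 19) (v 20)) (m (v 21) (v 49))))], []⟩,
  ⟨58784439080, 0, [(v 16), (v 17), (v 18), (m (m (v 48) (v 49)) (m (v 19) (m (v 20) (v 21))))], []⟩,
  ⟨15286843860, 0, [(v 16), (v 17), (v 18), (m (v 19) (m (v 20) (m (v 48) (m (v 21) (v 49)))))], []⟩,
  ⟨-30628286150, 0, [(v 16), (v 17), (v 18), (m (m (v 19) (v 20)) (m (v 21) (m (v 48) (v 49))))], []⟩,
  ⟨453707720, 0, [(v 16), (v 17), (m (v 18) (v 48)), (m (v 19) (m (v 49) (m (v 20) (v 21))))], []⟩,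
  ⟨-43747584900, 0, [(v 16), (v 17), (m (v 18) (v 48)), (m (m (v 19) (v 20)) (m (v 21) (v 49)))], []⟩,
  ⟨54771375440, 0, [(v 16), (v 17), (m (v 48) (m (v 18) (v 49))), (m (v 19) (m (v 20) (v 21)))], []⟩,
  ⟨-13131027070, 0, [(v 16), (v 17), (m (v 18) (m (v 48) (v 49))), (m (v 19) (m (v 20) (v 21)))], []⟩,
  ⟨-10675603120, 0, [(v 16), (v 17), (m (v 48) (m (v 18) (v 19))), (m (v 20) (m (v 21) (v 49)))], []⟩,
  ⟨-6028722860, 0, [(v 16), (v 17), (m (v 18) (m (v 19) (v 48))), (m (v 49) (m (v 20) (v 21)))], []⟩,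
  ⟨-23314120750, 0, [(v 16), (v 17), (m (v 48) (m (v 49) (m (v 18) (v 19)))), (m (v 20) (v 21))], []⟩,
  ⟨-92731887300, 0, [(v 16), (v 17), (m (v 48) (m (v 18) (m (v 19) (v 49)))), (m (v 20) (v 21))], []⟩,
  ⟨-23297460300, 0, [(v 16), (v 17), (m (m (v 18) (v 19)) (m (v 48) (v 49))), (m (v 20) (v 21))], []⟩,
  ⟨-39642835980, 0, [(v 16), (v 17), (m (v 48) (m (v 18) (m (v 19) (v 20)))), (m (v 21) (v 49))], []⟩,
  ⟨44136258220, 0, [(v 16), (v 17), (m (m (v 18) (v 19)) (m (v 20) (v 48))), (m (v 21) (v 49))], []⟩,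
  ⟨-6144553070, 0, [(v 16), (v 17), (m (v 18) (m (v 19) (m (v 20) (v 21)))), (m (v 48) (v 49))], []⟩,
  ⟨8875027550, 0, [(v 16), (v 17), (m (v 18) (m (v 48) (m (v 19) (m (v 20) (v 21))))), (v 49)], []⟩,
  ⟨8263678260, 0, [(v 16), (v 17), (m (m (v 18) (v 48)) (m (v 19) (m (v 20) (v 21)))), (v 49)], []⟩,
  ⟨38533501030, 0, [(v 16), (v 17), (m (m (v 18) (v 19)) (m (v 48) (m (v 20) (v 21)))), (v 49)], []⟩,
  ⟨-36617448960, 0, [(v 16), (m (v 17) (v 48)), (v 18), (m (v 49) (m (v 19) (m (v 20) (v 21))))], []⟩,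
  ⟨-70097319200, 0, [(v 16), (m (v 17) (v 48)), (v 18), (m (v 19) (m (v 49) (m (v 20) (v 21))))], []⟩,
  ⟨57217941020, 0, [(v 16), (m (v 17) (v 48)), (v 18), (m (m (v 19) (v 20)) (m (v 21) (v 49)))], []⟩,
  ⟨-10992610200, 0, [(v 16), (m (v 17) (v 48)), (m (v 18) (v 19)), (m (v 20) (m (v 21) (v 49)))], []⟩,
  ⟨66045242660, 0, [(v 16), (m (v 17) (v 48)), (m (v 18) (m (v 19) (m (v 20) (v 21)))), (v 49)], []⟩,
  ⟨-105509477280, 0, [(v 16), (m (v 48) (m (v 17) (v 49))), (m (v 18) (v 19)), (m (v 20) (v 21))], []⟩,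
  ⟨-9720063720, 0, [(v 16), (m (v 17) (m (v 48) (v 49))), (v 18), (m (v 19) (m (v 20) (v 21)))], []⟩,
  ⟨-23762422400, 0, [(v 16), (m (v 17) (m (v 48) (v 49))), (m (v 18) (v 19)), (m (v 20) (v 21))], []⟩,
  ⟨64021995960, 0, [(v 16), (m (v 17) (v 18)), (v 48), (m (v 19) (m (v 49) (m (v 20) (v 21))))], []⟩,
  ⟨-41407109200, 0, [(v 16), (m (v 17) (v 18)), (v 48), (m (v 19) (m (v 20) (m (v 21) (v 49))))], []⟩,
  ⟨39360972090, 0, [(v 16), (m (v 17) (v 18)), (v 19), (m (v 48) (m (v 49) (m (v 20) (v 21))))], []⟩,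
  ⟨-4682906980, 0, [(v 16), (m (v 17) (v 18)), (v 19), (m (v 20) (m (v 48) (m (v 21) (v 49))))], []⟩,
  ⟨-14057086990, 0, [(v 16), (m (v 17) (v 18)), (m (v 19) (v 48)), (m (v 49) (m (v 20) (v 21)))], []⟩,
  ⟨10603936880, 0, [(v 16), (m (v 17) (v 18)), (m (v 19) (m (v 20) (v 48))), (m (v 21) (v 49))], []⟩,
  ⟨22600274850, 0, [(v 16), (m (v 17) (v 18)), (m (v 48) (m (v 19) (m (v 20) (v 21)))), (v 49)], []⟩,
  ⟨22425199218, 0, [(v 16), (m (v 17) (v 18)), (m (v 19) (m (v 20) (m (v 21) (v 48)))), (v 49)], []⟩,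
  ⟨-34098931120, 0, [(v 16), (m (v 48) (m (v 17) (v 18))), (v 49), (m (v 19) (m (v 20) (v 21)))], []⟩,
  ⟨5575015140, 0, [(v 16), (m (v 48) (m (v 17) (v 18))), (v 19), (m (v 20) (m (v 21) (v 49)))], []⟩,
  ⟨-53247401480, 0, [(v 16), (m (v 48) (m (v 17) (v 18))), (m (v 19) (v 20)), (m (v 21) (v 49))], []⟩,
  ⟨80835281820, 0, [(v 16), (m (v 17) (m (v 18) (v 48))), (v 49), (m (v 19) (m (v 20) (v 21)))], []⟩,
  ⟨-161315376880, 0, [(v 16), (m (v 17) (m (v 18) (v 48))), (m (v 19) (v 49)), (m (v 20) (v 21))], []⟩,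
  ⟨226565313000, 0, [(v 16), (m (v 17) (m (v 18) (v 48))), (m (v 19) (m (v 20) (v 21))), (v 49)], []⟩,
  ⟨-3438239950, 0, [(v 16), (m (v 17) (m (v 18) (v 19))), (v 48), (m (v 49) (m (v 20) (v 21)))], []⟩,
  ⟨81625474440, 0, [(v 16), (m (v 17) (m (v 18) (v 19))), (v 48), (m (v 20) (m (v 21) (v 49)))], []⟩,
  ⟨-181607300400, 0, [(v 16), (m (v 17) (m (v 18) (v 19))), (m (v 20) (m (v 21) (v 48))), (v 49)], []⟩,
  ⟨17874272880, 0, [(v 16), (m (v 17) (m (v 48) (m (v 18) (v 19)))), (v 49), (m (v 20) (v 21))], []⟩,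
  ⟨-154983375842, 0, [(v 16), (m (v 17) (m (v 18) (m (v 19) (v 48)))), (m (v 20) (v 21)), (v 49)], []⟩,
  ⟨-7474184200, 0, [(v 16), (m (m (v 17) (v 18)) (m (v 19) (v 48))), (v 49), (m (v 20) (v 21))], []⟩,
  ⟨7892104220, 0, [(v 16), (m (m (v 17) (v 18)) (m (v 19) (v 48))), (m (v 20) (v 21)), (v 49)], []⟩,
  ⟨79495175800, 0, [(v 16), (m (v 17) (m (v 18) (m (v 19) (v 20)))), (v 48), (m (v 21) (v 49))], []⟩,
  ⟨-119975152280, 0, [(v 16), (m (v 17) (m (v 18) (m (v 19) (v 20)))), (m (v 21) (v 48)), (v 49)], []⟩,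
  ⟨23297460300, 0, [(v 48), (v 49), (m (v 16) (v 17)), (m (v 18) (v 19))], [(m (v 20) (v 21))]⟩,
  ⟨-35799911310, 0, [(v 48), (v 49), (m (v 16) (v 17)), (m (v 18) (m (v 19) (v 20)))], [(v 21)]⟩,
  ⟨-40019961670, 0, [(v 48), (v 49), (m (v 16) (m (v 17) (v 18))), (m (v 19) (v 20))], [(v 21)]⟩,
  ⟨6986474000, 0, [(v 16), (v 48), (v 49), (v 17)], [(m (v 18) (m (v 19) (m (v 20) (v 21))))]⟩,
  ⟨-58784439080, 0, [(v 16), (v 48), (v 49), (m (v 17) (m (v 18) (v 19)))], [(m (v 20) (v 21))]⟩,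
  ⟨-53460366450, 0, [(v 16), (v 48), (v 17), (v 49)], [(m (v 18) (m (v 19) (m (v 20) (v 21))))]⟩,
  ⟨-64021995960, 0, [(v 16), (v 48), (v 17), (v 18)], [(m (v 49) (m (v 19) (m (v 20) (v 21))))]⟩,
  ⟨-89532936902, 0, [(v 16), (v 48), (v 17), (v 18)], [(m (v 19) (m (v 20) (m (v 21) (v 49))))]⟩,
  ⟨15819996140, 0, [(v 16), (v 48), (v 17), (v 18)], [(m (m (v 19) (v 20)) (m (v 21) (v 49)))]⟩,
  ⟨-227440684560, 0, [(v 16), (v 48), (v 17), (m (v 18) (v 49))], [(m (v 19) (m (v 20) (v 21)))]⟩,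
  ⟨-6028722860, 0, [(v 16), (v 48), (v 17), (m (v 18) (v 19))], [(m (v 49) (m (v 20) (v 21)))]⟩,
  ⟨161704050200, 0, [(v 16), (v 48), (v 17), (m (v 18) (v 19))], [(m (v 20) (m (v 21) (v 49)))]⟩,
  ⟨73576413940, 0, [(v 16), (v 48), (v 17), (m (v 18) (m (v 19) (v 20)))], [(m (v 21) (v 49))]⟩,
  ⟨10066637660, 0, [(v 16), (v 48), (v 17), (m (m (v 18) (v 19)) (m (v 20) (v 49)))], [(v 21)]⟩,
  ⟨128627503860, 0, [(v 16), (v 48), (v 17), (m (v 18) (m (v 19) (m (v 20) (v 21))))], [(v 49)]⟩,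
  ⟨-7095019890, 0, [(v 16), (v 48), (m (v 17) (v 18)), (m (v 19) (v 20))], [(m (v 21) (v 49))]⟩,
  ⟨-47497316850, 0, [(v 16), (v 48), (m (v 17) (v 18)), (m (v 19) (m (v 20) (v 21)))], [(v 49)]⟩,
  ⟨-63002202620, 0, [(v 16), (v 48), (m (v 49) (m (v 17) (v 18))), (v 19)], [(m (v 20) (v 21))]⟩,
  ⟨-47497316850, 0, [(v 16), (v 48), (m (v 17) (m (v 18) (v 19))), (m (v 20) (v 21))], [(v 49)]⟩,
  ⟨-8652351580, 0, [(v 16), (v 48), (m (v 49) (m (v 17) (m (v 18) (v 19)))), (v 20)], [(v 21)]⟩,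
  ⟨-25539909280, 0, [(v 16), (v 48), (m (m (v 17) (v 18)) (m (v 19) (v 49))), (v 20)], [(v 21)]⟩,
  ⟨122708742000, 0, [(v 16), (v 48), (m (v 17) (m (v 18) (m (v 19) (v 20)))), (v 21)], [(v 49)]⟩,
  ⟨23297460300, 0, [(v 16), (m (v 48) (v 49)), (v 17), (v 18)], [(m (v 19) (m (v 20) (v 21)))]⟩,
  ⟨-22467738295, 0, [(v 16), (m (v 48) (v 49)), (m (v 17) (v 18)), (m (v 19) (v 20))], [(v 21)]⟩,
  ⟨225791210, 0, [(v 16), (m (v 48) (v 49)), (m (v 17) (m (v 18) (v 19))), (v 20)], [(v 21)]⟩,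
  ⟨68969464900, 0, [(v 16), (v 17), (v 18), (m (v 19) (m (v 48) (v 49)))], [(m (v 20) (v 21))]⟩,
  ⟨-24090126720, 0, [(v 16), (v 17), (v 18), (m (v 19) (v 20))], [(m (v 48) (m (v 21) (v 49)))]⟩,
  ⟨-219109882840, 0, [(v 16), (v 17), (v 18), (m (v 48) (m (v 19) (v 20)))], [(m (v 21) (v 49))]⟩,
  ⟨-23314120750, 0, [(v 16), (v 17), (v 18), (m (v 48) (m (v 49) (m (v 19) (v 20))))], [(v 21)]⟩,
  ⟨-15892779365, 0, [(v 16), (v 17), (v 18), (m (m (v 19) (v 20)) (m (v 48) (v 49)))], [(v 21)]⟩,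
  ⟨-50964165620, 0, [(v 16), (v 17), (v 18), (m (v 48) (m (v 19) (m (v 20) (v 21))))], [(v 49)]⟩,
  ⟨320634194348, 0, [(v 16), (v 17), (v 18), (m (m (v 19) (v 20)) (m (v 21) (v 48)))], [(v 49)]⟩,
  ⟨-25006907580, 0, [(v 16), (v 17), (m (v 18) (v 48)), (v 49)], [(m (v 19) (m (v 20) (v 21)))]⟩,
  ⟨146704506360, 0, [(v 16), (v 17), (m (v 18) (v 48)), (m (v 19) (v 20))], [(m (v 21) (v 49))]⟩,
  ⟨417681000, 0, [(v 16), (v 17), (m (v 48) (m (v 18) (v 49))), (m (v 19) (v 20))], [(v 21)]⟩,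
  ⟨6452617930, 0, [(v 16), (v 17), (m (v 18) (m (v 48) (v 49))), (m (v 19) (v 20))], [(v 21)]⟩,
  ⟨88635435900, 0, [(v 16), (v 17), (m (v 18) (v 19)), (m (v 20) (v 48))], [(m (v 21) (v 49))]⟩,
  ⟨6452617930, 0, [(v 16), (v 17), (m (v 18) (v 19)), (m (v 20) (m (v 48) (v 49)))], [(v 21)]⟩,
  ⟨-35486978780, 0, [(v 16), (v 17), (m (v 18) (v 19)), (m (v 20) (v 21))], [(m (v 48) (v 49))]⟩,
  ⟨-21312512830, 0, [(v 16), (v 17), (m (v 18) (v 19)), (m (v 48) (m (v 20) (v 21)))], [(v 49)]⟩,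
  ⟨822523845286, 0, [(v 16), (v 17), (m (v 18) (v 19)), (m (v 20) (m (v 21) (v 48)))], [(v 49)]⟩,
  ⟨-64021995960, 0, [(v 16), (v 17), (m (v 48) (m (v 18) (v 19))), (v 49)], [(m (v 20) (v 21))]⟩,
  ⟨15128539460, 0, [(v 16), (v 17), (m (v 48) (m (v 18) (v 19))), (m (v 20) (v 49))], [(v 21)]⟩,
  ⟨-66461068132, 0, [(v 16), (v 17), (m (v 18) (m (v 19) (v 48))), (m (v 20) (v 21))], [(v 49)]⟩,
  ⟨-25463713820, 0, [(v 16), (v 17), (m (v 18) (m (v 19) (v 20))), (v 48)], [(m (v 21) (v 49))]⟩,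
  ⟨225791210, 0, [(v 16), (v 17), (m (v 18) (m (v 19) (v 20))), (m (v 48) (v 49))], [(v 21)]⟩,
  ⟨25928582600, 0, [(v 16), (v 17), (m (m (v 18) (v 19)) (m (v 20) (v 48))), (v 49)], [(v 21)]⟩,
  ⟨-47228326700, 0, [(v 16), (m (v 17) (v 48)), (v 18), (m (v 19) (v 20))], [(m (v 21) (v 49))]⟩,
  ⟨-14674831740, 0, [(v 16), (m (v 17) (v 48)), (v 18), (m (v 49) (m (v 19) (v 20)))], [(v 21)]⟩,
  ⟨-1262507820, 0, [(v 16), (m (v 17) (v 48)), (m (v 18) (v 49)), (m (v 19) (v 20))], [(v 21)]⟩,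
  ⟨46725038200, 0, [(v 16), (m (v 17) (v 48)), (m (v 18) (v 19)), (v 49)], [(m (v 20) (v 21))]⟩,
  ⟨262877918416, 0, [(v 16), (m (v 17) (v 48)), (m (v 18) (v 19)), (m (v 20) (v 21))], [(v 49)]⟩,
  ⟨417681000, 0, [(v 16), (m (v 48) (m (v 17) (v 49))), (v 18), (m (v 19) (v 20))], [(v 21)]⟩,
  ⟨-6452617930, 0, [(v 16), (m (v 17) (m (v 48) (v 49))), (v 18), (m (v 19) (v 20))], [(v 21)]⟩,
  ⟨-17032296980, 0, [(v 16), (m (v 17) (v 18)), (v 48), (v 49)], [(m (v 19) (m (v 20) (v 21)))]⟩,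
  ⟨2590482910, 0, [(v 16), (m (v 17) (v 18)), (v 48), (m (v 19) (m (v 20) (v 21)))], [(v 49)]⟩,
  ⟨85334508790, 0, [(v 16), (m (v 17) (v 18)), (v 19), (m (v 48) (m (v 20) (v 21)))], [(v 49)]⟩,
  ⟨470149436408, 0, [(v 16), (m (v 17) (v 18)), (v 19), (m (v 20) (m (v 21) (v 48)))], [(v 49)]⟩,
  ⟨-8094683000, 0, [(v 16), (m (v 17) (v 18)), (m (v 19) (v 48)), (v 49)], [(m (v 20) (v 21))]⟩,
  ⟨-107973177280, 0, [(v 16), (m (v 17) (v 18)), (m (v 19) (v 48)), (m (v 20) (v 49))], [(v 21)]⟩,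
  ⟨-179293065630, 0, [(v 16), (m (v 17) (v 18)), (m (v 19) (v 20)), (m (v 21) (v 48))], [(v 49)]⟩,
  ⟨24086735490, 0, [(v 16), (m (v 48) (m (v 17) (v 18))), (m (v 19) (v 20)), (v 49)], [(v 21)]⟩,
  ⟨47477233120, 0, [(v 16), (m (v 17) (m (v 18) (v 48))), (v 49), (m (v 19) (v 20))], [(v 21)]⟩,
  ⟨9720063720, 0, [(v 16), (v 48), (v 49), (v 17)], [(v 18), (m (v 19) (m (v 20) (v 21)))]⟩,
  ⟨92731887300, 0, [(v 16), (v 48), (v 49), (v 17)], [(m (v 18) (v 19)), (m (v 20) (v 21))]⟩,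
  ⟨-35530535440, 0, [(v 16), (v 48), (v 49), (v 17)], [(m (v 18) (m (v 19) (v 20))), (v 21)]⟩,
  ⟨42600661450, 0, [(v 16), (v 48), (v 17), (v 49)], [(m (v 18) (m (v 19) (v 20))), (v 21)]⟩,
  ⟨20041844130, 0, [(v 16), (v 48), (v 17), (v 18)], [(v 49), (m (v 19) (m (v 20) (v 21)))]⟩,
  ⟨-10201841180, 0, [(v 16), (v 48), (v 17), (v 18)], [(m (v 19) (v 49)), (m (v 20) (v 21))]⟩,
  ⟨-69909125530, 0, [(v 16), (v 48), (v 17), (v 18)], [(m (v 19) (v 20)), (m (v 21) (v 49))]⟩,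
  ⟨-39935260470, 0, [(v 16), (v 48), (v 17), (v 18)], [(m (v 49) (m (v 19) (v 20))), (v 21)]⟩,
  ⟨-118242923400, 0, [(v 16), (v 48), (v 17), (v 18)], [(m (v 19) (m (v 20) (v 49))), (v 21)]⟩,
  ⟨-104674115280, 0, [(v 16), (v 48), (v 17), (m (v 18) (v 49))], [(m (v 19) (v 20)), (v 21)]⟩,
  ⟨45006519810, 0, [(v 16), (v 48), (v 17), (m (v 18) (v 19))], [(v 49), (m (v 20) (v 21))]⟩,
  ⟨-88483569460, 0, [(v 16), (v 48), (v 17), (m (v 18) (v 19))], [(v 20), (m (v 21) (v 49))]⟩,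
  ⟨-61546745540, 0, [(v 16), (v 48), (v 17), (m (v 18) (v 19))], [(m (v 20) (v 49)), (v 21)]⟩,
  ⟨-39498655160, 0, [(v 16), (v 48), (v 17), (m (v 18) (v 19))], [(m (v 20) (v 21)), (v 49)]⟩,
  ⟨-10603936880, 0, [(v 16), (v 48), (m (v 17) (v 49)), (v 18)], [(v 19), (m (v 20) (v 21))]⟩,
  ⟨31494297820, 0, [(v 16), (v 48), (m (v 17) (v 49)), (v 18)], [(m (v 19) (v 20)), (v 21)]⟩,
  ⟨30990484400, 0, [(v 16), (v 48), (m (v 17) (v 49)), (m (v 18) (v 19))], [(v 20), (v 21)]⟩,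
  ⟨-52818968210, 0, [(v 16), (v 48), (m (v 17) (v 18)), (v 19)], [(v 49), (m (v 20) (v 21))]⟩,
  ⟨-70551026920, 0, [(v 16), (v 48), (m (v 17) (v 18)), (v 19)], [(v 20), (m (v 21) (v 49))]⟩,
  ⟨37874649060, 0, [(v 16), (v 48), (m (v 17) (v 18)), (v 19)], [(m (v 20) (v 49)), (v 21)]⟩,
  ⟨15128539460, 0, [(v 16), (v 48), (m (v 17) (v 18)), (m (v 19) (v 49))], [(v 20), (v 21)]⟩,
  ⟨30508485920, 0, [(v 16), (v 48), (m (v 17) (v 18)), (m (v 19) (v 20))], [(v 21), (v 49)]⟩,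
  ⟨-8652351580, 0, [(v 16), (v 48), (m (v 17) (m (v 18) (v 19))), (v 49)], [(v 20), (v 21)]⟩,
  ⟨-2733589720, 0, [(v 16), (v 48), (m (v 17) (m (v 18) (v 19))), (v 20)], [(v 49), (v 21)]⟩,
  ⟨-125442331720, 0, [(v 16), (v 48), (m (v 17) (m (v 18) (v 19))), (v 20)], [(v 21), (v 49)]⟩,
  ⟨39190239665, 0, [(v 16), (m (v 48) (v 49)), (v 17), (v 18)], [(m (v 19) (v 20)), (v 21)]⟩,
  ⟨86959763340, 0, [(v 16), (v 17), (v 18), (m (v 19) (v 48))], [(m (v 20) (v 49)), (v 21)]⟩,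
  ⟨-519397159834, 0, [(v 16), (v 17), (v 18), (m (v 19) (v 48))], [(m (v 20) (v 21)), (v 49)]⟩,
  ⟨30572803400, 0, [(v 16), (v 17), (v 18), (m (v 48) (m (v 19) (v 49)))], [(v 20), (v 21)]⟩,
  ⟨12731856910, 0, [(v 16), (v 17), (v 18), (m (v 19) (v 20))], [(v 48), (m (v 21) (v 49))]⟩,
  ⟨-112895605, 0, [(v 16), (v 17), (v 18), (m (v 19) (v 20))], [(m (v 48) (v 49)), (v 21)]⟩,
  ⟨-38533501030, 0, [(v 16), (v 17), (v 18), (m (v 48) (m (v 19) (v 20)))], [(v 49), (v 21)]⟩,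
  ⟨-85334508790, 0, [(v 16), (v 17), (v 18), (m (v 48) (m (v 19) (v 20)))], [(v 21), (v 49)]⟩,
  ⟨96440923340, 0, [(v 16), (v 17), (v 18), (m (v 19) (m (v 20) (v 48)))], [(v 49), (v 21)]⟩,
  ⟨-11942227980, 0, [(v 16), (v 17), (m (v 18) (v 48)), (v 49)], [(m (v 19) (v 20)), (v 21)]⟩,
  ⟨139863864280, 0, [(v 16), (v 17), (m (v 18) (v 48)), (m (v 19) (v 20))], [(v 49), (v 21)]⟩,
  ⟨-392270985398, 0, [(v 16), (v 17), (m (v 18) (v 48)), (m (v 19) (v 20))], [(v 21), (v 49)]⟩,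
  ⟨-28057507290, 0, [(v 16), (v 17), (m (v 18) (v 19)), (v 48)], [(v 49), (m (v 20) (v 21))]⟩,
  ⟨17547838400, 0, [(v 16), (v 17), (m (v 18) (v 19)), (v 48)], [(m (v 20) (v 49)), (v 21)]⟩,
  ⟨124390592660, 0, [(v 16), (v 17), (m (v 18) (v 19)), (m (v 20) (v 48))], [(v 49), (v 21)]⟩,
  ⟨-43422940940, 0, [(v 16), (m (v 17) (v 48)), (v 18), (m (v 19) (v 20))], [(v 49), (v 21)]⟩,
  ⟨4433810982, 0, [(v 16), (m (v 17) (v 48)), (v 18), (m (v 19) (v 20))], [(v 21), (v 49)]⟩,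
  ⟨38341178750, 0, [(v 16), (m (v 17) (v 18)), (v 48), (v 49)], [(v 19), (m (v 20) (v 21))]⟩,
  ⟨-7267269410, 0, [(v 16), (m (v 17) (v 18)), (v 48), (v 49)], [(m (v 19) (v 20)), (v 21)]⟩,
  ⟨388673320, 0, [(v 16), (m (v 17) (v 18)), (m (v 19) (v 48)), (v 49)], [(v 20), (v 21)]⟩,
  ⟨15063057360, 0, [(v 16), (v 48), (v 17), (v 49)], [(m (v 18) (v 19)), (v 20), (v 21)]⟩,
  ⟨17874272880, 0, [(v 16), (v 48), (v 17), (v 18)], [(v 49), (m (v 19) (v 20)), (v 21)]⟩,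
  ⟨-62620236520, 0, [(v 16), (v 48), (v 17), (v 18)], [(m (v 19) (v 20)), (v 49), (v 21)]⟩,
  ⟨-122708742000, 0, [(v 16), (v 48), (m (v 17) (v 18)), (v 19)], [(v 20), (v 21), (v 49)]⟩,
  ⟨-2110025180, 0, [(v 16), (v 17), (v 18), (m (v 19) (v 20))], [(v 48), (v 49), (v 21)]⟩,
  ⟨-481716346, 0, [(v 16), (v 17), (m (v 18) (v 19)), (v 48)], [(v 20), (v 21), (v 49)]⟩,
  ⟨123190458346, 0, [(v 16), (v 48), (v 17), (v 18)], [(v 19), (v 20), (v 21), (v 49)]⟩]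

/-- identity -/
def z62q : P := [
  (-1, (m (v 49) (w (m (v 16) (v 48)) (v 17) (v 18) (v 19) (v 20) (v 21)))),
  (1, (m (v 48) (w (m (v 16) (v 49)) (v 17) (v 18) (v 19) (v 20) (v 21)))),
  (1, (m (v 49) (w (m (v 17) (v 48)) (v 16) (v 18) (v 19) (v 20) (v 21)))),
  (-1, (m (v 48) (w (m (v 17) (v 49)) (v 16) (v 18) (v 19) (v 20) (v 21)))),
  (-1, (m (v 49) (w (m (v 18) (v 48)) (v 16) (v 17) (v 19) (v 20) (v 21)))),
  (1, (m (v 48) (w (m (v 18) (v 49)) (v 16) (v 17) (v 19) (v 20) (v 21)))),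
  (1, (m (v 49) (w (m (v 19) (v 48)) (v 16) (v 17) (v 18) (v 20) (v 21)))),
  (-1, (m (v 48) (w (m (v 19) (v 49)) (v 16) (v 17) (v 18) (v 20) (v 21)))),
  (-1, (m (v 49) (w (m (v 20) (v 48)) (v 16) (v 17) (v 18) (v 19) (v 21)))),
  (1, (m (v 48) (w (m (v 20) (v 49)) (v 16) (v 17) (v 18) (v 19) (v 21)))),
  (1, (m (v 49) (w (m (v 21) (v 48)) (v 16) (v 17) (v 18) (v 19) (v 20)))),
  (-1, (m (v 48) (w (m (v 21) (v 49)) (v 16) (v 17) (v 18) (v 19) (v 20))))]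

theorem z62k : zeroChk [16, 17, 18, 19, 20, 21, 48, 49] (smulP 8863474802 (expP z62q) ++ instAll [sagle] z62c) = true := by
  decide +kernel

theorem z62s : symChk [16, 17, 18, 19, 20, 21, 48, 49] z62q = true := by decide +kernel

theorem z62_ev (hM : IsMalcev A) [IsAddTorsionFree A] (b : ℕ → A) : evQ real b z62q = 0 :=
  cert_exp (anti hM) [sagle] (sagle_mem hM triv) _ z62q _ (by norm_num) z62c z62k real (real_good hM)
    (fun _ => rfl) z62s b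

end Pool.Agent.Hhelper8.Chk
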