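import Mathlib
import Pool.Agent.Hhelper8.Free
import Pool.Agent.Hhelper8.Cert.Checker
import Pool.Agent.Hhelper8.Cert.Sound
import Pool.Agent.Hhelper8.Cert.Basic
import Pool.Agent.Hhelper8.Cert.Additive
import Pool.Agent.Hhelper8.Cert.Deg6
import Pool.Agent.Hhelper8.Cert.Deg7I1
import Pool.Agent.Hhelper8.Cert.Deg7c12
import Pool.Agent.Hhelper8.Cert.Deg7g1
import Pool.Agent.Hhelper8.Cert.Deg7z62

/-!
Templates of degree seven and eight in opaque form.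
-/

namespace Pool.Agent.Hhelper8.Chk

open Pool.Agent.Hhelper8 T

variable {A : Type*} [NonUnitalNonAssocRing A]

/-- template -/
def tI1 : P := [
  (1, (w (v 4) (v 0) (v 1) (v 2) (v 3) (m (v 5) (v 6)))),
  (-1, (m (v 6) (w (v 5) (v 0) (v 1) (v 2) (v 3) (v 4)))),
  (1, (w (v 5) (v 0) (v 1) (v 2) (v 3) (m (v 4) (v 6)))),
  (-1, (m (v 6) (w (v 4) (v 0) (v 1) (v 2) (v 3) (v 5))))]

/-- template -/
def tc12 : P := [
  (-4, (m (v 6) (w (v 5) (v 0) (v 1) (v 2) (v 3) (v 4)))),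
  (1, (w (v 5) (v 0) (v 1) (v 2) (v 6) (m (v 3) (v 4)))),
  (-4, (w (m (v 5) (v 6)) (v 0) (v 1) (v 2) (v 3) (v 4))),
  (-1, (w (v 5) (v 0) (v 1) (v 3) (v 6) (m (v 2) (v 4)))),
  (1, (w (v 5) (v 0) (v 1) (v 4) (v 6) (m (v 2) (v 3)))),
  (1, (w (v 5) (v 0) (v 2) (v 3) (v 6) (m (v 1) (v 4)))),
  (-1, (w (v 5) (v 0) (v 2) (v 4) (v 6) (m (v 1) (v 3)))),
  (1, (w (v 5) (v 0) (v 3) (v 4) (v 6) (m (v 1) (v 2)))),
  (-1, (w (v 5) (v 1) (v 2) (v 3) (v 6) (m (v 0) (v 4)))),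
  (1, (w (v 5) (v 1) (v 2) (v 4) (v 6) (m (v 0) (v 3)))),
  (-1, (w (v 5) (v 1) (v 3) (v 4) (v 6) (m (v 0) (v 2)))),
  (1, (w (v 5) (v 2) (v 3) (v 4) (v 6) (m (v 0) (v 1))))]

/-- template -/
def tg1 : P := [
  (12, (w (v 6) (v 0) (v 1) (v 2) (v 3) (m (v 4) (v 5)))),
  (3, (w (v 6) (v 1) (v 2) (v 3) (v 5) (m (v 0) (v 4)))),
  (2, (w (v 6) (v 2) (v 3) (v 4) (v 5) (m (v 0) (v 1)))),
  (-3, (w (v 6) (v 1) (v 2) (v 3) (v 4) (m (v 0) (v 5)))),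
  (-2, (w (v 6) (v 1) (v 3) (v 4) (v 5) (m (v 0) (v 2)))),
  (2, (w (v 6) (v 1) (v 2) (v 4) (v 5) (m (v 0) (v 3)))),
  (-3, (w (v 6) (v 0) (v 2) (v 3) (v 5) (m (v 1) (v 4)))),
  (3, (w (v 6) (v 0) (v 2) (v 3) (v 4) (m (v 1) (v 5)))),
  (2, (w (v 6) (v 0) (v 3) (v 4) (v 5) (m (v 1) (v 2)))),
  (-2, (w (v 6) (v 0) (v 2) (v 4) (v 5) (m (v 1) (v 3)))),
  (3, (w (v 6) (v 0) (v 1) (v 3) (v 5) (m (v 2) (v 4)))),
  (-3, (w (v 6) (v 0) (v 1) (v 3) (v 4) (m (v 2) (v 5)))),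
  (2, (w (v 6) (v 0) (v 1) (v 4) (v 5) (m (v 2) (v 3)))),
  (-3, (w (v 6) (v 0) (v 1) (v 2) (v 5) (m (v 3) (v 4)))),
  (3, (w (v 6) (v 0) (v 1) (v 2) (v 4) (m (v 3) (v 5))))]

/-- template -/
def tz62 : P := [
  (-1, (m (v 7) (w (m (v 0) (v 6)) (v 1) (v 2) (v 3) (v 4) (v 5)))),
  (1, (m (v 6) (w (m (v 0) (v 7)) (v 1) (v 2) (v 3) (v 4) (v 5)))),
  (1, (m (v 7) (w (m (v 1) (v 6)) (v 0) (v 2) (v 3) (v 4) (v 5)))),
  (-1, (m (v 6) (w (m (v 1) (v 7)) (v 0) (v 2) (v 3) (v 4) (v 5)))),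
  (-1, (m (v 7) (w (m (v 2) (v 6)) (v 0) (v 1) (v 3) (v 4) (v 5)))),
  (1, (m (v 6) (w (m (v 2) (v 7)) (v 0) (v 1) (v 3) (v 4) (v 5)))),
  (1, (m (v 7) (w (m (v 3) (v 6)) (v 0) (v 1) (v 2) (v 4) (v 5)))),
  (-1, (m (v 6) (w (m (v 3) (v 7)) (v 0) (v 1) (v 2) (v 4) (v 5)))),
  (-1, (m (v 7) (w (m (v 4) (v 6)) (v 0) (v 1) (v 2) (v 3) (v 5)))),
  (1, (m (v 6) (w (m (v 4) (v 7)) (v 0) (v 1) (v 2) (v 3) (v 5)))),
  (1, (m (v 7) (w (m (v 5) (v 6)) (v 0) (v 1) (v 2) (v 3) (v 4)))),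
  (-1, (m (v 6) (w (m (v 5) (v 7)) (v 0) (v 1) (v 2) (v 3) (v 4))))]

theorem I1_el (hM : IsMalcev A) [IsAddTorsionFree A] (x y z t w r : A) :
    OmT w x y z t (w * r) - r * OmT w x y z t w = 0 := by
  have h := I1_ev hM (val [(16, x), (17, y), (18, z), (19, t), (32, w), (64, r)])
  simp [I1q, evQ, T.ev, real, val] at h
  linear_combination (norm := module) h

theorem tI1_ev (hM : IsMalcev A) [IsAddTorsionFree A] (b : ℕ → A) : evQ real b tI1 = 0 := by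
  have h1 := I1_el hM (b 0) (b 1) (b 2) (b 3) (b 4 + b 5) (b 6)
  have h2 := I1_el hM (b 0) (b 1) (b 2) (b 3) (b 4) (b 6)
  have h3 := I1_el hM (b 0) (b 1) (b 2) (b 3) (b 5) (b 6)
  simp only [add_mul, Om_add0, Om_add5, mul_add] at h1
  simp [tI1, evQ, T.ev, real]
  linear_combination (norm := module) h1 - h2 - h3

theorem tc12_ev (hM : IsMalcev A) [IsAddTorsionFree A] (b : ℕ → A) : evQ real b tc12 = 0 := by
  have h := c12_ev hM (val [(16, b 0), (17, b 1), (18, b 2), (19, b 3), (20, b 4), (32, b 5),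
    (64, b 6)])
  simp [c12q, evQ, T.ev, real, val] at h
  simp [tc12, evQ, T.ev, real]
  linear_combination (norm := module) h

theorem tg1_ev (hM : IsMalcev A) [IsAddTorsionFree A] (b : ℕ → A) : evQ real b tg1 = 0 := by
  have h := g1_ev hM (val [(16, b 0), (17, b 1), (18, b 2), (19, b 3), (48, b 4), (49, b 5),
    (64, b 6)])
  simp [g1q, evQ, T.ev, real, val] at h
  simp [tg1, evQ, T.ev, real]
  linear_combination (norm := module) h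

theorem tz62_ev (hM : IsMalcev A) [IsAddTorsionFree A] (b : ℕ → A) : evQ real b tz62 = 0 := by
  have h := z62_ev hM (val [(16, b 0), (17, b 1), (18, b 2), (19, b 3), (20, b 4), (21, b 5),
    (48, b 6), (49, b 7)])
  simp [z62q, evQ, T.ev, real, val] at h
  simp [tz62, evQ, T.ev, real]
  linear_combination (norm := module) h

/-- the templates -/
def tmW : List P := [tI1, tc12, tg1, tz62]

theorem tmW_ev (hM : IsMalcev A) [IsAddTorsionFree A] :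
    ∀ q ∈ tmW, ∀ b : ℕ → A, evQ real b q = 0 := by
  intro q hq
  simp only [tmW, List.mem_cons, List.not_mem_nil, or_false] at hq
  rcases hq with rfl | rfl | rfl | rfl
  · exact tI1_ev hM
  · exact tc12_ev hM
  · exact tg1_ev hM
  · exact tz62_ev hM

end Pool.Agent.Hhelper8.Chk
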