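import Mathlib
import Pool.Agent.Hhelper8.Free
import Pool.Agent.Hhelper8.Cert.Checker
import Pool.Agent.Hhelper8.Cert.Sound
import Pool.Agent.Hhelper8.Cert.Basic
import Pool.Agent.Hhelper8.Cert.Additive
import Pool.Agent.Hhelper8.Cert.Deg6
import Pool.Agent.Hhelper8.Cert.Tmpl

/-!
Identity Z.
-/

namespace Pool.Agent.Hhelper8.Chk

open Pool.Agent.Hhelper8 T

variable {A : Type*} [NonUnitalNonAssocRing A]

/-- certificate -/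
def Zc : List I := [
  ⟨51840, 0, [(v 96), (v 64), (v 32), (v 16), (v 17), (m (v 18) (v 19)), (v 20)], []⟩,
  ⟨196080, 0, [(v 96), (v 16), (v 17), (v 18), (v 64), (m (v 19) (v 32)), (v 20)], []⟩,
  ⟨51960, 0, [(v 96), (v 16), (v 17), (v 18), (v 64), (m (v 19) (v 20)), (v 32)], []⟩,
  ⟨-196080, 0, [(v 96), (v 16), (v 17), (v 18), (v 32), (m (v 19) (v 64)), (v 20)], []⟩,
  ⟨-51960, 0, [(v 96), (v 16), (v 17), (v 18), (v 32), (m (v 19) (v 20)), (v 64)], []⟩,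
  ⟨528480, 0, [(v 96), (v 16), (v 17), (v 18), (m (v 32) (v 64)), (v 19), (v 20)], []⟩,
  ⟨382440, 0, [(v 96), (v 16), (v 17), (v 18), (v 19), (m (v 20) (v 64)), (v 32)], []⟩,
  ⟨-382440, 0, [(v 96), (v 16), (v 17), (v 18), (v 19), (m (v 20) (v 32)), (v 64)], []⟩,
  ⟨-159000, 0, [(v 96), (v 16), (v 17), (m (v 18) (v 64)), (v 32), (v 19), (v 20)], []⟩,
  ⟨159000, 0, [(v 96), (v 16), (v 17), (m (v 18) (v 32)), (v 64), (v 19), (v 20)], []⟩,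
  ⟨360, 0, [(v 96), (v 16), (v 17), (m (v 18) (v 19)), (v 64), (v 20), (v 32)], []⟩,
  ⟨-360, 0, [(v 96), (v 16), (v 17), (m (v 18) (v 19)), (v 32), (v 20), (v 64)], []⟩,
  ⟨345600, 0, [(v 64), (v 32), (v 16), (v 17), (v 96), (m (v 18) (v 19)), (v 20)], []⟩,
  ⟨-227280, 0, [(v 64), (v 32), (v 16), (v 17), (v 18), (m (v 19) (v 96)), (v 20)], []⟩,
  ⟨594720, 0, [(v 64), (v 32), (v 16), (v 17), (v 18), (m (v 19) (v 20)), (v 96)], []⟩,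
  ⟨-38160, 0, [(v 64), (v 32), (v 16), (m (v 17) (v 18)), (v 96), (v 19), (v 20)], []⟩,
  ⟨40920, 0, [(v 64), (v 16), (v 17), (v 18), (v 96), (m (v 19) (v 32)), (v 20)], []⟩,
  ⟨-51840, 0, [(v 64), (v 16), (v 17), (v 18), (v 96), (m (v 19) (v 20)), (v 32)], []⟩,
  ⟨85680, 0, [(v 64), (v 16), (v 17), (v 18), (v 32), (m (v 19) (v 96)), (v 20)], []⟩,
  ⟨186360, 0, [(v 64), (v 16), (v 17), (v 18), (m (v 32) (v 96)), (v 19), (v 20)], []⟩,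
  ⟨-186360, 0, [(v 64), (v 16), (v 17), (v 18), (v 19), (m (v 20) (v 96)), (v 32)], []⟩,
  ⟨44760, 0, [(v 64), (v 16), (v 17), (v 18), (v 19), (m (v 20) (v 32)), (v 96)], []⟩,
  ⟨-784140, 0, [(v 64), (v 16), (v 17), (m (v 18) (v 19)), (v 32), (v 20), (v 96)], []⟩,
  ⟨-40920, 0, [(v 32), (v 16), (v 17), (v 18), (v 96), (m (v 19) (v 64)), (v 20)], []⟩,
  ⟨51840, 0, [(v 32), (v 16), (v 17), (v 18), (v 96), (m (v 19) (v 20)), (v 64)], []⟩,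
  ⟨-85680, 0, [(v 32), (v 16), (v 17), (v 18), (v 64), (m (v 19) (v 96)), (v 20)], []⟩,
  ⟨-186360, 0, [(v 32), (v 16), (v 17), (v 18), (m (v 64) (v 96)), (v 19), (v 20)], []⟩,
  ⟨186360, 0, [(v 32), (v 16), (v 17), (v 18), (v 19), (m (v 20) (v 96)), (v 64)], []⟩,
  ⟨-44760, 0, [(v 32), (v 16), (v 17), (v 18), (v 19), (m (v 20) (v 64)), (v 96)], []⟩,
  ⟨784140, 0, [(v 32), (v 16), (v 17), (m (v 18) (v 19)), (v 64), (v 20), (v 96)], []⟩,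
  ⟨-386880, 0, [(v 16), (v 17), (v 18), (v 19), (v 96), (m (v 32) (v 64)), (v 20)], []⟩,
  ⟨-405840, 0, [(v 16), (v 17), (v 18), (v 19), (v 64), (m (v 32) (v 96)), (v 20)], []⟩,
  ⟨405840, 0, [(v 16), (v 17), (v 18), (v 19), (m (v 64) (v 96)), (v 32), (v 20)], []⟩,
  ⟨219480, 0, [(v 16), (v 17), (v 18), (v 19), (m (v 64) (v 96)), (v 20), (v 32)], []⟩,
  ⟨-219480, 0, [(v 16), (v 17), (v 18), (v 19), (m (v 32) (v 96)), (v 20), (v 64)], []⟩,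
  ⟨-386880, 0, [(v 16), (v 17), (v 18), (v 19), (m (v 32) (v 64)), (v 20), (v 96)], []⟩,
  ⟨-346080, 0, [(v 16), (v 17), (v 18), (m (v 19) (v 64)), (v 96), (v 20), (v 32)], []⟩,
  ⟨255840, 0, [(v 16), (v 17), (v 18), (m (v 19) (v 64)), (v 32), (v 20), (v 96)], []⟩,
  ⟨346080, 0, [(v 16), (v 17), (v 18), (m (v 19) (v 32)), (v 96), (v 20), (v 64)], []⟩,
  ⟨-255840, 0, [(v 16), (v 17), (v 18), (m (v 19) (v 32)), (v 64), (v 20), (v 96)], []⟩,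
  ⟨138480, 0, [(v 16), (v 17), (v 18), (m (v 19) (v 20)), (v 96), (v 64), (v 32)], []⟩,
  ⟨-138480, 0, [(v 16), (v 17), (v 18), (m (v 19) (v 20)), (v 96), (v 32), (v 64)], []⟩,
  ⟨27360, 0, [(v 64), (v 32), (v 16), (v 17), (v 96), (v 18), (v 19)], [(v 20)]⟩,
  ⟨-13560, 0, [(v 64), (v 16), (v 17), (v 18), (v 96), (v 32), (v 19)], [(v 20)]⟩,
  ⟨387000, 0, [(v 64), (v 16), (v 17), (v 18), (v 96), (v 19), (v 20)], [(v 32)]⟩,
  ⟨13560, 0, [(v 32), (v 16), (v 17), (v 18), (v 96), (v 64), (v 19)], [(v 20)]⟩,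
  ⟨-387000, 0, [(v 32), (v 16), (v 17), (v 18), (v 96), (v 19), (v 20)], [(v 64)]⟩,
  ⟨-49440, 0, [(v 16), (v 17), (v 18), (v 19), (v 96), (v 64), (v 20)], [(v 32)]⟩,
  ⟨49440, 0, [(v 16), (v 17), (v 18), (v 19), (v 96), (v 32), (v 20)], [(v 64)]⟩,
  ⟨401280, 0, [(v 16), (v 17), (v 18), (v 19), (v 64), (v 20), (v 32)], [(v 96)]⟩,
  ⟨-401280, 0, [(v 16), (v 17), (v 18), (v 19), (v 32), (v 20), (v 64)], [(v 96)]⟩,
  ⟨68010, 1, [(v 96), (v 64), (v 32), (v 16), (m (v 17) (v 18)), (v 19), (v 20)], []⟩,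
  ⟨68010, 1, [(v 96), (v 64), (v 16), (v 17), (m (v 18) (v 32)), (v 19), (v 20)], []⟩,
  ⟨-1695, 1, [(v 96), (v 64), (v 16), (v 17), (m (v 18) (v 19)), (v 32), (v 20)], []⟩,
  ⟨-1695, 1, [(v 96), (v 64), (v 16), (v 17), (m (v 18) (v 19)), (v 20), (v 32)], []⟩,
  ⟨-68010, 1, [(v 96), (v 32), (v 16), (v 17), (m (v 18) (v 64)), (v 19), (v 20)], []⟩,
  ⟨1695, 1, [(v 96), (v 32), (v 16), (v 17), (m (v 18) (v 19)), (v 64), (v 20)], []⟩,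
  ⟨1695, 1, [(v 96), (v 32), (v 16), (v 17), (m (v 18) (v 19)), (v 20), (v 64)], []⟩,
  ⟨106950, 1, [(v 96), (m (v 32) (v 64)), (v 16), (v 17), (v 18), (v 19), (v 20)], []⟩,
  ⟨85380, 1, [(v 96), (v 16), (v 17), (v 18), (m (v 19) (v 64)), (v 32), (v 20)], []⟩,
  ⟨38790, 1, [(v 96), (v 16), (v 17), (v 18), (m (v 19) (v 64)), (v 20), (v 32)], []⟩,
  ⟨-85380, 1, [(v 96), (v 16), (v 17), (v 18), (m (v 19) (v 32)), (v 64), (v 20)], []⟩,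
  ⟨-38790, 1, [(v 96), (v 16), (v 17), (v 18), (m (v 19) (v 32)), (v 20), (v 64)], []⟩,
  ⟨-66060, 1, [(v 96), (v 16), (v 17), (v 18), (m (v 19) (v 20)), (v 64), (v 32)], []⟩,
  ⟨66060, 1, [(v 96), (v 16), (v 17), (v 18), (m (v 19) (v 20)), (v 32), (v 64)], []⟩,
  ⟨36360, 1, [(v 64), (v 32), (v 16), (v 17), (m (v 18) (v 96)), (v 19), (v 20)], []⟩,
  ⟨-95970, 1, [(v 64), (v 32), (v 16), (v 17), (m (v 18) (v 19)), (v 96), (v 20)], []⟩,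
  ⟨-64320, 1, [(v 64), (v 32), (v 16), (v 17), (m (v 18) (v 19)), (v 20), (v 96)], []⟩,
  ⟨-21420, 1, [(v 64), (v 16), (v 17), (v 18), (m (v 19) (v 96)), (v 32), (v 20)], []⟩,
  ⟨8175, 1, [(v 64), (v 16), (v 17), (v 18), (m (v 19) (v 20)), (v 96), (v 32)], []⟩,
  ⟨54765, 1, [(v 64), (v 16), (v 17), (v 18), (m (v 19) (v 20)), (v 32), (v 96)], []⟩,
  ⟨-101460, 1, [(m (v 64) (v 96)), (v 16), (v 17), (v 18), (v 19), (v 32), (v 20)], []⟩,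
  ⟨-101460, 1, [(m (v 64) (v 96)), (v 16), (v 17), (v 18), (v 19), (v 20), (v 32)], []⟩,
  ⟨21420, 1, [(v 32), (v 16), (v 17), (v 18), (m (v 19) (v 96)), (v 64), (v 20)], []⟩,
  ⟨-8175, 1, [(v 32), (v 16), (v 17), (v 18), (m (v 19) (v 20)), (v 96), (v 64)], []⟩,
  ⟨-54765, 1, [(v 32), (v 16), (v 17), (v 18), (m (v 19) (v 20)), (v 64), (v 96)], []⟩,
  ⟨101460, 1, [(m (v 32) (v 96)), (v 16), (v 17), (v 18), (v 19), (v 64), (v 20)], []⟩,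
  ⟨101460, 1, [(m (v 32) (v 96)), (v 16), (v 17), (v 18), (v 19), (v 20), (v 64)], []⟩,
  ⟨96720, 1, [(m (v 32) (v 64)), (v 16), (v 17), (v 18), (v 19), (v 96), (v 20)], []⟩,
  ⟨121890, 1, [(m (v 32) (v 64)), (v 16), (v 17), (v 18), (v 19), (v 20), (v 96)], []⟩,
  ⟨-10230, 1, [(v 16), (v 17), (v 18), (v 19), (m (v 20) (v 64)), (v 96), (v 32)], []⟩,
  ⟨36360, 1, [(v 16), (v 17), (v 18), (v 19), (m (v 20) (v 64)), (v 32), (v 96)], []⟩,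
  ⟨10230, 1, [(v 16), (v 17), (v 18), (v 19), (m (v 20) (v 32)), (v 96), (v 64)], []⟩,
  ⟨-36360, 1, [(v 16), (v 17), (v 18), (v 19), (m (v 20) (v 32)), (v 64), (v 96)], []⟩,
  ⟨-6840, 1, [(v 96), (v 64), (v 32), (v 16), (v 17), (v 18), (v 19)], [(v 20)]⟩,
  ⟨3390, 1, [(v 96), (v 64), (v 16), (v 17), (v 18), (v 32), (v 19)], [(v 20)]⟩,
  ⟨-96750, 1, [(v 96), (v 64), (v 16), (v 17), (v 18), (v 19), (v 20)], [(v 32)]⟩,
  ⟨-3390, 1, [(v 96), (v 32), (v 16), (v 17), (v 18), (v 64), (v 19)], [(v 20)]⟩,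
  ⟨96750, 1, [(v 96), (v 32), (v 16), (v 17), (v 18), (v 19), (v 20)], [(v 64)]⟩,
  ⟨12360, 1, [(v 96), (v 16), (v 17), (v 18), (v 19), (v 64), (v 20)], [(v 32)]⟩,
  ⟨-12360, 1, [(v 96), (v 16), (v 17), (v 18), (v 19), (v 32), (v 20)], [(v 64)]⟩,
  ⟨-13620, 1, [(v 64), (v 32), (v 16), (v 17), (v 18), (v 96), (v 19)], [(v 20)]⟩,
  ⟨-84390, 1, [(v 64), (v 16), (v 17), (v 18), (v 19), (v 96), (v 20)], [(v 32)]⟩,
  ⟨-100320, 1, [(v 64), (v 16), (v 17), (v 18), (v 19), (v 20), (v 32)], [(v 96)]⟩,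
  ⟨84390, 1, [(v 32), (v 16), (v 17), (v 18), (v 19), (v 96), (v 20)], [(v 64)]⟩,
  ⟨100320, 1, [(v 32), (v 16), (v 17), (v 18), (v 19), (v 20), (v 64)], [(v 96)]⟩,
  ⟨-100320, 1, [(v 16), (v 17), (v 18), (v 19), (v 20), (v 64), (v 32)], [(v 96)]⟩,
  ⟨100320, 1, [(v 16), (v 17), (v 18), (v 19), (v 20), (v 32), (v 64)], [(v 96)]⟩,
  ⟨11652, 2, [(v 96), (v 64), (v 32), (v 16), (v 17), (v 18), (m (v 19) (v 20))], []⟩,
  ⟨84798, 2, [(v 96), (v 64), (v 32), (m (v 16) (v 17)), (v 18), (v 19), (v 20)], []⟩,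
  ⟨-44274, 2, [(v 96), (v 64), (v 16), (m (v 17) (v 32)), (v 18), (v 19), (v 20)], []⟩,
  ⟨-22464, 2, [(v 96), (v 64), (v 16), (m (v 17) (v 18)), (v 19), (v 20), (v 32)], []⟩,
  ⟨44274, 2, [(v 96), (v 32), (v 16), (m (v 17) (v 64)), (v 18), (v 19), (v 20)], []⟩,
  ⟨22464, 2, [(v 96), (v 32), (v 16), (m (v 17) (v 18)), (v 19), (v 20), (v 64)], []⟩,
  ⟨-139965, 2, [(v 96), (m (v 32) (v 64)), (v 16), (v 17), (v 18), (v 19), (v 20)], []⟩,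
  ⟨25048, 2, [(v 96), (v 16), (v 17), (v 18), (v 64), (v 32), (m (v 19) (v 20))], []⟩,
  ⟨28460, 2, [(v 96), (v 16), (v 17), (v 18), (v 19), (m (v 20) (v 64)), (v 32)], []⟩,
  ⟨-28460, 2, [(v 96), (v 16), (v 17), (v 18), (v 19), (m (v 20) (v 32)), (v 64)], []⟩,
  ⟨75294, 2, [(v 96), (v 16), (v 17), (m (v 18) (v 64)), (v 32), (v 19), (v 20)], []⟩,
  ⟨-75294, 2, [(v 96), (v 16), (v 17), (m (v 18) (v 32)), (v 64), (v 19), (v 20)], []⟩,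
  ⟨84054, 2, [(v 96), (v 16), (v 17), (m (v 18) (v 19)), (v 64), (v 32), (v 20)], []⟩,
  ⟨14457, 2, [(v 64), (v 32), (v 16), (v 17), (v 96), (m (v 18) (v 19)), (v 20)], []⟩,
  ⟨-50340, 2, [(v 64), (v 32), (v 16), (v 17), (v 18), (v 19), (m (v 20) (v 96))], []⟩,
  ⟨45456, 2, [(v 64), (v 32), (v 16), (v 17), (v 18), (m (v 19) (v 96)), (v 20)], []⟩,
  ⟨183, 2, [(v 64), (v 32), (v 16), (v 17), (v 18), (m (v 19) (v 20)), (v 96)], []⟩,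
  ⟨-6816, 2, [(v 64), (v 32), (v 16), (m (v 17) (v 96)), (v 18), (v 19), (v 20)], []⟩,
  ⟨4044, 2, [(v 64), (v 32), (v 16), (m (v 17) (v 18)), (v 96), (v 19), (v 20)], []⟩,
  ⟨-109740, 2, [(v 64), (m (v 32) (v 96)), (v 16), (v 17), (v 18), (v 19), (v 20)], []⟩,
  ⟨-7140, 2, [(v 64), (v 16), (v 17), (v 18), (v 19), (m (v 20) (v 96)), (v 32)], []⟩,
  ⟨-34557, 2, [(v 64), (v 16), (v 17), (m (v 18) (v 19)), (v 96), (v 20), (v 32)], []⟩,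
  ⟨-109740, 2, [(m (v 64) (v 96)), (v 32), (v 16), (v 17), (v 18), (v 19), (v 20)], []⟩,
  ⟨7140, 2, [(v 32), (v 16), (v 17), (v 18), (v 19), (m (v 20) (v 96)), (v 64)], []⟩,
  ⟨34557, 2, [(v 32), (v 16), (v 17), (m (v 18) (v 19)), (v 96), (v 20), (v 64)], []⟩,
  ⟨-26948, 2, [(v 16), (v 17), (v 18), (m (v 19) (v 20)), (v 96), (v 64), (v 32)], []⟩,
  ⟨26948, 2, [(v 16), (v 17), (v 18), (m (v 19) (v 20)), (v 96), (v 32), (v 64)], []⟩,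
  ⟨17252, 2, [(v 16), (v 17), (v 18), (m (v 19) (v 20)), (v 64), (v 32), (v 96)], []⟩,
  ⟨-10488, 2, [(v 96), (v 64), (v 32), (v 16), (v 17), (v 18), (v 19)], [(v 20)]⟩,
  ⟨-1695, 2, [(v 96), (v 64), (v 16), (v 17), (v 18), (v 19), (v 32)], [(v 20)]⟩,
  ⟨-141555, 2, [(v 96), (v 64), (v 16), (v 17), (v 18), (v 19), (v 20)], [(v 32)]⟩,
  ⟨1695, 2, [(v 96), (v 32), (v 16), (v 17), (v 18), (v 19), (v 64)], [(v 20)]⟩,
  ⟨141555, 2, [(v 96), (v 32), (v 16), (v 17), (v 18), (v 19), (v 20)], [(v 64)]⟩,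
  ⟨57408, 2, [(v 64), (v 32), (v 16), (v 17), (v 96), (v 18), (v 19)], [(v 20)]⟩,
  ⟨6810, 2, [(v 64), (v 32), (v 16), (v 17), (v 18), (v 19), (v 96)], [(v 20)]⟩,
  ⟨-350940, 2, [(v 64), (v 32), (v 16), (v 17), (v 18), (v 19), (v 20)], [(v 96)]⟩,
  ⟨70800, 3, [(v 96), (v 64), (v 32), (v 16), (v 17), (v 18), (v 19), (v 20)], []⟩,
  ⟨-70800, 3, [(v 96), (v 64), (v 16), (v 17), (v 18), (v 19), (v 32), (v 20)], []⟩,
  ⟨70800, 3, [(v 96), (v 32), (v 16), (v 17), (v 18), (v 19), (v 64), (v 20)], []⟩,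
  ⟨100536, 3, [(v 96), (v 16), (v 17), (v 18), (v 19), (v 20), (v 64), (v 32)], []⟩,
  ⟨-148680, 3, [(v 64), (v 32), (v 16), (v 17), (v 18), (v 19), (v 96), (v 20)], []⟩,
  ⟨-118944, 3, [(v 64), (v 16), (v 17), (v 18), (v 19), (v 20), (v 96), (v 32)], []⟩,
  ⟨118944, 3, [(v 32), (v 16), (v 17), (v 18), (v 19), (v 20), (v 96), (v 64)], []⟩]

/-- identity -/
def Zq : P := [
  (1, (m (w (m (v 32) (v 64)) (v 16) (v 17) (v 18) (v 19) (v 20)) (v 96)))]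

theorem Zk : zeroChk [16, 17, 18, 19, 20] (smulP 1427328 Zq ++ instAll tmW Zc) = true := by
  decide +kernel

theorem Zs : symChk [16, 17, 18, 19, 20] Zq = true := by decide +kernel

theorem Z_ev (hM : IsMalcev A) [IsAddTorsionFree A] (b : ℕ → A) : evQ real b Zq = 0 :=
  cert real (real_good hM) tmW (tmW_ev hM) _ Zq _ (by norm_num) Zc Zk Zs b

/-- template -/
def tZ : P := [(1, m (w (m (v 0) (v 1)) (v 3) (v 4) (v 5) (v 6) (v 7)) (v 2))]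

theorem tZ_ev (hM : IsMalcev A) [IsAddTorsionFree A] (b : ℕ → A) : evQ real b tZ = 0 := by
  have h := Z_ev hM (val [(16, b 3), (17, b 4), (18, b 5), (19, b 6), (20, b 7), (32, b 0),
    (64, b 1), (96, b 2)])
  simpa [Zq, tZ, evQ, T.ev, real, val] using h

/-- the templates -/
def tmZ : List P := [tI1, tc12, tg1, tz62, tZ]

theorem tmZ_ev (hM : IsMalcev A) [IsAddTorsionFree A] :
    ∀ q ∈ tmZ, ∀ b : ℕ → A, evQ real b q = 0 := by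
  intro q hq
  simp only [tmZ, List.mem_cons, List.not_mem_nil, or_false] at hq
  rcases hq with rfl | rfl | rfl | rfl | rfl
  · exact tI1_ev hM
  · exact tc12_ev hM
  · exact tg1_ev hM
  · exact tz62_ev hM
  · exact tZ_ev hM

end Pool.Agent.Hhelper8.Chk
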