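import Mathlib
import Pool.Agent.Hhelper8.Free
import Pool.Agent.Hhelper8.Cert.Checker
import Pool.Agent.Hhelper8.Cert.Sound
import Pool.Agent.Hhelper8.Cert.Basic
import Pool.Agent.Hhelper8.Cert.Additive
import Pool.Agent.Hhelper8.Cert.Deg6
import Pool.Agent.Hhelper8.Cert.Tmpl
import Pool.Agent.Hhelper8.Cert.IdZ

/-!
Identity N.
-/

namespace Pool.Agent.Hhelper8.Chk

open Pool.Agent.Hhelper8 T

variable {A : Type*} [NonUnitalNonAssocRing A]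

/-- certificate -/
def Nc : List I := [
  ⟨-29502000, 0, [(v 112), (v 113), (m (v 80) (v 81)), (v 48), (v 49), (v 0), (v 0)], []⟩,
  ⟨-98835120, 0, [(v 112), (v 113), (m (v 80) (v 81)), (v 0), (v 48), (v 0), (v 49)], []⟩,
  ⟨-158574240, 0, [(v 112), (v 113), (v 48), (v 49), (m (v 80) (v 81)), (v 0), (v 0)], []⟩,
  ⟨-2605540, 0, [(v 112), (v 113), (v 48), (m (v 49) (v 80)), (v 0), (v 0), (v 81)], []⟩,
  ⟨-81133920, 0, [(v 112), (v 113), (v 48), (v 0), (v 80), (m (v 0) (v 49)), (v 81)], []⟩,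
  ⟨-76039200, 0, [(v 112), (v 113), (v 48), (v 0), (v 49), (v 0), (m (v 80) (v 81))], []⟩,
  ⟨5211080, 0, [(v 112), (v 113), (v 48), (m (v 0) (v 80)), (v 49), (v 0), (v 81)], []⟩,
  ⟨113737520, 0, [(v 112), (v 113), (m (v 48) (v 80)), (v 0), (v 49), (v 0), (v 81)], []⟩,
  ⟨109629360, 0, [(v 112), (v 113), (m (v 48) (v 49)), (v 0), (v 80), (v 0), (v 81)], []⟩,
  ⟨79466160, 0, [(v 112), (v 113), (v 0), (m (v 0) (v 80)), (v 81), (v 48), (v 49)], []⟩,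
  ⟨-81785600, 0, [(v 112), (v 113), (v 0), (m (v 0) (v 48)), (v 80), (v 49), (v 81)], []⟩,
  ⟨-28321920, 0, [(v 112), (v 80), (v 48), (m (v 0) (v 49)), (v 113), (v 81), (v 0)], []⟩,
  ⟨14160960, 0, [(v 112), (v 80), (m (v 48) (v 49)), (v 0), (v 113), (v 81), (v 0)], []⟩,
  ⟨159479280, 0, [(v 112), (v 80), (m (v 48) (v 49)), (v 0), (v 113), (v 0), (v 81)], []⟩,
  ⟨159479280, 0, [(v 112), (v 80), (m (v 48) (v 49)), (v 0), (v 81), (v 0), (v 113)], []⟩,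
  ⟨-78677920, 0, [(v 112), (v 80), (v 0), (m (v 0) (v 113)), (v 81), (v 48), (v 49)], []⟩,
  ⟨-78677920, 0, [(v 112), (v 80), (v 0), (m (v 0) (v 81)), (v 113), (v 48), (v 49)], []⟩,
  ⟨-4370080, 0, [(v 112), (v 80), (v 0), (m (v 0) (v 48)), (v 113), (v 81), (v 49)], []⟩,
  ⟨81767520, 0, [(v 112), (v 48), (v 49), (v 0), (v 113), (m (v 80) (v 81)), (v 0)], []⟩,
  ⟨6284160, 0, [(v 112), (v 48), (v 49), (v 0), (v 113), (m (v 0) (v 80)), (v 81)], []⟩,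
  ⟨86862240, 0, [(v 112), (v 48), (v 49), (v 0), (v 80), (m (v 0) (v 113)), (v 81)], []⟩,
  ⟨-6284160, 0, [(v 112), (v 48), (v 49), (v 0), (v 80), (m (v 0) (v 81)), (v 113)], []⟩,
  ⟨-65499840, 0, [(v 112), (v 48), (v 49), (m (v 0) (v 113)), (v 80), (v 0), (v 81)], []⟩,
  ⟨-9440640, 0, [(v 112), (v 48), (v 49), (m (v 0) (v 80)), (v 113), (v 81), (v 0)], []⟩,
  ⟨16910720, 0, [(v 112), (v 48), (v 0), (m (v 0) (v 113)), (v 80), (v 49), (v 81)], []⟩,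
  ⟨10422160, 0, [(v 112), (v 48), (v 0), (m (v 0) (v 80)), (v 113), (v 49), (v 81)], []⟩,
  ⟨47721280, 0, [(v 112), (v 48), (v 0), (m (v 0) (v 49)), (v 113), (v 80), (v 81)], []⟩,
  ⟨29502000, 0, [(m (v 112) (v 113)), (v 80), (v 81), (v 48), (v 49), (v 0), (v 0)], []⟩,
  ⟨98835120, 0, [(m (v 112) (v 113)), (v 80), (v 81), (v 0), (v 48), (v 0), (v 49)], []⟩,
  ⟨-429647040, 0, [(m (v 112) (v 113)), (v 48), (v 49), (v 0), (v 80), (v 0), (v 81)], []⟩,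
  ⟨158574240, 0, [(v 80), (v 81), (v 48), (v 49), (m (v 112) (v 113)), (v 0), (v 0)], []⟩,
  ⟨2605540, 0, [(v 80), (v 81), (v 48), (m (v 49) (v 112)), (v 0), (v 0), (v 113)], []⟩,
  ⟨81133920, 0, [(v 80), (v 81), (v 48), (v 0), (v 112), (m (v 0) (v 49)), (v 113)], []⟩,
  ⟨76039200, 0, [(v 80), (v 81), (v 48), (v 0), (v 49), (v 0), (m (v 112) (v 113))], []⟩,
  ⟨-5211080, 0, [(v 80), (v 81), (v 48), (m (v 0) (v 112)), (v 49), (v 0), (v 113)], []⟩,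
  ⟨-113737520, 0, [(v 80), (v 81), (m (v 48) (v 112)), (v 0), (v 49), (v 0), (v 113)], []⟩,
  ⟨-109629360, 0, [(v 80), (v 81), (m (v 48) (v 49)), (v 0), (v 112), (v 0), (v 113)], []⟩,
  ⟨-79466160, 0, [(v 80), (v 81), (v 0), (m (v 0) (v 112)), (v 113), (v 48), (v 49)], []⟩,
  ⟨81785600, 0, [(v 80), (v 81), (v 0), (m (v 0) (v 48)), (v 112), (v 49), (v 113)], []⟩,
  ⟨6284160, 0, [(v 80), (v 48), (v 49), (v 0), (v 112), (m (v 0) (v 113)), (v 81)], []⟩,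
  ⟨-86862240, 0, [(v 80), (v 48), (v 49), (v 0), (v 112), (m (v 0) (v 81)), (v 113)], []⟩,
  ⟨-81767520, 0, [(v 80), (v 48), (v 49), (v 0), (m (v 112) (v 113)), (v 81), (v 0)], []⟩,
  ⟨-6284160, 0, [(v 80), (v 48), (v 49), (v 0), (v 81), (m (v 0) (v 112)), (v 113)], []⟩,
  ⟨9440640, 0, [(v 80), (v 48), (v 49), (m (v 0) (v 112)), (v 113), (v 81), (v 0)], []⟩,
  ⟨65499840, 0, [(v 80), (v 48), (v 49), (m (v 0) (v 81)), (v 112), (v 0), (v 113)], []⟩,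
  ⟨-10422160, 0, [(v 80), (v 48), (v 0), (m (v 0) (v 112)), (v 81), (v 49), (v 113)], []⟩,
  ⟨-16910720, 0, [(v 80), (v 48), (v 0), (m (v 0) (v 81)), (v 112), (v 49), (v 113)], []⟩,
  ⟨-47721280, 0, [(v 80), (v 48), (v 0), (m (v 0) (v 49)), (v 112), (v 81), (v 113)], []⟩,
  ⟨-9440640, 0, [(m (v 80) (v 112)), (v 48), (v 49), (v 0), (v 113), (v 81), (v 0)], []⟩,
  ⟨6840000, 0, [(m (v 80) (v 112)), (v 48), (v 49), (v 0), (v 113), (v 0), (v 81)], []⟩,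
  ⟨6840000, 0, [(m (v 80) (v 112)), (v 48), (v 49), (v 0), (v 81), (v 0), (v 113)], []⟩,
  ⟨429647040, 0, [(m (v 80) (v 81)), (v 48), (v 49), (v 0), (v 112), (v 0), (v 113)], []⟩,
  ⟨116474880, 0, [(v 48), (v 49), (v 0), (m (v 0) (v 112)), (v 113), (v 80), (v 81)], []⟩,
  ⟨-116474880, 0, [(v 48), (v 49), (v 0), (m (v 0) (v 80)), (v 112), (v 81), (v 113)], []⟩,
  ⟨-114866400, 0, [(v 112), (v 113), (v 80), (v 48), (v 0), (v 0), (v 49)], [(v 81)]⟩,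
  ⟨-23601600, 0, [(v 112), (v 113), (v 80), (v 0), (v 81), (v 48), (v 49)], [(v 0)]⟩,
  ⟨32266560, 0, [(v 112), (v 113), (v 80), (v 0), (v 48), (v 0), (v 49)], [(v 81)]⟩,
  ⟨-53117660, 0, [(v 112), (v 113), (v 48), (v 49), (v 0), (v 0), (v 80)], [(v 81)]⟩,
  ⟨23601600, 0, [(v 112), (v 113), (v 48), (v 0), (v 80), (v 49), (v 81)], [(v 0)]⟩,
  ⟨38444360, 0, [(v 112), (v 113), (v 48), (v 0), (v 49), (v 0), (v 80)], [(v 81)]⟩,
  ⟨114866400, 0, [(v 112), (v 80), (v 81), (v 48), (v 0), (v 0), (v 49)], [(v 113)]⟩,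
  ⟨23601600, 0, [(v 112), (v 80), (v 81), (v 0), (v 113), (v 48), (v 49)], [(v 0)]⟩,
  ⟨-32266560, 0, [(v 112), (v 80), (v 81), (v 0), (v 48), (v 0), (v 49)], [(v 113)]⟩,
  ⟨53117660, 0, [(v 80), (v 81), (v 48), (v 49), (v 0), (v 0), (v 112)], [(v 113)]⟩,
  ⟨-23601600, 0, [(v 80), (v 81), (v 48), (v 0), (v 112), (v 49), (v 113)], [(v 0)]⟩,
  ⟨-38444360, 0, [(v 80), (v 81), (v 48), (v 0), (v 49), (v 0), (v 112)], [(v 113)]⟩,
  ⟨-1475100, 1, [(v 112), (v 113), (v 80), (v 48), (m (v 0) (v 81)), (v 49), (v 0)], []⟩,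
  ⟨-7375500, 1, [(v 112), (v 113), (v 80), (m (v 48) (v 81)), (v 0), (v 49), (v 0)], []⟩,
  ⟨28513040, 1, [(v 112), (v 113), (v 80), (v 0), (m (v 0) (v 48)), (v 49), (v 81)], []⟩,
  ⟨47019060, 1, [(v 112), (v 113), (m (v 80) (v 81)), (v 48), (v 49), (v 0), (v 0)], []⟩,
  ⟨-24708780, 1, [(v 112), (v 113), (m (v 80) (v 81)), (v 48), (v 0), (v 0), (v 49)], []⟩,
  ⟨-19009800, 1, [(v 112), (v 113), (v 48), (v 49), (v 0), (m (v 80) (v 81)), (v 0)], []⟩,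
  ⟨-19009800, 1, [(v 112), (v 113), (v 48), (v 49), (v 0), (v 0), (m (v 80) (v 81))], []⟩,
  ⟨-16588980, 1, [(v 112), (v 113), (v 48), (v 0), (m (v 0) (v 80)), (v 81), (v 49)], []⟩,
  ⟨-5702780, 1, [(v 112), (v 113), (v 48), (v 0), (m (v 0) (v 80)), (v 49), (v 81)], []⟩,
  ⟨1475100, 1, [(v 112), (v 80), (v 81), (v 48), (m (v 0) (v 113)), (v 49), (v 0)], []⟩,
  ⟨7375500, 1, [(v 112), (v 80), (v 81), (m (v 48) (v 113)), (v 0), (v 49), (v 0)], []⟩,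
  ⟨-28513040, 1, [(v 112), (v 80), (v 81), (v 0), (m (v 0) (v 48)), (v 49), (v 113)], []⟩,
  ⟨21854520, 1, [(v 112), (v 80), (v 48), (v 0), (m (v 0) (v 113)), (v 81), (v 49)], []⟩,
  ⟨4227680, 1, [(v 112), (v 80), (v 48), (v 0), (m (v 0) (v 113)), (v 49), (v 81)], []⟩,
  ⟨21854520, 1, [(v 112), (v 80), (v 48), (v 0), (m (v 0) (v 81)), (v 113), (v 49)], []⟩,
  ⟨4227680, 1, [(v 112), (v 80), (v 48), (v 0), (m (v 0) (v 81)), (v 49), (v 113)], []⟩,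
  ⟨20283480, 1, [(v 112), (v 80), (v 48), (v 0), (m (v 0) (v 49)), (v 113), (v 81)], []⟩,
  ⟨20283480, 1, [(v 112), (v 80), (v 48), (v 0), (m (v 0) (v 49)), (v 81), (v 113)], []⟩,
  ⟨8641080, 1, [(v 112), (m (v 80) (v 81)), (v 48), (v 49), (v 0), (v 113), (v 0)], []⟩,
  ⟨-13074480, 1, [(v 112), (m (v 80) (v 81)), (v 48), (v 49), (v 0), (v 0), (v 113)], []⟩,
  ⟨-1432080, 1, [(v 112), (v 48), (v 49), (v 0), (m (v 0) (v 113)), (v 80), (v 81)], []⟩,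
  ⟨15017940, 1, [(v 112), (v 48), (v 49), (v 0), (m (v 0) (v 80)), (v 81), (v 113)], []⟩,
  ⟨-47019060, 1, [(m (v 112) (v 113)), (v 80), (v 81), (v 48), (v 49), (v 0), (v 0)], []⟩,
  ⟨24708780, 1, [(m (v 112) (v 113)), (v 80), (v 81), (v 48), (v 0), (v 0), (v 49)], []⟩,
  ⟨8641080, 1, [(m (v 112) (v 113)), (v 80), (v 48), (v 49), (v 0), (v 81), (v 0)], []⟩,
  ⟨-13074480, 1, [(m (v 112) (v 113)), (v 80), (v 48), (v 49), (v 0), (v 0), (v 81)], []⟩,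
  ⟨19009800, 1, [(v 80), (v 81), (v 48), (v 49), (v 0), (m (v 112) (v 113)), (v 0)], []⟩,
  ⟨19009800, 1, [(v 80), (v 81), (v 48), (v 49), (v 0), (v 0), (m (v 112) (v 113))], []⟩,
  ⟨16588980, 1, [(v 80), (v 81), (v 48), (v 0), (m (v 0) (v 112)), (v 113), (v 49)], []⟩,
  ⟨5702780, 1, [(v 80), (v 81), (v 48), (v 0), (m (v 0) (v 112)), (v 49), (v 113)], []⟩,
  ⟨-15017940, 1, [(v 80), (v 48), (v 49), (v 0), (m (v 0) (v 112)), (v 113), (v 81)], []⟩,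
  ⟨1432080, 1, [(v 80), (v 48), (v 49), (v 0), (m (v 0) (v 81)), (v 112), (v 113)], []⟩,
  ⟨-5900400, 1, [(v 112), (v 113), (v 80), (v 48), (v 0), (v 81), (v 49)], [(v 0)]⟩,
  ⟨-5900400, 1, [(v 112), (v 113), (v 80), (v 48), (v 0), (v 49), (v 81)], [(v 0)]⟩,
  ⟨65499840, 1, [(v 112), (v 113), (v 80), (v 48), (v 0), (v 0), (v 49)], [(v 81)]⟩,
  ⟨5900400, 1, [(v 112), (v 113), (v 48), (v 49), (v 0), (v 80), (v 81)], [(v 0)]⟩,
  ⟨36169920, 1, [(v 112), (v 113), (v 48), (v 49), (v 0), (v 0), (v 80)], [(v 81)]⟩,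
  ⟨5900400, 1, [(v 112), (v 80), (v 81), (v 48), (v 0), (v 113), (v 49)], [(v 0)]⟩,
  ⟨5900400, 1, [(v 112), (v 80), (v 81), (v 48), (v 0), (v 49), (v 113)], [(v 0)]⟩,
  ⟨-65499840, 1, [(v 112), (v 80), (v 81), (v 48), (v 0), (v 0), (v 49)], [(v 113)]⟩,
  ⟨-5900400, 1, [(v 80), (v 81), (v 48), (v 49), (v 0), (v 112), (v 113)], [(v 0)]⟩,
  ⟨-36169920, 1, [(v 80), (v 81), (v 48), (v 49), (v 0), (v 0), (v 112)], [(v 113)]⟩,
  ⟨1180080, 2, [(v 112), (v 113), (v 80), (v 0), (v 81), (v 48), (m (v 0) (v 49))], []⟩,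
  ⟨-1463016, 2, [(v 112), (v 113), (v 80), (v 0), (v 81), (m (v 0) (v 48)), (v 49)], []⟩,
  ⟨-7465292, 2, [(v 112), (v 113), (v 80), (v 0), (v 48), (v 0), (m (v 49) (v 81))], []⟩,
  ⟨98340, 2, [(v 112), (v 113), (v 80), (v 0), (v 48), (m (v 0) (v 81)), (v 49)], []⟩,
  ⟨-2015077, 2, [(v 112), (v 113), (v 80), (m (v 0) (v 81)), (v 48), (v 0), (v 49)], []⟩,
  ⟨8048178, 2, [(v 112), (v 113), (m (v 80) (v 81)), (v 0), (v 48), (v 49), (v 0)], []⟩,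
  ⟨7191162, 2, [(v 112), (v 113), (v 48), (v 49), (m (v 80) (v 81)), (v 0), (v 0)], []⟩,
  ⟨-1180080, 2, [(v 112), (v 113), (v 48), (v 0), (v 80), (v 81), (m (v 0) (v 49))], []⟩,
  ⟨-414556, 2, [(v 112), (v 113), (v 48), (v 0), (v 80), (v 0), (m (v 49) (v 81))], []⟩,
  ⟨193167, 2, [(v 112), (v 113), (v 48), (v 0), (v 80), (m (v 0) (v 81)), (v 49)], []⟩,
  ⟨3729756, 2, [(v 112), (v 113), (v 48), (v 0), (v 80), (m (v 0) (v 49)), (v 81)], []⟩,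
  ⟨948132, 2, [(v 112), (v 113), (v 48), (v 0), (m (v 80) (v 81)), (v 49), (v 0)], []⟩,
  ⟨-5069280, 2, [(v 112), (v 113), (v 48), (v 0), (m (v 80) (v 81)), (v 0), (v 49)], []⟩,
  ⟨3801960, 2, [(v 112), (v 113), (v 48), (v 0), (v 49), (v 0), (m (v 80) (v 81))], []⟩,
  ⟨-641148, 2, [(v 112), (v 113), (v 48), (m (v 0) (v 80)), (v 49), (v 0), (v 81)], []⟩,
  ⟨1354674, 2, [(v 112), (v 113), (m (v 48) (v 80)), (v 0), (v 81), (v 0), (v 49)], []⟩,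
  ⟨1351056, 2, [(v 112), (v 113), (v 0), (m (v 0) (v 80)), (v 48), (v 49), (v 81)], []⟩,
  ⟨-656780, 2, [(v 112), (v 113), (v 0), (m (v 0) (v 48)), (v 80), (v 81), (v 49)], []⟩,
  ⟨4416220, 2, [(v 112), (v 113), (v 0), (m (v 0) (v 48)), (v 80), (v 49), (v 81)], []⟩,
  ⟨-1180080, 2, [(v 112), (v 80), (v 81), (v 0), (v 113), (v 48), (m (v 0) (v 49))], []⟩,
  ⟨1463016, 2, [(v 112), (v 80), (v 81), (v 0), (v 113), (m (v 0) (v 48)), (v 49)], []⟩,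
  ⟨7465292, 2, [(v 112), (v 80), (v 81), (v 0), (v 48), (v 0), (m (v 49) (v 113))], []⟩,
  ⟨-98340, 2, [(v 112), (v 80), (v 81), (v 0), (v 48), (m (v 0) (v 113)), (v 49)], []⟩,
  ⟨2015077, 2, [(v 112), (v 80), (v 81), (m (v 0) (v 113)), (v 48), (v 0), (v 49)], []⟩,
  ⟨-2392924, 2, [(v 112), (v 80), (v 48), (v 49), (v 0), (m (v 0) (v 113)), (v 81)], []⟩,
  ⟨-2392924, 2, [(v 112), (v 80), (v 48), (v 49), (v 0), (m (v 0) (v 81)), (v 113)], []⟩,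
  ⟨3108460, 2, [(v 112), (v 80), (v 48), (v 0), (v 113), (m (v 0) (v 49)), (v 81)], []⟩,
  ⟨3108460, 2, [(v 112), (v 80), (v 48), (v 0), (v 81), (m (v 0) (v 49)), (v 113)], []⟩,
  ⟨3886140, 2, [(v 112), (v 80), (v 48), (m (v 0) (v 113)), (v 49), (v 0), (v 81)], []⟩,
  ⟨3886140, 2, [(v 112), (v 80), (v 48), (m (v 0) (v 81)), (v 49), (v 0), (v 113)], []⟩,
  ⟨621296, 2, [(v 112), (v 80), (v 48), (m (v 0) (v 49)), (v 113), (v 0), (v 81)], []⟩,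
  ⟨621296, 2, [(v 112), (v 80), (v 48), (m (v 0) (v 49)), (v 81), (v 0), (v 113)], []⟩,
  ⟨-2829774, 2, [(v 112), (v 80), (m (v 48) (v 113)), (v 0), (v 81), (v 0), (v 49)], []⟩,
  ⟨7927472, 2, [(v 112), (v 80), (m (v 48) (v 113)), (v 0), (v 49), (v 0), (v 81)], []⟩,
  ⟨-2829774, 2, [(v 112), (v 80), (m (v 48) (v 81)), (v 0), (v 113), (v 0), (v 49)], []⟩,
  ⟨7927472, 2, [(v 112), (v 80), (m (v 48) (v 81)), (v 0), (v 49), (v 0), (v 113)], []⟩,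
  ⟨-152856, 2, [(v 112), (v 80), (v 0), (m (v 0) (v 113)), (v 48), (v 49), (v 81)], []⟩,
  ⟨-152856, 2, [(v 112), (v 80), (v 0), (m (v 0) (v 81)), (v 48), (v 49), (v 113)], []⟩,
  ⟨5037516, 2, [(v 112), (v 80), (v 0), (m (v 0) (v 48)), (v 113), (v 49), (v 81)], []⟩,
  ⟨5037516, 2, [(v 112), (v 80), (v 0), (m (v 0) (v 48)), (v 81), (v 49), (v 113)], []⟩,
  ⟨1376276, 2, [(v 112), (m (v 80) (v 113)), (v 48), (v 0), (v 49), (v 0), (v 81)], []⟩,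
  ⟨-3003588, 2, [(v 112), (v 48), (v 49), (v 0), (v 80), (v 0), (m (v 81) (v 113))], []⟩,
  ⟨-741180, 2, [(v 112), (v 48), (v 49), (v 0), (v 80), (m (v 0) (v 113)), (v 81)], []⟩,
  ⟨12732, 2, [(v 112), (v 48), (v 49), (m (v 0) (v 80)), (v 113), (v 0), (v 81)], []⟩,
  ⟨7927472, 2, [(v 112), (v 48), (m (v 49) (v 80)), (v 0), (v 81), (v 0), (v 113)], []⟩,
  ⟨2142825, 2, [(v 112), (v 48), (v 0), (m (v 0) (v 113)), (v 80), (v 81), (v 49)], []⟩,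
  ⟨14178492, 2, [(v 112), (v 48), (v 0), (m (v 0) (v 80)), (v 81), (v 49), (v 113)], []⟩,
  ⟨8899148, 2, [(v 112), (v 48), (v 0), (m (v 0) (v 49)), (v 80), (v 81), (v 113)], []⟩,
  ⟨-8048178, 2, [(m (v 112) (v 113)), (v 80), (v 81), (v 0), (v 48), (v 49), (v 0)], []⟩,
  ⟨-20852622, 2, [(m (v 112) (v 113)), (v 48), (v 49), (v 0), (v 80), (v 81), (v 0)], []⟩,
  ⟨18081720, 2, [(m (v 112) (v 113)), (v 48), (v 49), (v 0), (v 80), (v 0), (v 81)], []⟩,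
  ⟨-7191162, 2, [(v 80), (v 81), (v 48), (v 49), (m (v 112) (v 113)), (v 0), (v 0)], []⟩,
  ⟨1180080, 2, [(v 80), (v 81), (v 48), (v 0), (v 112), (v 113), (m (v 0) (v 49))], []⟩,
  ⟨414556, 2, [(v 80), (v 81), (v 48), (v 0), (v 112), (v 0), (m (v 49) (v 113))], []⟩,
  ⟨-193167, 2, [(v 80), (v 81), (v 48), (v 0), (v 112), (m (v 0) (v 113)), (v 49)], []⟩,
  ⟨-3729756, 2, [(v 80), (v 81), (v 48), (v 0), (v 112), (m (v 0) (v 49)), (v 113)], []⟩,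
  ⟨-948132, 2, [(v 80), (v 81), (v 48), (v 0), (m (v 112) (v 113)), (v 49), (v 0)], []⟩,
  ⟨5069280, 2, [(v 80), (v 81), (v 48), (v 0), (m (v 112) (v 113)), (v 0), (v 49)], []⟩,
  ⟨-3801960, 2, [(v 80), (v 81), (v 48), (v 0), (v 49), (v 0), (m (v 112) (v 113))], []⟩,
  ⟨641148, 2, [(v 80), (v 81), (v 48), (m (v 0) (v 112)), (v 49), (v 0), (v 113)], []⟩,
  ⟨-1354674, 2, [(v 80), (v 81), (m (v 48) (v 112)), (v 0), (v 113), (v 0), (v 49)], []⟩,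
  ⟨-1351056, 2, [(v 80), (v 81), (v 0), (m (v 0) (v 112)), (v 48), (v 49), (v 113)], []⟩,
  ⟨656780, 2, [(v 80), (v 81), (v 0), (m (v 0) (v 48)), (v 112), (v 113), (v 49)], []⟩,
  ⟨-4416220, 2, [(v 80), (v 81), (v 0), (m (v 0) (v 48)), (v 112), (v 49), (v 113)], []⟩,
  ⟨1376276, 2, [(v 80), (m (v 81) (v 112)), (v 48), (v 0), (v 49), (v 0), (v 113)], []⟩,
  ⟨-3003588, 2, [(v 80), (v 48), (v 49), (v 0), (v 112), (v 0), (m (v 81) (v 113))], []⟩,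
  ⟨741180, 2, [(v 80), (v 48), (v 49), (v 0), (v 112), (m (v 0) (v 81)), (v 113)], []⟩,
  ⟨-12732, 2, [(v 80), (v 48), (v 49), (m (v 0) (v 112)), (v 81), (v 0), (v 113)], []⟩,
  ⟨-7927472, 2, [(v 80), (v 48), (m (v 49) (v 112)), (v 0), (v 113), (v 0), (v 81)], []⟩,
  ⟨-14178492, 2, [(v 80), (v 48), (v 0), (m (v 0) (v 112)), (v 113), (v 49), (v 81)], []⟩,
  ⟨-2142825, 2, [(v 80), (v 48), (v 0), (m (v 0) (v 81)), (v 112), (v 113), (v 49)], []⟩,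
  ⟨-8899148, 2, [(v 80), (v 48), (v 0), (m (v 0) (v 49)), (v 112), (v 113), (v 81)], []⟩,
  ⟨-1376276, 2, [(m (v 80) (v 112)), (v 48), (v 49), (v 0), (v 113), (v 0), (v 81)], []⟩,
  ⟨-1376276, 2, [(m (v 80) (v 112)), (v 48), (v 49), (v 0), (v 81), (v 0), (v 113)], []⟩,
  ⟨20852622, 2, [(m (v 80) (v 81)), (v 48), (v 49), (v 0), (v 112), (v 113), (v 0)], []⟩,
  ⟨-18081720, 2, [(m (v 80) (v 81)), (v 48), (v 49), (v 0), (v 112), (v 0), (v 113)], []⟩,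
  ⟨4370412, 2, [(v 48), (v 49), (v 0), (m (v 0) (v 112)), (v 113), (v 80), (v 81)], []⟩,
  ⟨1508160, 2, [(v 48), (v 49), (v 0), (m (v 0) (v 112)), (v 80), (v 81), (v 113)], []⟩,
  ⟨-1508160, 2, [(v 48), (v 49), (v 0), (m (v 0) (v 80)), (v 112), (v 113), (v 81)], []⟩,
  ⟨4370412, 2, [(v 48), (v 49), (v 0), (m (v 0) (v 80)), (v 112), (v 81), (v 113)], []⟩,
  ⟨-78824, 2, [(v 112), (v 113), (v 80), (v 0), (v 81), (v 0), (v 48)], [(v 49)]⟩,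
  ⟨-708048, 2, [(v 112), (v 113), (v 48), (v 0), (v 80), (v 49), (v 81)], [(v 0)]⟩,
  ⟨874016, 2, [(v 112), (v 113), (v 48), (v 0), (v 80), (v 0), (v 81)], [(v 49)]⟩,
  ⟨-4706960, 2, [(v 112), (v 113), (v 48), (v 0), (v 49), (v 0), (v 80)], [(v 81)]⟩,
  ⟨-2832192, 2, [(v 112), (v 48), (v 49), (v 0), (v 80), (v 81), (v 113)], [(v 0)]⟩,
  ⟨22973280, 2, [(v 112), (v 48), (v 49), (v 0), (v 80), (v 81), (v 0)], [(v 113)]⟩,
  ⟨-3341264, 2, [(v 112), (v 48), (v 49), (v 0), (v 80), (v 0), (v 81)], [(v 113)]⟩,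
  ⟨708048, 2, [(v 80), (v 81), (v 48), (v 0), (v 112), (v 49), (v 113)], [(v 0)]⟩,
  ⟨-874016, 2, [(v 80), (v 81), (v 48), (v 0), (v 112), (v 0), (v 113)], [(v 49)]⟩,
  ⟨4706960, 2, [(v 80), (v 81), (v 48), (v 0), (v 49), (v 0), (v 112)], [(v 113)]⟩,
  ⟨2832192, 2, [(v 80), (v 48), (v 49), (v 0), (v 112), (v 113), (v 81)], [(v 0)]⟩,
  ⟨-22973280, 2, [(v 80), (v 48), (v 49), (v 0), (v 112), (v 113), (v 0)], [(v 81)]⟩,
  ⟨3341264, 2, [(v 80), (v 48), (v 49), (v 0), (v 112), (v 0), (v 113)], [(v 81)]⟩,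
  ⟨-343133280, 4, [(v 0), (v 48), (v 80), (v 0), (v 49), (v 81), (v 112), (v 113)], []⟩,
  ⟨343133280, 4, [(v 0), (v 48), (v 112), (v 0), (v 49), (v 80), (v 81), (v 113)], []⟩,
  ⟨150963840, 4, [(v 0), (v 80), (v 81), (v 0), (v 48), (v 49), (v 112), (v 113)], []⟩,
  ⟨-80578080, 4, [(v 0), (v 80), (v 112), (v 0), (v 48), (v 49), (v 81), (v 113)], []⟩,
  ⟨-80578080, 4, [(v 0), (v 112), (v 80), (v 0), (v 48), (v 49), (v 81), (v 113)], []⟩,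
  ⟨-150963840, 4, [(v 0), (v 112), (v 113), (v 0), (v 48), (v 49), (v 80), (v 81)], []⟩,
  ⟨339982560, 4, [(v 80), (v 81), (v 0), (v 0), (v 48), (v 49), (v 112), (v 113)], []⟩,
  ⟨-339982560, 4, [(v 112), (v 113), (v 0), (v 0), (v 48), (v 49), (v 80), (v 81)], []⟩]

/-- identity -/
def Nq : P := [
  (1, (w (v 0) (v 0) (v 48) (v 49) (m (v 80) (v 81)) (m (v 112) (v 113))))]

theorem Nk : zeroChk [48, 49, 80, 81, 112, 113] (smulP 1598397120 Nq ++ instAll tmZ Nc) = true := by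
  decide +kernel

theorem Ns : symChk [48, 49, 80, 81, 112, 113] Nq = true := by decide +kernel

theorem N_ev (hM : IsMalcev A) [IsAddTorsionFree A] (b : ℕ → A) : evQ real b Nq = 0 :=
  cert real (real_good hM) tmZ (tmZ_ev hM) _ Nq _ (by norm_num) Nc Nk Ns b

theorem N_el (hM : IsMalcev A) [IsAddTorsionFree A] (w a b c c' d d' : A) :
    OmT w w a b (c * c') (d * d') = 0 := by
  have h := N_ev hM (val [(0, w), (48, a), (49, b), (80, c), (81, c'), (112, d), (113, d')])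
  simpa [Nq, evQ, T.ev, real, val] using h

/-- template -/
def tN : P := [(1, w (v 6) (v 7) (m (v 0) (v 1)) (m (v 2) (v 3)) (v 4) (v 5)),
  (1, w (v 7) (v 6) (m (v 0) (v 1)) (m (v 2) (v 3)) (v 4) (v 5))]

theorem tN_ev (hM : IsMalcev A) [IsAddTorsionFree A] (b : ℕ → A) : evQ real b tN = 0 := by
  have e : ∀ u v : A, OmT u v (b 0 * b 1) (b 2 * b 3) (b 4) (b 5)
      = OmT u v (b 4) (b 5) (b 0 * b 1) (b 2 * b 3) := by
    intro u v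
    have g := real_good (A := A) hM
    have h1 := g.om23 u v (b 4) (b 0 * b 1) (b 5) (b 2 * b 3)
    have h2 := g.om34 u v (b 0 * b 1) (b 4) (b 5) (b 2 * b 3)
    have h3 := g.om34 u v (b 4) (b 5) (b 0 * b 1) (b 2 * b 3)
    have h4 := g.om45 u v (b 0 * b 1) (b 4) (b 2 * b 3) (b 5)
    have h5 := g.om34 u v (b 0 * b 1) (b 4) (b 2 * b 3) (b 5)
    simp only [real] at h1 h2 h3 h4 h5
    rw [h5, ← h4, h1, h3, neg_neg]
  have h1 := N_el hM (b 6 + b 7) (b 4) (b 5) (b 0) (b 1) (b 2) (b 3)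
  have h2 := N_el hM (b 6) (b 4) (b 5) (b 0) (b 1) (b 2) (b 3)
  have h3 := N_el hM (b 7) (b 4) (b 5) (b 0) (b 1) (b 2) (b 3)
  simp only [Om_add0, Om_add1] at h1
  simp [tN, evQ, T.ev, real]
  rw [e, e]
  linear_combination (norm := module) h1 - h2 - h3

/-- the templates -/
def tmN : List P := [tI1, tc12, tg1, tN]

theorem tmN_ev (hM : IsMalcev A) [IsAddTorsionFree A] :
    ∀ q ∈ tmN, ∀ b : ℕ → A, evQ real b q = 0 := by
  intro q hq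
  simp only [tmN, List.mem_cons, List.not_mem_nil, or_false] at hq
  rcases hq with rfl | rfl | rfl | rfl
  · exact tI1_ev hM
  · exact tc12_ev hM
  · exact tg1_ev hM
  · exact tN_ev hM

/-- certificate -/
def A7c : List I := [
  ⟨60, 0, [(m (v 96) (v 97)), (v 32), (v 16), (v 17), (v 32), (v 18), (m (v 64) (v 65))], []⟩,
  ⟨-30, 0, [(m (v 96) (v 97)), (v 16), (v 17), (v 18), (v 32), (v 32), (m (v 64) (v 65))], []⟩,
  ⟨-60, 0, [(m (v 64) (v 65)), (v 32), (v 16), (v 17), (v 32), (v 18), (m (v 96) (v 97))], []⟩,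
  ⟨30, 0, [(m (v 64) (v 65)), (v 16), (v 17), (v 18), (v 32), (v 32), (m (v 96) (v 97))], []⟩,
  ⟨-30, 1, [(m (v 96) (v 97)), (m (v 64) (v 65)), (v 32), (v 16), (v 17), (v 32), (v 18)], []⟩,
  ⟨-12, 2, [(m (v 96) (v 97)), (m (v 64) (v 65)), (v 32), (v 16), (v 32), (v 17), (v 18)], []⟩,
  ⟨-21, 2, [(m (v 96) (v 97)), (m (v 64) (v 65)), (v 32), (v 16), (v 17), (v 18), (v 32)], []⟩,
  ⟨-4, 2, [(v 32), (v 16), (v 17), (v 18), (m (v 96) (v 97)), (m (v 64) (v 65)), (v 32)], []⟩,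
  ⟨180, 3, [(v 96), (v 97), (v 64), (v 65), (v 32), (v 16), (v 32), (m (v 17) (v 18))], []⟩,
  ⟨120, 3, [(v 96), (v 97), (v 64), (v 65), (v 32), (v 16), (v 17), (m (v 18) (v 32))], []⟩,
  ⟨120, 3, [(v 96), (v 97), (v 16), (m (v 64) (v 65)), (v 32), (v 17), (v 32), (v 18)], []⟩,
  ⟨-120, 3, [(v 64), (v 65), (v 16), (m (v 96) (v 97)), (v 32), (v 17), (v 32), (v 18)], []⟩,
  ⟨120, 3, [(v 96), (v 97), (v 64), (v 65), (v 32), (v 16), (v 32), (v 17)], [(v 18)]⟩]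

/-- identity A7 -/
def A7q : P := [
  (1, m (w (v 32) (v 32) (v 16) (v 17) (v 18) (m (v 64) (v 65))) (m (v 96) (v 97))),
  (-1, m (w (v 32) (v 32) (v 16) (v 17) (v 18) (m (v 96) (v 97))) (m (v 64) (v 65))),
  (-1, w (v 32) (v 32) (v 16) (v 17) (v 18) (m (m (v 64) (v 65)) (m (v 96) (v 97))))]

theorem A7k : zeroChk [16, 17, 18] (smulP 120 A7q ++ instAll tmN A7c) = true := by
  decide +kernel

theorem A7s : symChk [16, 17, 18] A7q = true := by decide +kernel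

theorem A7_ev (hM : IsMalcev A) [IsAddTorsionFree A] (b : ℕ → A) : evQ real b A7q = 0 :=
  cert real (real_good hM) tmN (tmN_ev hM) _ A7q _ (by norm_num) A7c A7k A7s b

/-- identity A7 -/
theorem A7 (hM : IsMalcev A) [IsAddTorsionFree A] (x y z w p p' q q' : A) :
    OmT w w x y z (p * p') * (q * q') - OmT w w x y z (q * q') * (p * p')
      - OmT w w x y z ((p * p') * (q * q')) = 0 := by
  have h := A7_ev hM (val [(16, x), (17, y), (18, z), (32, w), (64, p), (65, p'), (96, q),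
    (97, q')])
  simp [A7q, evQ, T.ev, real, val] at h
  linear_combination (norm := module) h

end Pool.Agent.Hhelper8.Chk
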