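import Mathlib
import Pool.Agent.Hhelper8.Free
import Pool.Agent.Hhelper8.Interface
import Pool.Agent.Hhelper8.Cert.Checker
import Pool.Agent.Hhelper8.Cert.Sound
import Pool.Agent.Hhelper8.Cert.Basic
import Pool.Agent.Hhelper8.Cert.Additive
import Pool.Agent.Hhelper8.Cert.Deg6
import Pool.Agent.Hhelper8.Cert.Tmpl
import Pool.Agent.Hhelper8.Cert.IdZ
import Pool.Agent.Hhelper8.Cert.IdN

/-!
Identity H and Part A.
-/

namespace Pool.Agent.Hhelper8.Chk

open Pool.Agent.Hhelper8 T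

universe u

variable {A : Type*} [NonUnitalNonAssocRing A]

/-- certificate -/
def Hc : List I := [
  ⟨2, 0, [(v 32), (v 96), (v 64), (m (v 16) (m (v 17) (m (v 18) (v 32))))], []⟩,
  ⟨-2, 0, [(v 32), (v 96), (m (v 32) (m (v 16) (m (v 17) (v 18)))), (v 64)], []⟩,
  ⟨2, 0, [(v 32), (v 96), (m (v 16) (m (v 32) (m (v 17) (v 18)))), (v 64)], []⟩,
  ⟨-6, 0, [(v 32), (v 96), (m (m (v 16) (v 17)) (m (v 18) (v 32))), (v 64)], []⟩,
  ⟨-2, 0, [(v 32), (v 64), (v 96), (m (v 32) (m (v 16) (m (v 17) (v 18))))], []⟩,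
  ⟨2, 0, [(v 32), (v 64), (v 96), (m (v 16) (m (v 32) (m (v 17) (v 18))))], []⟩,
  ⟨-6, 0, [(v 32), (v 64), (v 96), (m (m (v 16) (v 17)) (m (v 18) (v 32)))], []⟩,
  ⟨2, 0, [(v 32), (v 64), (m (v 16) (m (v 17) (m (v 18) (v 32)))), (v 96)], []⟩,
  ⟨-2, 0, [(v 32), (m (v 32) (m (v 16) (m (v 17) (v 18)))), (v 96), (v 64)], []⟩,
  ⟨2, 0, [(v 32), (m (v 16) (m (v 32) (m (v 17) (v 18)))), (v 96), (v 64)], []⟩,
  ⟨2, 0, [(v 32), (m (v 16) (m (v 17) (m (v 18) (v 32)))), (v 64), (v 96)], []⟩,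
  ⟨-6, 0, [(v 32), (m (m (v 16) (v 17)) (m (v 18) (v 32))), (v 96), (v 64)], []⟩]

/-- Jacobian of trees -/
def tJ (c : ℤ) (x y z : T) : P := [(c, m (m x y) z), (c, m (m y z) x), (c, m (m z x) y)]

theorem tJ_ev (b : ℕ → A) (c : ℤ) (x y z : T) :
    evQ real b (tJ c x y z) = c • J (x.ev real b) (y.ev real b) (z.ev real b) := by
  simp [tJ, evQ, T.ev, J, smul_add, add_assoc]

/-- product with a tree on the right -/
def rmul (q : P) (t : T) : P := q.map fun x => (x.1, m x.2 t)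

theorem rmul_ev (b : ℕ → A) (q : P) (t : T) :
    evQ real b (rmul q t) = evQ real b q * t.ev real b := evQ_ctx real b t q

/-- identity H -/
def Hq : P :=
  tJ 2 (m (p (v 16) (v 17) (v 18) (v 32)) (v 32)) (v 64) (v 96)
    ++ rmul (tJ (-1) (p (v 16) (v 17) (v 18) (v 32)) (v 32) (v 64)) (v 96)
    ++ rmul (tJ 1 (p (v 16) (v 17) (v 18) (v 32)) (v 32) (v 96)) (v 64)
    ++ tJ 1 (p (v 16) (v 17) (v 18) (v 32)) (v 32) (m (v 64) (v 96))

theorem Hk : zeroChk [16, 17, 18] (smulP 1 (expP Hq) ++ instAll [sagle] Hc) = true := by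
  decide +kernel

theorem Hs : symChk [16, 17, 18] Hq = true := by decide +kernel

theorem H_ev (hM : IsMalcev A) [IsAddTorsionFree A] (b : ℕ → A) : evQ real b Hq = 0 :=
  cert6 hM [sagle] (sagle_mem hM triv) _ Hq _ (by norm_num) Hc Hk (by decide +kernel) Hs b

theorem H_id (hM : IsMalcev A) [IsAddTorsionFree A] (x y z w r s : A) :
    J (f6 x y z w w) r s = J (P6 x y z w) w r * s - J (P6 x y z w) w s * r
      - J (P6 x y z w) w (r * s) := by
  have h := H_ev hM (val [(16, x), (17, y), (18, z), (32, w), (64, r), (96, s)])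
  simp only [Hq, evQ_append, rmul_ev, tJ_ev] at h
  simp [T.ev, real, val] at h
  have h2 : J (f6 x y z w w) r s = (2 : ℤ) • J (P6 x y z w * w) r s := by
    rw [f6, J_add1, two_smul]
  rw [h2]
  linear_combination (norm := module) h

theorem partA_2 (hM : IsMalcev A) [IsAddTorsionFree A] (x y z w a b c d : A) :
    J (f6 x y z w w) (a * b) (c * d) = 0 := by
  rw [H_id hM, nrel hM, nrel hM, nrel hM]
  have h := A7 hM x y z w a b c d
  simp only [neg_mul]
  linear_combination (norm := module) -h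

theorem partA : PartA.{u} := by
  intro A _ _ hM
  exact ⟨E6 hM, partA_2 hM⟩

end Pool.Agent.Hhelper8.Chk
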