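import Mathlib
import Pool.Agent.Hhelper8.Free
import Pool.Agent.Hhelper8.Interface
import Pool.Agent.Hhelper8.Cert.Checker
import Pool.Agent.Hhelper8.Cert.Sound
import Pool.Agent.Hhelper8.Cert.Basic
import Pool.Agent.Hhelper8.Cert.Additive

/-!
Identities of the algebras of the variety V.
-/

namespace Pool.Agent.Hhelper8.Chk

open Pool.Agent.Hhelper8 T

set_option linter.unusedSimpArgs false

universe u

variable {A : Type*} [NonUnitalNonAssocRing A]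

/-- the polarised identity of degree five -/
def t5P : P := expP [(1, m (p (v 0) (v 1) (v 2) (v 3)) (v 4)), (1, m (p (v 0) (v 1) (v 2) (v 4)) (v 3))]

theorem t5P_ev (hV : IsV A) (b : ℕ → A) : evQ triv b t5P = 0 := by
  rw [t5P, ev_expP]
  have h1 := hV.f5 (b 0) (b 1) (b 2) (b 3 + b 4)
  have h2 := hV.f5 (b 0) (b 1) (b 2) (b 3)
  have h3 := hV.f5 (b 0) (b 1) (b 2) (b 4)
  simp only [P6_add4, add_mul, mul_add] at h1
  simp [evQ, T.ev, real]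
  linear_combination (norm := module) h1 - h2 - h3

/-- the templates -/
def tmV : List P := [sagle, t5P]

theorem tmV_ev (hV : IsV A) [IsAddTorsionFree A] :
    ∀ q ∈ tmV, ∀ b : ℕ → A, evQ triv b q = 0 := by
  intro q hq
  simp only [tmV, List.mem_cons, List.not_mem_nil, or_false] at hq
  rcases hq with rfl | rfl
  · exact sagle_ev hV.toIsMalcev triv
  · exact t5P_ev hV

/-! builders -/

/-- builder -/
def tP (a b c d : T) : P := [(1, p a b c d)]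
/-- builder -/
def tTh (x y a b : T) : P := [(2, p a b y x), (-1, p a b x y), (-6, m (m (m a b) x) y),
  (-6, m (m a b) (m x y))]
/-- builder -/
def tG (u a b : T) : P := [(1, m (m u a) b), (1, m u (m a b))]
/-- builder -/
def tBrG (u r s y z : T) : P := [(1, p (m u r) s y z), (1, p u (m r s) y z)]
/-- builder -/
def tThG (u x y r s : T) : P := tTh x y (m u r) s ++ tTh x y u (m r s)
/-- builder -/
def tBrS (a b c u y z : T) : P := [(1, p (m (m a b) c) u y z), (-1, p (m (m a b) u) c y z),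
  (2, p (m a b) (m c u) y z)]
/-- builder -/
def tBrP (a b c u y z : T) : P := tBrS a c b u y z ++ tBrS a u b c y z ++
  smulP (-1) (tBrS a b c u y z)
/-- builder -/
def rmulV (q : P) (t : T) : P := q.map fun x => (x.1, m x.2 t)

section
variable (b' : ℕ → A) (x y z a b c d u r s t : T)

theorem tP_ev : evQ real b' (tP a b c d)
    = P6 (a.ev real b') (b.ev real b') (c.ev real b') (d.ev real b') := by
  simp [tP, evQ, T.ev, real]

theorem tTh_ev : evQ real b' (tTh x y a b)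
    = th6 (x.ev real b') (y.ev real b') (a.ev real b') (b.ev real b') := by
  simp only [tTh, evQ, T.ev, real, th6, List.map_cons, List.map_nil, List.sum_cons, List.sum_nil]
  module

theorem tG_ev : evQ real b' (tG u a b)
    = G2 (u.ev real b') (a.ev real b') (b.ev real b') := by
  simp [tG, evQ, T.ev, real, G2]

theorem tBrG_ev : evQ real b' (tBrG u r s y z)
    = brG (u.ev real b') (r.ev real b') (s.ev real b') (y.ev real b') (z.ev real b') := by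
  simp [tBrG, evQ, T.ev, real, brG]

theorem tThG_ev : evQ real b' (tThG u x y r s)
    = thG (u.ev real b') (x.ev real b') (y.ev real b') (r.ev real b') (s.ev real b') := by
  simp only [tThG, evQ_append, tTh_ev, T.ev, thG]

theorem tBrS_ev : evQ real b' (tBrS a b c u y z)
    = brS4 (a.ev real b') (b.ev real b') (c.ev real b') (u.ev real b') (y.ev real b')
      (z.ev real b') := by
  simp only [tBrS, evQ, T.ev, real, brS4, List.map_cons, List.map_nil, List.sum_cons, List.sum_nil]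
  module

theorem tBrP_ev : evQ real b' (tBrP a b c u y z)
    = brP6 (a.ev real b') (b.ev real b') (c.ev real b') (u.ev real b') (y.ev real b')
      (z.ev real b') := by
  simp only [tBrP, evQ_append, evQ_smulP, tBrS_ev, brP6]
  module

theorem rmulV_ev (q : P) : evQ real b' (rmulV q t) = evQ real b' q * t.ev real b' :=
  evQ_ctx real b' t q

end

/-- certificate -/
def vac : List I := [
  ⟨2, 0, [(v 64), (v 96), (m (v 0) (v 32)), (v 128)], []⟩,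
  ⟨2, 0, [(v 64), (m (v 0) (v 32)), (v 128), (v 96)], []⟩,
  ⟨-1, 0, [(v 32), (v 128), (m (v 0) (v 96)), (v 64)], []⟩,
  ⟨1, 0, [(v 32), (v 128), (m (v 0) (v 64)), (v 96)], []⟩,
  ⟨-1, 0, [(v 32), (m (v 0) (v 96)), (v 64), (v 128)], []⟩,
  ⟨1, 0, [(v 32), (m (v 0) (v 64)), (v 96), (v 128)], []⟩,
  ⟨1, 0, [(v 0), (v 128), (m (v 32) (v 96)), (v 64)], []⟩,
  ⟨-1, 0, [(v 0), (v 128), (m (v 32) (v 64)), (v 96)], []⟩,
  ⟨1, 0, [(v 0), (v 96), (m (v 64) (v 128)), (v 32)], []⟩,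
  ⟨-1, 0, [(v 0), (v 96), (v 32), (m (v 64) (v 128))], []⟩,
  ⟨1, 0, [(v 0), (m (v 96) (v 128)), (v 64), (v 32)], []⟩,
  ⟨2, 0, [(v 0), (v 64), (m (v 96) (v 128)), (v 32)], []⟩,
  ⟨2, 0, [(v 0), (v 64), (v 32), (m (v 96) (v 128))], []⟩,
  ⟨1, 0, [(v 0), (m (v 64) (v 128)), (v 32), (v 96)], []⟩,
  ⟨-1, 0, [(v 0), (v 32), (v 96), (m (v 64) (v 128))], []⟩,
  ⟨-1, 0, [(v 0), (v 32), (m (v 96) (v 128)), (v 64)], []⟩,
  ⟨-2, 0, [(v 0), (v 32), (v 64), (m (v 96) (v 128))], []⟩,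
  ⟨1, 0, [(v 0), (m (v 32) (v 96)), (v 64), (v 128)], []⟩,
  ⟨-1, 0, [(v 0), (m (v 32) (v 64)), (v 96), (v 128)], []⟩,
  ⟨1, 1, [(v 128), (v 64), (v 32), (v 96), (v 0)], []⟩,
  ⟨-1, 1, [(v 128), (v 64), (v 0), (v 96), (v 32)], []⟩,
  ⟨-1, 1, [(v 32), (v 96), (v 64), (v 128), (v 0)], []⟩,
  ⟨1, 1, [(v 0), (v 128), (v 32), (v 96), (v 64)], []⟩,
  ⟨1, 1, [(v 0), (v 96), (v 64), (v 128), (v 32)], []⟩,
  ⟨-1, 1, [(v 0), (v 96), (v 32), (v 128), (v 64)], []⟩,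
  ⟨-1, 1, [(v 0), (v 64), (v 32), (v 128), (v 96)], []⟩]

/-- identity -/
def vaq : P :=
  tP (v 0) (v 32) (v 64) (m (v 96) (v 128)) ++ smulP (-1) (rmulV (tP (v 0) (v 32) (v 64) (v 96)) (v 128))

theorem vak : zeroChk [] (smulP 2 (expP vaq) ++ instAll tmV vac) = true := by
  decide +kernel

theorem va (hV : IsV A) [IsAddTorsionFree A] (a b c u r : A) :
    P6 a b c (u * r) = P6 a b c u * r := by
  have h := cert_exp_nil (anti hV.toIsMalcev) tmV (tmV_ev hV) vaq _ (by norm_num) vac vak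
    (val [(0, a), (32, b), (64, c), (96, u), (128, r)])
  simp only [vaq, evQ_append, evQ_smulP, rmulV_ev, tP_ev, tTh_ev, tG_ev, tBrG_ev, tThG_ev, tBrP_ev,
    T.ev] at h
  simp [val] at h
  linear_combination (norm := module) h

/-- certificate -/
def vcc : List I := [
  ⟨1, 0, [(v 64), (v 128), (v 96), (m (v 0) (v 32))], []⟩,
  ⟨3, 0, [(v 64), (v 128), (m (v 0) (v 32)), (v 96)], []⟩,
  ⟨-3, 0, [(v 64), (v 96), (v 128), (m (v 0) (v 32))], []⟩,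
  ⟨-1, 0, [(v 64), (m (v 0) (v 32)), (v 96), (v 128)], []⟩,
  ⟨1, 0, [(v 32), (v 96), (m (v 0) (v 64)), (v 128)], []⟩,
  ⟨-1, 0, [(v 32), (v 64), (m (v 0) (v 96)), (v 128)], []⟩,
  ⟨-1, 0, [(v 32), (m (v 0) (v 96)), (v 128), (v 64)], []⟩,
  ⟨1, 0, [(v 32), (m (v 0) (v 64)), (v 128), (v 96)], []⟩,
  ⟨1, 0, [(v 0), (v 96), (v 32), (m (v 64) (v 128))], []⟩,
  ⟨1, 0, [(v 0), (v 96), (m (v 32) (v 128)), (v 64)], []⟩,
  ⟨-1, 0, [(v 0), (v 64), (v 32), (m (v 96) (v 128))], []⟩,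
  ⟨-1, 0, [(v 0), (v 64), (m (v 32) (v 128)), (v 96)], []⟩,
  ⟨2, 0, [(v 0), (m (v 64) (v 96)), (v 32), (v 128)], []⟩,
  ⟨4, 0, [(v 0), (v 32), (v 128), (m (v 64) (v 96))], []⟩,
  ⟨1, 0, [(v 0), (v 32), (v 96), (m (v 64) (v 128))], []⟩,
  ⟨-1, 0, [(v 0), (v 32), (v 64), (m (v 96) (v 128))], []⟩,
  ⟨2, 0, [(v 0), (v 32), (m (v 64) (v 96)), (v 128)], []⟩,
  ⟨-1, 0, [(v 0), (m (v 32) (v 128)), (v 96), (v 64)], []⟩,
  ⟨1, 0, [(v 0), (m (v 32) (v 128)), (v 64), (v 96)], []⟩,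
  ⟨1, 1, [(v 96), (v 128), (v 0), (v 64), (v 32)], []⟩,
  ⟨-1, 1, [(v 64), (v 128), (v 0), (v 96), (v 32)], []⟩,
  ⟨1, 1, [(v 32), (v 128), (v 96), (v 64), (v 0)], []⟩,
  ⟨-1, 1, [(v 32), (v 128), (v 64), (v 96), (v 0)], []⟩]

/-- identity -/
def vcq : P :=
  tP (m (v 0) (v 32)) (v 64) (v 96) (v 128) ++ smulP (-1) (tP (v 0) (v 32) (m (v 64) (v 96)) (v 128))

theorem vck : zeroChk [] (smulP 2 (expP vcq) ++ instAll tmV vcc) = true := by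
  decide +kernel

theorem vc (hV : IsV A) [IsAddTorsionFree A] (a b c d u : A) :
    P6 (a * b) c d u = P6 a b (c * d) u := by
  have h := cert_exp_nil (anti hV.toIsMalcev) tmV (tmV_ev hV) vcq _ (by norm_num) vcc vck
    (val [(0, a), (32, b), (64, c), (96, d), (128, u)])
  simp only [vcq, evQ_append, evQ_smulP, rmulV_ev, tP_ev, tTh_ev, tG_ev, tBrG_ev, tThG_ev, tBrP_ev,
    T.ev] at h
  simp [val] at h
  linear_combination (norm := module) h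

/-- certificate -/
def vfc : List I := [
  ⟨4, 0, [(v 64), (v 128), (m (v 0) (v 32)), (v 96)], []⟩,
  ⟨4, 0, [(v 64), (v 96), (v 128), (m (v 0) (v 32))], []⟩,
  ⟨1, 1, [(v 0), (v 128), (v 32), (v 96), (v 64)], []⟩,
  ⟨-1, 1, [(v 0), (v 96), (v 32), (v 128), (v 64)], []⟩,
  ⟨-1, 1, [(v 0), (v 64), (v 32), (v 128), (v 96)], []⟩]

/-- identity -/
def vfq : P :=
  tTh (v 64) (v 96) (m (v 0) (v 32)) (v 128) ++ smulP (-1) (rmulV (tTh (v 64) (v 96) (v 0) (v 32)) (v 128))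

theorem vfk : zeroChk [] (smulP 2 (expP vfq) ++ instAll tmV vfc) = true := by
  decide +kernel

theorem vf (hV : IsV A) [IsAddTorsionFree A] (x y a b z : A) :
    th6 x y (a * b) z = th6 x y a b * z := by
  have h := cert_exp_nil (anti hV.toIsMalcev) tmV (tmV_ev hV) vfq _ (by norm_num) vfc vfk
    (val [(0, a), (32, b), (64, x), (96, y), (128, z)])
  simp only [vfq, evQ_append, evQ_smulP, rmulV_ev, tP_ev, tTh_ev, tG_ev, tBrG_ev, tThG_ev, tBrP_ev,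
    T.ev] at h
  simp [val] at h
  linear_combination (norm := module) h

/-- certificate -/
def vkc : List I := [
  ⟨-1, 0, [(v 64), (v 128), (m (v 0) (v 32)), (v 96)], []⟩,
  ⟨2, 0, [(v 64), (v 96), (v 128), (m (v 0) (v 32))], []⟩,
  ⟨1, 0, [(v 64), (v 96), (m (v 0) (v 32)), (v 128)], []⟩,
  ⟨-1, 0, [(v 64), (m (v 0) (v 32)), (v 128), (v 96)], []⟩,
  ⟨3, 0, [(v 64), (m (v 0) (v 32)), (v 96), (v 128)], []⟩,
  ⟨-1, 0, [(v 32), (v 128), (m (v 0) (v 96)), (v 64)], []⟩,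
  ⟨1, 0, [(v 32), (v 96), (m (v 0) (v 128)), (v 64)], []⟩,
  ⟨1, 0, [(v 32), (m (v 0) (v 128)), (v 64), (v 96)], []⟩,
  ⟨-1, 0, [(v 32), (m (v 0) (v 96)), (v 64), (v 128)], []⟩,
  ⟨1, 0, [(v 0), (v 128), (v 32), (m (v 64) (v 96))], []⟩,
  ⟨-1, 0, [(v 0), (v 128), (m (v 32) (v 64)), (v 96)], []⟩,
  ⟨-1, 0, [(v 0), (v 96), (v 32), (m (v 64) (v 128))], []⟩,
  ⟨1, 0, [(v 0), (v 96), (m (v 32) (v 64)), (v 128)], []⟩,
  ⟨-2, 0, [(v 0), (m (v 96) (v 128)), (v 32), (v 64)], []⟩,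
  ⟨1, 0, [(v 0), (v 32), (v 128), (m (v 64) (v 96))], []⟩,
  ⟨-1, 0, [(v 0), (v 32), (v 96), (m (v 64) (v 128))], []⟩,
  ⟨-2, 0, [(v 0), (v 32), (m (v 96) (v 128)), (v 64)], []⟩,
  ⟨-4, 0, [(v 0), (v 32), (v 64), (m (v 96) (v 128))], []⟩,
  ⟨1, 0, [(v 0), (m (v 32) (v 64)), (v 128), (v 96)], []⟩,
  ⟨-1, 0, [(v 0), (m (v 32) (v 64)), (v 96), (v 128)], []⟩,
  ⟨-1, 1, [(v 128), (v 64), (v 0), (v 96), (v 32)], []⟩,
  ⟨1, 1, [(v 96), (v 64), (v 0), (v 128), (v 32)], []⟩,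
  ⟨1, 1, [(v 32), (v 128), (v 64), (v 96), (v 0)], []⟩,
  ⟨-1, 1, [(v 32), (v 96), (v 64), (v 128), (v 0)], []⟩]

/-- identity -/
def vkq : P :=
  tTh (m (v 96) (v 128)) (v 64) (v 0) (v 32) ++ smulP (-1) (tP (v 96) (v 128) (v 64) (m (v 0) (v 32)))

theorem vkk : zeroChk [] (smulP 2 (expP vkq) ++ instAll tmV vkc) = true := by
  decide +kernel

theorem vk (hV : IsV A) [IsAddTorsionFree A] (d e c a b : A) :
    th6 (d * e) c a b = P6 d e c (a * b) := by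
  have h := cert_exp_nil (anti hV.toIsMalcev) tmV (tmV_ev hV) vkq _ (by norm_num) vkc vkk
    (val [(0, a), (32, b), (64, c), (96, d), (128, e)])
  simp only [vkq, evQ_append, evQ_smulP, rmulV_ev, tP_ev, tTh_ev, tG_ev, tBrG_ev, tThG_ev, tBrP_ev,
    T.ev] at h
  simp [val] at h
  linear_combination (norm := module) h

/-- certificate -/
def vlc : List I := [
  ⟨-3, 0, [(v 0), (v 96), (v 32), (v 64)], []⟩,
  ⟨-3, 0, [(v 0), (v 64), (v 96), (v 32)], []⟩,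
  ⟨3, 0, [(v 0), (v 64), (v 32), (v 96)], []⟩,
  ⟨3, 0, [(v 0), (v 32), (v 96), (v 64)], []⟩]

/-- identity -/
def vlq : P :=
  smulP 6 (rmulV [(1, m (m (v 0) (v 32)) (v 64)), (1, m (v 0) (m (v 32) (v 64)))] (v 96)) ++ tTh (v 32) (v 64) (v 0) (v 96)
    ++ smulP (-2) (tTh (v 0) (v 64) (v 32) (v 96)) ++ tTh (v 0) (v 32) (v 64) (v 96)

theorem vlk : zeroChk [] (smulP 1 (expP vlq) ++ instAll tmV vlc) = true := by
  decide +kernel

theorem vl (hV : IsV A) [IsAddTorsionFree A] (z x y b : A) :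
    (6 : ℤ) • (((z * x) * y + z * (x * y)) * b) + th6 x y z b
    - (2 : ℤ) • th6 z y x b + th6 z x y b = 0 := by
  have h := cert_exp_nil (anti hV.toIsMalcev) tmV (tmV_ev hV) vlq _ (by norm_num) vlc vlk
    (val [(0, z), (32, x), (64, y), (96, b)])
  simp only [vlq, evQ_append, evQ_smulP, rmulV_ev, tP_ev, tTh_ev, tG_ev, tBrG_ev, tThG_ev, tBrP_ev,
    T.ev] at h
  simp [val] at h
  simp only [evQ, T.ev, List.map_cons, List.map_nil, List.sum_cons, List.sum_nil, val] at h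
  simp at h
  linear_combination (norm := module) h

/-- certificate -/
def vn1c : List I := [
  ⟨-2, 0, [(v 0), (v 96), (v 64), (v 32)], []⟩,
  ⟨-3, 0, [(v 0), (v 96), (v 32), (v 64)], []⟩,
  ⟨-2, 0, [(v 0), (v 64), (v 96), (v 32)], []⟩,
  ⟨1, 0, [(v 0), (v 64), (v 32), (v 96)], []⟩]

/-- identity -/
def vn1q : P :=
  smulP 4 (rmulV (tG (v 0) (v 32) (v 64)) (v 96)) ++ smulP 2 (rmulV (tG (v 0) (v 64) (v 32)) (v 96)) ++ tTh (v 32) (v 64) (v 0) (v 96)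
    ++ smulP (-4) (tG (v 0) (m (v 32) (v 96)) (v 64)) ++ smulP (-2) (tG (v 0) (v 64) (m (v 32) (v 96))) ++ smulP (-1) (tP (v 32) (v 96) (v 64) (v 0))

theorem vn1k : zeroChk [] (smulP 1 (expP vn1q) ++ instAll tmV vn1c) = true := by
  decide +kernel

theorem vn1 (hV : IsV A) [IsAddTorsionFree A] (u x y c : A) :
    (2 : ℤ) • ((2 : ℤ) • (G2 u x c * y) + G2 u c x * y) + th6 x c u y
    = (2 : ℤ) • ((2 : ℤ) • G2 u (x * y) c + G2 u c (x * y)) + P6 x y c u := by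
  have h := cert_exp_nil (anti hV.toIsMalcev) tmV (tmV_ev hV) vn1q _ (by norm_num) vn1c vn1k
    (val [(0, u), (32, x), (64, c), (96, y)])
  simp only [vn1q, evQ_append, evQ_smulP, rmulV_ev, tP_ev, tTh_ev, tG_ev, tBrG_ev, tThG_ev, tBrP_ev,
    T.ev] at h
  simp [val] at h
  linear_combination (norm := module) h

/-- certificate -/
def vn3c : List I := [
  ⟨1, 0, [(v 0), (v 64), (v 96), (v 32)], []⟩,
  ⟨1, 0, [(v 0), (v 32), (v 96), (v 64)], []⟩]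

/-- identity -/
def vn3q : P :=
  tP (v 0) (v 96) (v 64) (v 32) ++ smulP (-4) (tG (v 0) (v 32) (m (v 96) (v 64))) ++ smulP (-2) (tG (v 0) (m (v 96) (v 64)) (v 32))
    ++ smulP (-1) (tP (v 96) (v 64) (v 32) (v 0))

theorem vn3k : zeroChk [] (smulP 1 (expP vn3q) ++ instAll tmV vn3c) = true := by
  decide +kernel

theorem vn3 (hV : IsV A) [IsAddTorsionFree A] (u b c x : A) :
    P6 u b c x
    = (2 : ℤ) • ((2 : ℤ) • G2 u x (b * c) + G2 u (b * c) x) + P6 b c x u := by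
  have h := cert_exp_nil (anti hV.toIsMalcev) tmV (tmV_ev hV) vn3q _ (by norm_num) vn3c vn3k
    (val [(0, u), (96, b), (64, c), (32, x)])
  simp only [vn3q, evQ_append, evQ_smulP, rmulV_ev, tP_ev, tTh_ev, tG_ev, tBrG_ev, tThG_ev, tBrP_ev,
    T.ev] at h
  simp [val] at h
  linear_combination (norm := module) h

/-- certificate -/
def vn2c : List I := [
  ⟨-1, 0, [(v 64), (v 128), (v 96), (m (v 0) (v 32))], []⟩,
  ⟨5, 0, [(v 64), (v 128), (m (v 0) (v 32)), (v 96)], []⟩,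
  ⟨-3, 0, [(v 64), (v 96), (v 128), (m (v 0) (v 32))], []⟩,
  ⟨3, 0, [(v 64), (v 96), (m (v 0) (v 32)), (v 128)], []⟩,
  ⟨2, 0, [(v 64), (m (v 0) (v 32)), (v 96), (v 128)], []⟩,
  ⟨1, 0, [(v 32), (v 128), (v 64), (m (v 0) (v 96))], []⟩,
  ⟨2, 0, [(v 32), (v 128), (m (v 0) (v 64)), (v 96)], []⟩,
  ⟨-3, 0, [(v 32), (v 96), (v 128), (m (v 0) (v 64))], []⟩,
  ⟨8, 0, [(v 32), (v 96), (m (v 0) (v 128)), (v 64)], []⟩,
  ⟨5, 0, [(v 32), (v 96), (m (v 0) (v 64)), (v 128)], []⟩,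
  ⟨-6, 0, [(v 32), (v 64), (m (v 0) (v 128)), (v 96)], []⟩,
  ⟨-5, 0, [(v 32), (v 64), (m (v 0) (v 96)), (v 128)], []⟩,
  ⟨-4, 0, [(v 32), (m (v 0) (v 128)), (v 96), (v 64)], []⟩,
  ⟨5, 0, [(v 32), (m (v 0) (v 128)), (v 64), (v 96)], []⟩,
  ⟨-1, 0, [(v 32), (m (v 0) (v 96)), (v 64), (v 128)], []⟩,
  ⟨-2, 0, [(v 0), (v 128), (v 64), (m (v 32) (v 96))], []⟩,
  ⟨-2, 0, [(v 0), (v 128), (m (v 32) (v 96)), (v 64)], []⟩,
  ⟨-1, 0, [(v 0), (v 96), (m (v 32) (v 64)), (v 128)], []⟩,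
  ⟨1, 0, [(v 0), (m (v 96) (v 128)), (v 32), (v 64)], []⟩,
  ⟨2, 0, [(v 0), (v 64), (v 128), (m (v 32) (v 96))], []⟩,
  ⟨5, 0, [(v 0), (v 64), (v 96), (m (v 32) (v 128))], []⟩,
  ⟨-1, 0, [(v 0), (v 64), (v 32), (m (v 96) (v 128))], []⟩,
  ⟨4, 0, [(v 0), (v 64), (m (v 32) (v 128)), (v 96)], []⟩,
  ⟨2, 0, [(v 0), (v 64), (m (v 32) (v 96)), (v 128)], []⟩,
  ⟨1, 0, [(v 0), (v 32), (v 128), (m (v 64) (v 96))], []⟩,
  ⟨3, 0, [(v 0), (v 32), (v 96), (m (v 64) (v 128))], []⟩,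
  ⟨-4, 0, [(v 0), (v 32), (v 64), (m (v 96) (v 128))], []⟩,
  ⟨1, 0, [(v 0), (v 32), (m (v 64) (v 128)), (v 96)], []⟩,
  ⟨2, 0, [(v 0), (v 32), (m (v 64) (v 96)), (v 128)], []⟩,
  ⟨-1, 0, [(v 0), (m (v 32) (v 128)), (v 96), (v 64)], []⟩,
  ⟨5, 0, [(v 0), (m (v 32) (v 128)), (v 64), (v 96)], []⟩,
  ⟨-1, 0, [(v 0), (m (v 32) (v 96)), (v 64), (v 128)], []⟩,
  ⟨1, 0, [(v 32), (v 128), (v 96), (v 64)], [(v 0)]⟩,
  ⟨-1, 0, [(v 32), (v 128), (v 64), (v 96)], [(v 0)]⟩,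
  ⟨-5, 0, [(v 0), (v 96), (v 128), (v 64)], [(v 32)]⟩,
  ⟨-1, 0, [(v 0), (v 96), (v 64), (v 32)], [(v 128)]⟩,
  ⟨-1, 0, [(v 0), (v 96), (v 32), (v 64)], [(v 128)]⟩,
  ⟨3, 0, [(v 0), (v 64), (v 128), (v 96)], [(v 32)]⟩,
  ⟨-1, 0, [(v 0), (v 64), (v 96), (v 128)], [(v 32)]⟩,
  ⟨2, 0, [(v 0), (v 64), (v 96), (v 32)], [(v 128)]⟩,
  ⟨2, 0, [(v 0), (v 64), (v 32), (v 96)], [(v 128)]⟩,
  ⟨-2, 0, [(v 0), (v 32), (v 96), (v 128)], [(v 64)]⟩,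
  ⟨3, 0, [(v 0), (v 32), (v 64), (v 128)], [(v 96)]⟩,
  ⟨-1, 1, [(v 128), (v 96), (v 64), (v 32), (v 0)], []⟩,
  ⟨1, 1, [(v 96), (v 32), (v 0), (v 128), (v 64)], []⟩,
  ⟨1, 1, [(v 32), (v 128), (v 96), (v 64), (v 0)], []⟩,
  ⟨-1, 1, [(v 0), (v 128), (v 96), (v 64), (v 32)], []⟩,
  ⟨1, 1, [(v 0), (v 128), (v 32), (v 96), (v 64)], []⟩,
  ⟨2, 1, [(v 0), (v 96), (v 64), (v 128), (v 32)], []⟩,
  ⟨-1, 1, [(v 0), (v 64), (v 32), (v 128), (v 96)], []⟩]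

/-- identity -/
def vn2q : P :=
  smulP 2 (tBrG (v 0) (v 32) (v 64) (v 96) (v 128)) ++ tBrG (v 0) (v 64) (v 32) (v 96) (v 128) ++ smulP 2 (tThG (v 0) (v 32) (v 64) (v 128) (v 96))
    ++ tThG (v 0) (v 32) (v 64) (v 96) (v 128) ++ smulP (-2) (tThG (v 0) (v 32) (v 96) (v 128) (v 64)) ++ smulP (-1) (tThG (v 0) (v 32) (v 96) (v 64) (v 128))
    ++ tP (m (v 32) (v 96)) (v 64) (v 128) (v 0) ++ smulP (-1) (tP (m (v 32) (v 64)) (v 96) (v 128) (v 0)) ++ smulP 2 (tP (v 32) (m (v 96) (v 64)) (v 128) (v 0))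

theorem vn2k : zeroChk [] (smulP 2 (expP vn2q) ++ instAll tmV vn2c) = true := by
  decide +kernel

theorem vn2 (hV : IsV A) [IsAddTorsionFree A] (u x c y z : A) :
    (2 : ℤ) • brG u x c y z + brG u c x y z + (2 : ℤ) • thG u x c z y
    + thG u x c y z - (2 : ℤ) • thG u x y z c - thG u x y c z
    + (P6 (x * y) c z u - P6 (x * c) y z u + (2 : ℤ) • P6 x (y * c) z u) = 0 := by
  have h := cert_exp_nil (anti hV.toIsMalcev) tmV (tmV_ev hV) vn2q _ (by norm_num) vn2c vn2k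
    (val [(0, u), (32, x), (64, c), (96, y), (128, z)])
  simp only [vn2q, evQ_append, evQ_smulP, rmulV_ev, tP_ev, tTh_ev, tG_ev, tBrG_ev, tThG_ev, tBrP_ev,
    T.ev] at h
  simp [val] at h
  linear_combination (norm := module) h

/-- certificate -/
def vFc : List I := [
  ⟨12, 0, [(v 96), (v 96), (m (v 0) (v 64)), (m (v 0) (v 32))], []⟩,
  ⟨-4, 0, [(v 64), (v 96), (m (v 0) (v 96)), (m (v 0) (v 32))], []⟩,
  ⟨-4, 0, [(v 64), (v 96), (m (v 0) (v 32)), (m (v 0) (v 96))], []⟩,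
  ⟨-12, 0, [(v 0), (v 96), (v 96), (m (v 64) (m (v 0) (v 32)))], []⟩,
  ⟨-12, 0, [(v 0), (v 96), (v 96), (m (v 0) (m (v 32) (v 64)))], []⟩,
  ⟨12, 0, [(v 0), (v 96), (m (v 32) (v 96)), (m (v 0) (v 64))], []⟩,
  ⟨4, 0, [(v 0), (v 64), (v 96), (m (v 96) (m (v 0) (v 32)))], []⟩,
  ⟨4, 0, [(v 0), (v 64), (v 96), (m (v 0) (m (v 32) (v 96)))], []⟩,
  ⟨4, 0, [(v 0), (v 64), (m (v 32) (v 96)), (m (v 0) (v 96))], []⟩,
  ⟨4, 0, [(v 0), (v 64), (m (v 96) (m (v 0) (v 96))), (v 32)], []⟩,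
  ⟨-8, 0, [(v 0), (v 32), (v 96), (m (v 96) (m (v 0) (v 64)))], []⟩,
  ⟨-4, 0, [(v 0), (v 32), (v 96), (m (v 64) (m (v 0) (v 96)))], []⟩,
  ⟨4, 0, [(v 0), (v 32), (v 96), (m (v 0) (m (v 64) (v 96)))], []⟩,
  ⟨-4, 0, [(v 0), (v 32), (v 64), (m (v 96) (m (v 0) (v 96)))], []⟩,
  ⟨4, 0, [(v 0), (m (v 32) (v 64)), (v 96), (m (v 0) (v 96))], []⟩,
  ⟨4, 0, [(v 0), (m (v 0) (v 96)), (v 64), (m (v 32) (v 96))], []⟩,
  ⟨4, 0, [(v 0), (m (v 0) (v 96)), (m (v 32) (v 64)), (v 96)], []⟩,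
  ⟨4, 0, [(v 0), (m (v 96) (m (v 0) (v 96))), (v 64), (v 32)], []⟩,
  ⟨-4, 0, [(v 0), (m (v 96) (m (v 0) (v 96))), (v 32), (v 64)], []⟩,
  ⟨-12, 0, [(v 0), (m (v 0) (v 64)), (v 96), (m (v 32) (v 96))], []⟩,
  ⟨-8, 0, [(v 0), (m (v 96) (m (v 0) (v 64))), (v 32), (v 96)], []⟩,
  ⟨-4, 0, [(v 0), (m (v 64) (m (v 0) (v 96))), (v 32), (v 96)], []⟩,
  ⟨4, 0, [(v 0), (m (v 0) (m (v 64) (v 96))), (v 32), (v 96)], []⟩,
  ⟨4, 0, [(v 0), (m (v 96) (m (v 0) (v 32))), (v 64), (v 96)], []⟩,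
  ⟨4, 0, [(v 0), (m (v 0) (m (v 32) (v 96))), (v 64), (v 96)], []⟩,
  ⟨-4, 0, [(v 64), (m (v 0) (v 32)), (v 96), (v 96)], [(v 0)]⟩,
  ⟨-4, 0, [(v 0), (v 96), (v 96), (v 64)], [(m (v 0) (v 32))]⟩,
  ⟨2, 0, [(v 0), (v 96), (v 96), (v 32)], [(m (v 0) (v 64))]⟩,
  ⟨4, 0, [(v 0), (v 96), (v 96), (m (v 32) (v 64))], [(v 0)]⟩,
  ⟨-12, 0, [(v 0), (v 96), (v 96), (m (v 0) (v 64))], [(v 32)]⟩,
  ⟨4, 0, [(v 0), (v 96), (v 64), (v 32)], [(m (v 0) (v 96))]⟩,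
  ⟨-4, 0, [(v 0), (v 96), (v 32), (v 64)], [(m (v 0) (v 96))]⟩,
  ⟨4, 0, [(v 0), (v 96), (m (v 32) (v 96)), (v 64)], [(v 0)]⟩,
  ⟨4, 0, [(v 0), (v 64), (v 96), (v 32)], [(m (v 0) (v 96))]⟩,
  ⟨4, 0, [(v 0), (v 64), (v 96), (m (v 0) (v 96))], [(v 32)]⟩,
  ⟨-6, 0, [(v 0), (v 32), (v 96), (v 96)], [(m (v 0) (v 64))]⟩,
  ⟨-4, 0, [(v 0), (v 32), (v 64), (v 96)], [(m (v 0) (v 96))]⟩,
  ⟨4, 0, [(v 0), (m (v 32) (v 96)), (v 96), (v 64)], [(v 0)]⟩,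
  ⟨4, 0, [(v 0), (m (v 0) (v 96)), (v 64), (v 96)], [(v 32)]⟩,
  ⟨4, 0, [(v 0), (v 96), (v 96), (v 64)], [(v 0), (v 32)]⟩,
  ⟨-4, 0, [(v 0), (v 96), (v 96), (v 32)], [(v 64), (v 0)]⟩,
  ⟨4, 0, [(v 0), (v 96), (v 96), (v 32)], [(v 0), (v 64)]⟩,
  ⟨-4, 0, [(v 0), (v 96), (v 64), (v 32)], [(v 96), (v 0)]⟩,
  ⟨4, 0, [(v 0), (v 96), (v 32), (v 64)], [(v 96), (v 0)]⟩,
  ⟨-4, 0, [(v 0), (v 64), (v 96), (v 32)], [(v 96), (v 0)]⟩,
  ⟨4, 0, [(v 0), (v 32), (v 64), (v 96)], [(v 96), (v 0)]⟩,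
  ⟨-12, 0, [(v 0), (v 32), (v 64), (v 0)], [(v 96), (v 96)]⟩,
  ⟨-6, 1, [(v 96), (v 32), (v 0), (v 96), (m (v 0) (v 64))], []⟩,
  ⟨-6, 1, [(v 32), (v 96), (m (v 0) (v 64)), (v 96), (v 0)], []⟩,
  ⟨-3, 1, [(v 0), (v 32), (m (v 0) (v 64)), (v 96), (v 96)], []⟩,
  ⟨-6, 1, [(m (v 0) (v 64)), (v 96), (v 0), (v 96), (v 32)], []⟩]

/-- identity -/
def vFq : P :=
  tP (m (v 0) (v 64)) (m (v 32) (v 0)) (v 96) (v 96) ++ smulP (-1) (tP (m (m (v 0) (v 32)) (v 64)) (v 0) (v 96) (v 96))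
    ++ smulP (-1) (tP (m (m (v 32) (v 64)) (v 0)) (v 0) (v 96) (v 96)) ++ smulP (-1) (tP (m (m (v 64) (v 0)) (v 0)) (v 32) (v 96) (v 96))

theorem vFk : zeroChk [] (smulP 6 (expP vFq) ++ instAll tmV vFc) = true := by
  decide +kernel

theorem vF (hV : IsV A) [IsAddTorsionFree A] (x y z u : A) :
    P6 (x * z) (y * x) u u - P6 ((x * y) * z) x u u - P6 ((y * z) * x) x u u
    - P6 ((z * x) * x) y u u = 0 := by
  have h := cert_exp_nil (anti hV.toIsMalcev) tmV (tmV_ev hV) vFq _ (by norm_num) vFc vFk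
    (val [(0, x), (32, y), (64, z), (96, u)])
  simp only [vFq, evQ_append, evQ_smulP, rmulV_ev, tP_ev, tTh_ev, tG_ev, tBrG_ev, tThG_ev, tBrP_ev,
    T.ev] at h
  simp [val] at h
  linear_combination (norm := module) h

/-- certificate -/
def vhc : List I := [
  ⟨74019570145833666436, 0, [(v 80), (v 96), (v 81), (m (v 48) (m (v 0) (v 49)))], []⟩,
  ⟨6556332453973227018, 0, [(v 80), (v 96), (v 81), (m (v 0) (m (v 48) (v 49)))], []⟩,
  ⟨-89425975387321553096, 0, [(v 80), (v 96), (m (v 48) (v 81)), (m (v 0) (v 49))], []⟩,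
  ⟨46805360472517429506, 0, [(v 80), (v 96), (m (v 0) (v 81)), (m (v 48) (v 49))], []⟩,
  ⟨-75106352821980521316, 0, [(v 80), (v 96), (m (v 48) (m (v 0) (v 49))), (v 81)], []⟩,
  ⟨-16273361404123507274, 0, [(v 80), (v 81), (m (v 48) (v 49)), (m (v 0) (v 96))], []⟩,
  ⟨-62485008804258639870, 0, [(v 80), (v 81), (m (v 0) (v 96)), (m (v 48) (v 49))], []⟩,
  ⟨7294692349079966100, 0, [(v 80), (v 81), (m (v 0) (v 48)), (m (v 49) (v 96))], []⟩,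
  ⟨13305259366344273720, 0, [(v 80), (v 81), (m (v 48) (m (v 0) (v 49))), (v 96)], []⟩,
  ⟨-1281479305341858878, 0, [(v 80), (v 81), (m (v 0) (m (v 48) (v 49))), (v 96)], []⟩,
  ⟨-38753066197773148916, 0, [(v 80), (m (v 48) (v 81)), (v 96), (m (v 0) (v 49))], []⟩,
  ⟨-1045857597032484888, 0, [(v 80), (m (v 48) (v 81)), (m (v 0) (v 49)), (v 96)], []⟩,
  ⟨-62081233481928908044, 0, [(v 80), (m (v 48) (v 49)), (v 96), (m (v 0) (v 81))], []⟩,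
  ⟨17923194927638758128, 0, [(v 80), (m (v 48) (v 49)), (v 81), (m (v 0) (v 96))], []⟩,
  ⟨-26958639690441179910, 0, [(v 80), (m (v 0) (v 81)), (v 96), (m (v 48) (v 49))], []⟩,
  ⟨22732504072123096492, 0, [(v 80), (m (v 0) (v 81)), (m (v 48) (v 49)), (v 96)], []⟩,
  ⟨-17765702184490113156, 0, [(v 80), (m (v 0) (v 48)), (v 96), (m (v 49) (v 81))], []⟩,
  ⟨-84552320847782987740, 0, [(v 80), (m (v 0) (v 48)), (m (v 49) (v 81)), (v 96)], []⟩,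
  ⟨-27203720521018966308, 0, [(v 48), (v 96), (v 80), (m (v 81) (m (v 0) (v 49)))], []⟩,
  ⟨111223617944186218892, 0, [(v 48), (v 96), (v 80), (m (v 49) (m (v 0) (v 81)))], []⟩,
  ⟨55888959274371530148, 0, [(v 48), (v 96), (v 49), (m (v 80) (m (v 0) (v 81)))], []⟩,
  ⟨-21142073046170990896, 0, [(v 48), (v 96), (v 49), (m (v 0) (m (v 80) (v 81)))], []⟩,
  ⟨-24598261281533599532, 0, [(v 48), (v 96), (m (v 49) (v 80)), (m (v 0) (v 81))], []⟩,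
  ⟨2286202300272693484, 0, [(v 48), (v 96), (m (v 0) (v 80)), (m (v 49) (v 81))], []⟩,
  ⟨67062507801997332276, 0, [(v 48), (v 96), (m (v 80) (m (v 0) (v 81))), (v 49)], []⟩,
  ⟨-3385107889705151716, 0, [(v 48), (v 96), (m (v 0) (m (v 80) (v 81))), (v 49)], []⟩,
  ⟨17310392347986815916, 0, [(v 48), (v 96), (m (v 0) (v 49)), (m (v 80) (v 81))], []⟩,
  ⟨246025450804188407228, 0, [(v 48), (v 96), (m (v 80) (m (v 0) (v 49))), (v 81)], []⟩,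
  ⟨12700479471005890092, 0, [(v 48), (v 96), (m (v 49) (m (v 0) (v 80))), (v 81)], []⟩,
  ⟨220943993580871659924, 0, [(v 48), (v 80), (v 96), (m (v 81) (m (v 0) (v 49)))], []⟩,
  ⟨92516197071676844664, 0, [(v 48), (v 80), (v 96), (m (v 49) (m (v 0) (v 81)))], []⟩,
  ⟨133438462758227271324, 0, [(v 48), (v 80), (v 81), (m (v 96) (m (v 0) (v 49)))], []⟩,
  ⟨4501565242854024376, 0, [(v 48), (v 80), (v 49), (m (v 96) (m (v 0) (v 81)))], []⟩,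
  ⟨-6725951132549023792, 0, [(v 48), (v 80), (v 49), (m (v 81) (m (v 0) (v 96)))], []⟩,
  ⟨13118161345690853728, 0, [(v 48), (v 80), (v 49), (m (v 0) (m (v 81) (v 96)))], []⟩,
  ⟨-11656984132733249712, 0, [(v 48), (v 80), (m (v 0) (v 81)), (m (v 49) (v 96))], []⟩,
  ⟨34771828653875556944, 0, [(v 48), (v 80), (m (v 96) (m (v 0) (v 81))), (v 49)], []⟩,
  ⟨864077532585679440, 0, [(v 48), (v 80), (m (v 0) (m (v 81) (v 96))), (v 49)], []⟩,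
  ⟨25467282464026756912, 0, [(v 48), (v 80), (m (v 0) (v 49)), (m (v 81) (v 96))], []⟩,
  ⟨221755980318678733004, 0, [(v 48), (v 80), (m (v 96) (m (v 0) (v 49))), (v 81)], []⟩,
  ⟨-7588167221720615568, 0, [(v 48), (m (v 80) (v 96)), (m (v 0) (v 49)), (v 81)], []⟩,
  ⟨37801881530429573298, 0, [(v 48), (m (v 80) (v 81)), (m (v 0) (v 49)), (v 96)], []⟩,
  ⟨3360458417456058152, 0, [(v 48), (v 49), (m (v 96) (m (v 0) (v 80))), (v 81)], []⟩,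
  ⟨-6653533440930318644, 0, [(v 48), (v 49), (m (v 80) (m (v 0) (v 81))), (v 96)], []⟩,
  ⟨-3689326204054825842, 0, [(v 48), (v 49), (m (v 0) (m (v 80) (v 81))), (v 96)], []⟩,
  ⟨-15109664275029959784, 0, [(v 48), (m (v 0) (v 96)), (v 80), (m (v 49) (v 81))], []⟩,
  ⟨2454080429591641384, 0, [(v 48), (m (v 0) (v 96)), (m (v 49) (v 80)), (v 81)], []⟩,
  ⟨-17744791621753228996, 0, [(v 48), (m (v 0) (v 80)), (v 96), (m (v 49) (v 81))], []⟩,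
  ⟨-20225323269980720386, 0, [(v 48), (m (v 0) (v 49)), (v 96), (m (v 80) (v 81))], []⟩,
  ⟨96289140473943585184, 0, [(v 48), (m (v 0) (v 49)), (v 80), (m (v 81) (v 96))], []⟩,
  ⟨9743658743994218528, 0, [(v 48), (m (v 0) (v 49)), (m (v 80) (v 96)), (v 81)], []⟩,
  ⟨-8487060165623063992, 0, [(v 48), (m (v 0) (v 49)), (m (v 80) (v 81)), (v 96)], []⟩,
  ⟨25893144468270655008, 0, [(v 48), (m (v 0) (m (v 49) (v 96))), (v 80), (v 81)], []⟩,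
  ⟨-39386333742996156700, 0, [(v 48), (m (v 80) (m (v 0) (v 49))), (v 81), (v 96)], []⟩,
  ⟨78758370208382147144, 0, [(v 0), (v 96), (v 80), (m (v 81) (m (v 48) (v 49)))], []⟩,
  ⟨-4271870702957382408, 0, [(v 0), (v 96), (v 80), (m (v 48) (m (v 49) (v 81)))], []⟩,
  ⟨-18210542093936596776, 0, [(v 0), (v 96), (m (v 80) (m (v 48) (v 81))), (v 49)], []⟩,
  ⟨-2354863477103191996, 0, [(v 0), (v 96), (m (v 48) (m (v 80) (v 81))), (v 49)], []⟩,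
  ⟨-134117049349233315002, 0, [(v 0), (v 96), (m (v 80) (m (v 48) (v 49))), (v 81)], []⟩,
  ⟨16480591304716954592, 0, [(v 0), (v 96), (m (v 48) (m (v 49) (v 80))), (v 81)], []⟩,
  ⟨-92848790881564783682, 0, [(v 0), (v 80), (v 96), (m (v 81) (m (v 48) (v 49)))], []⟩,
  ⟨15979693637126727468, 0, [(v 0), (v 80), (v 96), (m (v 48) (m (v 49) (v 81)))], []⟩,
  ⟨-66681477188844359454, 0, [(v 0), (v 80), (v 81), (m (v 96) (m (v 48) (v 49)))], []⟩,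
  ⟨44496731248301526014, 0, [(v 0), (v 80), (v 81), (m (v 48) (m (v 49) (v 96)))], []⟩,
  ⟨78864009644261165236, 0, [(v 0), (v 80), (v 48), (m (v 96) (m (v 49) (v 81)))], []⟩,
  ⟨72480335648916644500, 0, [(v 0), (v 80), (v 48), (m (v 81) (m (v 49) (v 96)))], []⟩,
  ⟨-63813672384685818316, 0, [(v 0), (v 80), (m (v 96) (m (v 48) (v 81))), (v 49)], []⟩,
  ⟨-33265055633864817548, 0, [(v 0), (v 80), (m (v 81) (m (v 48) (v 96))), (v 49)], []⟩,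
  ⟨25333809447708179384, 0, [(v 0), (v 80), (m (v 48) (m (v 81) (v 96))), (v 49)], []⟩,
  ⟨-12536280350280084662, 0, [(v 0), (v 80), (m (v 48) (v 49)), (m (v 81) (v 96))], []⟩,
  ⟨-103920827493437630884, 0, [(v 0), (v 80), (m (v 96) (m (v 48) (v 49))), (v 81)], []⟩,
  ⟨18045761467000322778, 0, [(v 0), (v 80), (m (v 48) (m (v 49) (v 96))), (v 81)], []⟩,
  ⟨-8925631259770440960, 0, [(v 0), (m (v 80) (v 96)), (v 81), (m (v 48) (v 49))], []⟩,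
  ⟨60282100297849359004, 0, [(v 0), (m (v 80) (v 96)), (v 48), (m (v 49) (v 81))], []⟩,
  ⟨63754084521607632030, 0, [(v 0), (m (v 80) (v 81)), (v 48), (m (v 49) (v 96))], []⟩,
  ⟨25893144468270655008, 0, [(v 0), (m (v 80) (v 81)), (m (v 48) (v 96)), (v 49)], []⟩,
  ⟨4698468590964998766, 0, [(v 0), (m (v 80) (m (v 81) (v 96))), (v 48), (v 49)], []⟩,
  ⟨-21557064507646362300, 0, [(v 0), (v 48), (v 96), (m (v 80) (m (v 49) (v 81)))], []⟩,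
  ⟨-6132196688519871996, 0, [(v 0), (v 48), (v 96), (m (v 49) (m (v 80) (v 81)))], []⟩,
  ⟨-37111371546815133884, 0, [(v 0), (v 48), (v 80), (m (v 96) (m (v 49) (v 81)))], []⟩,
  ⟨-1233357236234114860, 0, [(v 0), (v 48), (v 80), (m (v 81) (m (v 49) (v 96)))], []⟩,
  ⟨4308865551293758788, 0, [(v 0), (v 48), (v 80), (m (v 49) (m (v 81) (v 96)))], []⟩,
  ⟨-39873511335273948124, 0, [(v 0), (v 48), (m (v 96) (m (v 80) (v 81))), (v 49)], []⟩,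
  ⟨29835086103904784382, 0, [(v 0), (v 48), (m (v 80) (m (v 81) (v 96))), (v 49)], []⟩,
  ⟨-55724330669149330574, 0, [(v 0), (v 48), (v 49), (m (v 96) (m (v 80) (v 81)))], []⟩,
  ⟨48758339917890749678, 0, [(v 0), (v 48), (v 49), (m (v 80) (m (v 81) (v 96)))], []⟩,
  ⟨433033028250440092, 0, [(v 0), (v 48), (m (v 49) (v 80)), (m (v 81) (v 96))], []⟩,
  ⟨24066464598148876036, 0, [(v 0), (v 48), (m (v 96) (m (v 49) (v 80))), (v 81)], []⟩,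
  ⟨27086298162536324680, 0, [(v 0), (v 48), (m (v 80) (m (v 49) (v 96))), (v 81)], []⟩,
  ⟨17055441520481108676, 0, [(v 0), (m (v 48) (v 96)), (m (v 80) (v 81)), (v 49)], []⟩,
  ⟨-22063019604119870428, 0, [(v 0), (m (v 48) (v 96)), (v 49), (m (v 80) (v 81))], []⟩,
  ⟨3012657410763262576, 0, [(v 0), (m (v 48) (v 80)), (v 96), (m (v 49) (v 81))], []⟩,
  ⟨-37613093416186703592, 0, [(v 0), (m (v 48) (v 80)), (v 81), (m (v 49) (v 96))], []⟩,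
  ⟨267946712953492676, 0, [(v 0), (m (v 48) (v 80)), (v 49), (m (v 81) (v 96))], []⟩,
  ⟨433033028250440092, 0, [(v 0), (m (v 48) (m (v 80) (v 96))), (v 49), (v 81)], []⟩,
  ⟨-11734524186705664478, 0, [(v 0), (m (v 48) (v 49)), (v 96), (m (v 80) (v 81))], []⟩,
  ⟨-3585001301203102872, 0, [(v 0), (m (v 48) (v 49)), (v 80), (m (v 81) (v 96))], []⟩,
  ⟨-5347347385797494766, 0, [(v 0), (m (v 48) (v 49)), (m (v 80) (v 96)), (v 81)], []⟩,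
  ⟨22430681317160003796, 0, [(v 0), (m (v 48) (v 49)), (m (v 80) (v 81)), (v 96)], []⟩,
  ⟨25815789206865155512, 0, [(v 0), (m (v 96) (m (v 48) (v 49))), (v 80), (v 81)], []⟩,
  ⟨397305321635056378, 0, [(v 0), (m (v 48) (m (v 49) (v 96))), (v 80), (v 81)], []⟩,
  ⟨4483269853211815326, 0, [(v 0), (m (v 80) (m (v 48) (v 49))), (v 81), (v 96)], []⟩,
  ⟨-13118161345690853728, 0, [(v 0), (m (v 48) (m (v 49) (v 80))), (v 81), (v 96)], []⟩,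
  ⟨56503761283396333626, 0, [(v 80), (v 96), (v 81), (m (v 48) (v 49))], [(v 0)]⟩,
  ⟨43166601725637247720, 0, [(v 80), (v 96), (v 81), (m (v 0) (v 48))], [(v 49)]⟩,
  ⟨17632799180547619676, 0, [(v 48), (v 96), (v 80), (v 81)], [(m (v 0) (v 49))]⟩,
  ⟨11964642764480307556, 0, [(v 48), (v 96), (v 80), (v 49)], [(m (v 0) (v 81))]⟩,
  ⟨49801924773075686044, 0, [(v 48), (v 96), (v 80), (m (v 0) (v 49))], [(v 81)]⟩,
  ⟨571989320225374732, 0, [(v 48), (v 96), (v 49), (m (v 80) (v 81))], [(v 0)]⟩,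
  ⟨9420527402831532816, 0, [(v 48), (v 96), (v 49), (m (v 0) (v 80))], [(v 81)]⟩,
  ⟨22505766908957139984, 0, [(v 48), (v 80), (v 96), (v 49)], [(m (v 0) (v 81))]⟩,
  ⟨197191934768393768, 0, [(v 48), (v 80), (v 96), (m (v 49) (v 81))], [(v 0)]⟩,
  ⟨9042876036257238588, 0, [(v 48), (v 80), (v 81), (v 96)], [(m (v 0) (v 49))]⟩,
  ⟨6132196688519871996, 0, [(v 48), (v 80), (v 81), (v 49)], [(m (v 0) (v 96))]⟩,
  ⟨-656754889431426186, 0, [(v 48), (v 80), (m (v 81) (v 96)), (v 49)], [(v 0)]⟩,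
  ⟨-1769553243729670892, 0, [(v 48), (v 80), (v 49), (v 81)], [(m (v 0) (v 96))]⟩,
  ⟨-17831293942309060044, 0, [(v 48), (v 80), (v 49), (m (v 0) (v 81))], [(v 96)]⟩,
  ⟨-7480205366224205186, 0, [(v 48), (m (v 80) (v 96)), (v 81), (v 49)], [(v 0)]⟩,
  ⟨-8757021668465604528, 0, [(v 48), (m (v 0) (v 96)), (v 80), (v 81)], [(v 49)]⟩,
  ⟨40615045761567885812, 0, [(v 48), (m (v 0) (v 80)), (v 96), (v 81)], [(v 49)]⟩,
  ⟨-62608581632732891104, 0, [(v 48), (m (v 0) (v 49)), (v 80), (v 96)], [(v 81)]⟩,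
  ⟨62509066390089087832, 0, [(v 48), (m (v 0) (v 49)), (v 80), (v 81)], [(v 96)]⟩,
  ⟨-27374775168355628448, 0, [(v 0), (v 96), (v 80), (v 81)], [(m (v 48) (v 49))]⟩,
  ⟨-38130554165685274945, 0, [(v 0), (v 96), (v 48), (v 49)], [(m (v 80) (v 81))]⟩,
  ⟨4732989267269610540, 0, [(v 0), (v 96), (v 48), (m (v 49) (v 80))], [(v 81)]⟩,
  ⟨19699759329797369444, 0, [(v 0), (v 96), (m (v 48) (v 80)), (v 49)], [(v 81)]⟩,
  ⟨-41071565737116242070, 0, [(v 0), (v 80), (v 96), (v 81)], [(m (v 48) (v 49))]⟩,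
  ⟨42162850577125718832, 0, [(v 0), (v 80), (v 96), (v 48)], [(m (v 49) (v 81))]⟩,
  ⟨-25521868624612997054, 0, [(v 0), (v 80), (v 81), (v 96)], [(m (v 48) (v 49))]⟩,
  ⟨20698505716518518404, 0, [(v 0), (v 80), (v 81), (v 48)], [(m (v 49) (v 96))]⟩,
  ⟨48482243218169064492, 0, [(v 0), (v 80), (v 48), (v 96)], [(m (v 49) (v 81))]⟩,
  ⟨80373413159542714686, 0, [(v 0), (v 80), (v 48), (v 81)], [(m (v 49) (v 96))]⟩,
  ⟨24211256901035915992, 0, [(v 0), (v 80), (m (v 48) (v 96)), (v 81)], [(v 49)]⟩,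
  ⟨12125472822031568804, 0, [(v 0), (v 80), (m (v 48) (v 96)), (v 49)], [(v 81)]⟩,
  ⟨-2167517825148757604, 0, [(v 0), (m (v 80) (v 96)), (v 81), (v 48)], [(v 49)]⟩,
  ⟨-3614741507903546164, 0, [(v 0), (m (v 80) (v 81)), (v 96), (v 48)], [(v 49)]⟩,
  ⟨3252057040637373296, 0, [(v 0), (m (v 80) (v 81)), (v 48), (v 96)], [(v 49)]⟩,
  ⟨-78390695385360536472, 0, [(v 0), (v 48), (v 96), (v 80)], [(m (v 49) (v 81))]⟩,
  ⟨-125983847097557501312, 0, [(v 0), (v 48), (v 96), (v 49)], [(m (v 80) (v 81))]⟩,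
  ⟨-33372578943139104708, 0, [(v 0), (v 48), (v 80), (v 96)], [(m (v 49) (v 81))]⟩,
  ⟨84224685092443610600, 0, [(v 0), (v 48), (v 80), (v 81)], [(m (v 49) (v 96))]⟩,
  ⟨107603419158989300242, 0, [(v 0), (v 48), (v 80), (v 49)], [(m (v 81) (v 96))]⟩,
  ⟨25333809447708179384, 0, [(v 0), (v 48), (m (v 80) (v 96)), (v 49)], [(v 81)]⟩,
  ⟨-1053376039048026534, 0, [(v 0), (v 48), (m (v 80) (v 81)), (v 96)], [(v 49)]⟩,
  ⟨-84081129968431247435, 0, [(v 0), (v 48), (v 49), (v 96)], [(m (v 80) (v 81))]⟩,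
  ⟨138176200002458794212, 0, [(v 0), (v 48), (v 49), (v 80)], [(m (v 81) (v 96))]⟩,
  ⟨55317053736788150048, 0, [(v 0), (v 48), (v 49), (m (v 80) (v 96))], [(v 81)]⟩,
  ⟨2683650528648243444, 0, [(v 0), (v 48), (m (v 49) (v 80)), (v 81)], [(v 96)]⟩,
  ⟨3856979655253644364, 0, [(v 0), (m (v 48) (v 80)), (v 49), (v 96)], [(v 81)]⟩,
  ⟨-45349212756027474102, 0, [(v 0), (m (v 48) (v 49)), (v 96), (v 80)], [(v 81)]⟩,
  ⟨-25096420422503579382, 0, [(v 0), (m (v 48) (v 49)), (v 80), (v 81)], [(v 96)]⟩,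
  ⟨-16999657257284154244, 0, [(v 48), (v 96), (v 80), (v 81)], [(v 49), (v 0)]⟩,
  ⟨8077478065191954032, 0, [(v 48), (v 96), (v 80), (v 81)], [(v 0), (v 49)]⟩,
  ⟨-11359339972781576492, 0, [(v 48), (v 80), (v 96), (v 49)], [(v 81), (v 0)]⟩,
  ⟨-10626490067552332792, 0, [(v 48), (v 80), (v 81), (v 49)], [(v 96), (v 0)]⟩,
  ⟨1110425551554743292, 0, [(v 48), (v 80), (v 49), (v 81)], [(v 0), (v 96)]⟩,
  ⟨-21944347968823040156, 0, [(v 0), (v 96), (v 80), (v 81)], [(v 48), (v 49)]⟩,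
  ⟨-38557683178317445313, 0, [(v 0), (v 96), (v 48), (v 49)], [(v 80), (v 81)]⟩,
  ⟨-38476814400609549086, 0, [(v 0), (v 80), (v 96), (v 81)], [(v 48), (v 49)]⟩,
  ⟨-14723339419552892897, 0, [(v 0), (v 80), (v 96), (v 48)], [(v 81), (v 49)]⟩,
  ⟨25988971984304016228, 0, [(v 0), (v 80), (v 96), (v 48)], [(v 49), (v 81)]⟩,
  ⟨-30701369637288644684, 0, [(v 0), (v 80), (v 81), (v 96)], [(v 48), (v 49)]⟩,
  ⟨-6608002840934610747, 0, [(v 0), (v 80), (v 81), (v 48)], [(v 96), (v 49)]⟩,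
  ⟨-6725951132549023792, 0, [(v 0), (v 80), (v 48), (v 96)], [(v 81), (v 49)]⟩,
  ⟨12446901733347682220, 0, [(v 0), (v 80), (v 48), (v 96)], [(v 49), (v 81)]⟩,
  ⟨-68086897168859784950, 0, [(v 0), (v 80), (v 48), (v 81)], [(v 96), (v 49)]⟩,
  ⟨61699198950353634071, 0, [(v 0), (v 48), (v 96), (v 80)], [(v 81), (v 49)]⟩,
  ⟨-92078221734475314582, 0, [(v 0), (v 48), (v 96), (v 49)], [(v 80), (v 81)]⟩,
  ⟨27533698059723886168, 0, [(v 0), (v 48), (v 80), (v 96)], [(v 81), (v 49)]⟩,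
  ⟨-31641138796007473964, 0, [(v 0), (v 48), (v 80), (v 96)], [(v 49), (v 81)]⟩,
  ⟨-58436937653676037761, 0, [(v 0), (v 48), (v 80), (v 81)], [(v 96), (v 49)]⟩,
  ⟨-69302155362984548050, 0, [(v 0), (v 48), (v 80), (v 49)], [(v 96), (v 81)]⟩,
  ⟨-74034942050606558183, 0, [(v 0), (v 48), (v 49), (v 96)], [(v 80), (v 81)]⟩,
  ⟨-110279078108849661604, 0, [(v 0), (v 48), (v 49), (v 80)], [(v 96), (v 81)]⟩,
  ⟨17135412930252437136, 0, [(v 0), (v 48), (v 49), (v 80)], [(v 81), (v 96)]⟩,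
  ⟨-6912178568767015620, 1, [(v 96), (v 80), (v 48), (v 49), (m (v 0) (v 81))], []⟩,
  ⟨53792009927558647252, 1, [(v 96), (v 80), (m (v 48) (v 49)), (v 81), (v 0)], []⟩,
  ⟨-3261439056160821626, 1, [(v 96), (v 80), (v 0), (v 81), (m (v 48) (v 49))], []⟩,
  ⟨49060832694010249520, 1, [(v 96), (v 80), (m (v 0) (v 48)), (v 81), (v 49)], []⟩,
  ⟨-3145235471066678071, 1, [(v 96), (m (v 80) (v 81)), (v 48), (v 49), (v 0)], []⟩,
  ⟨-3796049272175478800, 1, [(v 96), (v 48), (v 49), (v 80), (m (v 0) (v 81))], []⟩,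
  ⟨-16561094416464046772, 1, [(v 96), (v 48), (v 0), (v 80), (m (v 49) (v 81))], []⟩,
  ⟨-8145374164902504588, 1, [(v 96), (v 48), (v 0), (m (v 80) (v 81)), (v 49)], []⟩,
  ⟨-34943191528534435592, 1, [(v 80), (v 96), (v 81), (v 48), (m (v 0) (v 49))], []⟩,
  ⟨20655450683191523111, 1, [(v 80), (v 96), (v 81), (m (v 48) (v 49)), (v 0)], []⟩,
  ⟨-27965119369681673980, 1, [(v 80), (v 96), (m (v 0) (v 48)), (v 81), (v 49)], []⟩,
  ⟨-643497570825919997, 1, [(v 80), (v 81), (v 48), (m (v 49) (v 96)), (v 0)], []⟩,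
  ⟨-1169747636152468609, 1, [(v 80), (v 81), (m (v 48) (v 96)), (v 49), (v 0)], []⟩,
  ⟨-16231967374041282297, 1, [(v 80), (v 81), (m (v 48) (v 49)), (v 96), (v 0)], []⟩,
  ⟨27861397531335096233, 1, [(v 80), (v 81), (v 0), (v 96), (m (v 48) (v 49))], []⟩,
  ⟨-24065348259159617433, 1, [(v 80), (v 81), (v 0), (v 48), (m (v 49) (v 96))], []⟩,
  ⟨9661681211574174408, 1, [(v 80), (v 48), (m (v 49) (v 96)), (v 81), (v 0)], []⟩,
  ⟨2647031803148044740, 1, [(v 80), (v 48), (v 0), (v 81), (m (v 49) (v 96))], []⟩,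
  ⟨-16465573718771798636, 1, [(v 80), (v 48), (m (v 0) (v 49)), (v 96), (v 81)], []⟩,
  ⟨-5342678437997498508, 1, [(v 80), (m (v 48) (v 81)), (v 0), (v 96), (v 49)], []⟩,
  ⟨-43295089984431706668, 1, [(v 80), (m (v 48) (v 49)), (v 0), (v 96), (v 81)], []⟩,
  ⟨12611827480302059736, 1, [(m (v 80) (v 81)), (v 96), (v 48), (v 49), (v 0)], []⟩,
  ⟨-4179692716268236255, 1, [(m (v 80) (v 81)), (v 48), (v 49), (v 96), (v 0)], []⟩,
  ⟨11169508688792815845, 1, [(m (v 80) (v 81)), (v 48), (v 0), (v 96), (v 49)], []⟩,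
  ⟨-39504283905572792376, 1, [(v 48), (v 96), (v 80), (v 81), (m (v 0) (v 49))], []⟩,
  ⟨6379167196913771544, 1, [(v 48), (v 96), (m (v 49) (v 80)), (v 81), (v 0)], []⟩,
  ⟨-2616500683509262632, 1, [(v 48), (v 80), (v 81), (v 96), (m (v 0) (v 49))], []⟩,
  ⟨3154195230573756844, 1, [(v 48), (v 80), (v 81), (v 49), (m (v 0) (v 96))], []⟩,
  ⟨3139186983895235096, 1, [(v 48), (v 80), (v 49), (v 96), (m (v 0) (v 81))], []⟩,
  ⟨-17853604081483974198, 1, [(v 48), (v 80), (v 49), (m (v 81) (v 96)), (v 0)], []⟩,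
  ⟨3012657410763262576, 1, [(v 48), (v 80), (v 0), (v 96), (m (v 49) (v 81))], []⟩,
  ⟨12987123474939012448, 1, [(v 48), (v 80), (v 0), (m (v 81) (v 96)), (v 49)], []⟩,
  ⟨10423145981625498998, 1, [(v 48), (m (v 80) (v 81)), (v 49), (v 96), (v 0)], []⟩,
  ⟨-3412029587947603937, 1, [(v 48), (m (v 80) (v 81)), (v 0), (v 96), (v 49)], []⟩,
  ⟨19839697525006383449, 1, [(v 48), (v 49), (v 0), (v 96), (m (v 80) (v 81))], []⟩,
  ⟨-16307381356732698342, 1, [(m (v 48) (v 96)), (v 80), (v 81), (v 49), (v 0)], []⟩,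
  ⟨20616031979799621118, 1, [(m (v 48) (v 96)), (v 80), (v 0), (v 81), (v 49)], []⟩,
  ⟨-14301736516732533648, 1, [(m (v 48) (v 80)), (v 96), (v 81), (v 49), (v 0)], []⟩,
  ⟨17572637623736877856, 1, [(m (v 48) (v 80)), (v 96), (v 49), (v 81), (v 0)], []⟩,
  ⟨-9603423108948397430, 1, [(m (v 48) (v 80)), (v 96), (v 0), (v 81), (v 49)], []⟩,
  ⟨14939640986932252568, 1, [(m (v 48) (v 80)), (v 81), (v 49), (v 96), (v 0)], []⟩,
  ⟨-987484367613186374, 1, [(m (v 48) (v 80)), (v 81), (v 0), (v 96), (v 49)], []⟩,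
  ⟨5726917913338662926, 1, [(m (v 48) (v 80)), (v 49), (v 0), (v 96), (v 81)], []⟩,
  ⟨-12879781720252022842, 1, [(m (v 48) (v 49)), (v 80), (v 81), (v 96), (v 0)], []⟩,
  ⟨8747854353955078554, 1, [(m (v 48) (v 49)), (v 80), (v 0), (v 96), (v 81)], []⟩,
  ⟨17975856153749560728, 1, [(v 0), (v 96), (v 80), (v 48), (m (v 49) (v 81))], []⟩,
  ⟨-14829913736470481657, 1, [(v 0), (v 96), (v 48), (m (v 80) (v 81)), (v 49)], []⟩,
  ⟨-13945292647955456992, 1, [(v 0), (v 80), (v 48), (v 96), (m (v 49) (v 81))], []⟩,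
  ⟨-6499528935332824068, 1, [(v 0), (v 80), (m (v 48) (v 49)), (v 96), (v 81)], []⟩,
  ⟨-22783555489552774624, 1, [(v 0), (m (v 80) (v 96)), (v 48), (v 81), (v 49)], []⟩,
  ⟨66796746741666033908, 1, [(v 0), (v 48), (v 49), (v 80), (m (v 81) (v 96))], []⟩,
  ⟨18840003254142015928, 1, [(v 0), (v 48), (m (v 49) (v 80)), (v 96), (v 81)], []⟩,
  ⟨-6234142965055383976, 1, [(m (v 0) (v 96)), (v 80), (v 48), (v 81), (v 49)], []⟩,
  ⟨4874111260245315422, 1, [(m (v 0) (v 80)), (v 96), (v 48), (v 81), (v 49)], []⟩,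
  ⟨-3698107658104561064, 1, [(m (v 0) (v 80)), (v 48), (v 49), (v 96), (v 81)], []⟩,
  ⟨-18330942235581960666, 1, [(m (v 0) (v 48)), (v 80), (v 81), (v 96), (v 49)], []⟩,
  ⟨-37194884297837017717, 1, [(v 96), (v 48), (v 0), (v 80), (v 49)], [(v 81)]⟩,
  ⟨8678257923645253660, 1, [(v 80), (v 96), (v 48), (v 81), (v 0)], [(v 49)]⟩,
  ⟨6942041979031373211, 1, [(v 80), (v 96), (v 0), (v 81), (v 48)], [(v 49)]⟩,
  ⟨20585362916107868771, 1, [(v 80), (v 81), (v 0), (v 96), (v 48)], [(v 49)]⟩,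
  ⟨-3792026013192131992, 1, [(v 80), (v 48), (v 49), (v 96), (v 81)], [(v 0)]⟩,
  ⟨14901499452503650479, 1, [(v 80), (v 48), (v 0), (v 96), (v 49)], [(v 81)]⟩,
  ⟨-3777333211416680000, 1, [(v 80), (v 48), (v 0), (v 81), (v 49)], [(v 96)]⟩,
  ⟨3606966595318553792, 1, [(v 48), (v 96), (v 80), (v 81), (v 49)], [(v 0)]⟩,
  ⟨3036782067081062591, 1, [(v 48), (v 96), (v 80), (v 49), (v 0)], [(v 81)]⟩,
  ⟨-23320392172339790289, 1, [(v 48), (v 96), (v 49), (v 80), (v 0)], [(v 81)]⟩,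
  ⟨223402555811417834, 1, [(v 48), (v 80), (v 81), (v 49), (v 0)], [(v 96)]⟩,
  ⟨20522236437919270762, 1, [(v 48), (v 80), (v 49), (v 96), (v 0)], [(v 81)]⟩,
  ⟨-13804884830458592804, 1, [(v 48), (v 80), (v 49), (v 81), (v 0)], [(v 96)]⟩,
  ⟨-25273231509140678561, 1, [(v 48), (v 80), (v 0), (v 96), (v 81)], [(v 49)]⟩,
  ⟨-15333078648765302908, 1, [(v 0), (v 96), (v 48), (v 80), (v 49)], [(v 81)]⟩,
  ⟨20886824150594846661, 1, [(v 0), (v 80), (v 48), (v 96), (v 49)], [(v 81)]⟩,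
  ⟨-19301537831815453636, 1, [(v 0), (v 80), (v 48), (v 81), (v 49)], [(v 96)]⟩,
  ⟨-34789333510457764190, 1, [(v 0), (v 48), (v 49), (v 96), (v 80)], [(v 81)]⟩]

/-- identity -/
def vhq : P :=
  tBrP (v 0) (v 48) (v 49) (v 80) (v 81) (v 96) ++ smulP (-1) (tBrP (v 0) (v 48) (v 49) (v 81) (v 80) (v 96))

theorem vhk : zeroChk [48, 49, 80, 81] (smulP 35558771619599594015 (expP vhq) ++ instAll tmV vhc) = true := by
  decide +kernel

theorem vhs : symChk [48, 49, 80, 81] vhq = true := by decide +kernel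

theorem vh (hV : IsV A) [IsAddTorsionFree A] (a b c x y z : A) :
    brP6 a b c x y z = brP6 a b c y x z := by
  have h := cert6 hV.toIsMalcev tmV (tmV_ev hV) _ vhq _ (by norm_num) vhc vhk (by decide +kernel)
    vhs
    (val [(0, a), (48, b), (49, c), (80, x), (81, y), (96, z)])
  simp only [vhq, evQ_append, evQ_smulP, rmulV_ev, tP_ev, tTh_ev, tG_ev, tBrG_ev, tThG_ev, tBrP_ev,
    T.ev] at h
  simp [val] at h
  linear_combination (norm := module) h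

end Pool.Agent.Hhelper8.Chk
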