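import Mathlib
import Pool.Agent.Hhelper8.Free
import Pool.Agent.Hhelper8.Interface
import Pool.Agent.Hhelper8.Cert.Checker
import Pool.Agent.Hhelper8.Cert.Sound
import Pool.Agent.Hhelper8.Cert.Basic
import Pool.Agent.Hhelper8.Cert.Additive
import Pool.Agent.Hhelper8.Cert.Var

/-!
Part V: the identities of the algebras of the variety `V` used in Part B.
-/

namespace Pool.Agent.Hhelper8.Chk

open Pool.Agent.Hhelper8 T

universe u

variable {A : Type*} [NonUnitalNonAssocRing A]

/-- the bracket version of the Malcev identity -/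
def D1 (x y z c u : A) : A :=
  P6 (x * z) (y * x) c u - P6 ((x * y) * z) x c u - P6 ((y * z) * x) x c u
    - P6 ((z * x) * x) y c u

theorem P6_F4 (ha : ∀ x y : A, x * y = -(y * x)) (a b c u : A) :
    P6 a b c u - P6 a b u c = -((2 : ℤ) • S4 a b c u) := by
  have h : S4 a b u c = -S4 a b c u := by
    simp only [S4]
    rw [ha u c, mul_neg]
    module
  simp only [P6]
  rw [h]
  module

theorem S4_eq (a b c u a' b' : A) (h : a * b = a' * b') : S4 a b c u = S4 a' b' c u := by
  simp only [S4, h]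

/-- `S4` as a function of the product -/
def Sop (w c u : A) : A := (w * c) * u - (w * u) * c + (w * (c * u) + w * (c * u))

theorem S4_Sop (a b c u : A) : S4 a b c u = Sop (a * b) c u := rfl

theorem Sop_sub (w w' c u : A) : Sop (w - w') c u = Sop w c u - Sop w' c u := by
  simp only [Sop, sub_mul]; abel

theorem Sop_zero (c u : A) : Sop (0 : A) c u = 0 := by simp [Sop]

theorem two_zero [IsAddTorsionFree A] {x : A} (h : (2 : ℤ) • x = 0) : x = 0 :=
  (smul_right_injective A (two_ne_zero : (2 : ℤ) ≠ 0)) (by simpa using h)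

theorem D1_zero (hV : IsV A) [IsAddTorsionFree A] (x y z c u : A) : D1 x y z c u = 0 := by
  have hs : (x * z) * (y * x) - ((x * y) * z) * x - ((y * z) * x) * x - ((z * x) * x) * y = 0 := by
    have h := sagle_ev hV.toIsMalcev triv (val [(0, x), (1, y), (2, z), (3, x)])
    simp [sagle, evQ, T.ev, val, hV.mul_self] at h
    linear_combination (norm := module) h
  have h1 : D1 x y z (c + u) (c + u) = 0 := vF hV x y z (c + u)
  have h2 : D1 x y z c c = 0 := vF hV x y z c
  have h3 : D1 x y z u u = 0 := vF hV x y z u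
  have h4 : D1 x y z c u + D1 x y z u c = 0 := by
    simp only [D1, P6_add3, P6_add4] at h1 h2 h3 ⊢
    linear_combination (norm := module) h1 - h2 - h3
  have h5 : D1 x y z c u - D1 x y z u c = 0 := by
    have e : D1 x y z c u - D1 x y z u c = -((2 : ℤ) • (Sop ((x * z) * (y * x)
        - ((x * y) * z) * x - ((y * z) * x) * x - ((z * x) * x) * y) c u)) := by
      rw [Sop_sub, Sop_sub, Sop_sub, ← S4_Sop, ← S4_Sop, ← S4_Sop, ← S4_Sop]
      have e1 := P6_F4 (anti hV.toIsMalcev) (x * z) (y * x) c u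
      have e2 := P6_F4 (anti hV.toIsMalcev) ((x * y) * z) x c u
      have e3 := P6_F4 (anti hV.toIsMalcev) ((y * z) * x) x c u
      have e4 := P6_F4 (anti hV.toIsMalcev) ((z * x) * x) y c u
      simp only [D1]
      linear_combination (norm := module) e1 - e2 - e3 - e4
    rw [e, hs, Sop_zero, smul_zero, neg_zero]
  apply two_zero
  linear_combination (norm := module) h4 + h5

/-- polarised version -/
def tD2 (a c b d s t : T) : P :=
  [(1, p (m a d) (m b c) s t), (1, p (m c d) (m b a) s t), (-1, p (m (m a b) d) c s t),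
   (-1, p (m (m c b) d) a s t), (-1, p (m (m b d) a) c s t), (-1, p (m (m b d) c) a s t),
   (-1, p (m (m d a) c) b s t), (-1, p (m (m d c) a) b s t)]

theorem tD2_ev (hV : IsV A) [IsAddTorsionFree A] (b' : ℕ → A) (a c b d s t : T) :
    evQ ops6 b' (tD2 a c b d s t) = 0 := by
  have h1 := D1_zero hV (a.ev ops6 b' + c.ev ops6 b') (b.ev ops6 b') (d.ev ops6 b')
    (s.ev ops6 b') (t.ev ops6 b')
  have h2 := D1_zero hV (a.ev ops6 b') (b.ev ops6 b') (d.ev ops6 b') (s.ev ops6 b') (t.ev ops6 b')
  have h3 := D1_zero hV (c.ev ops6 b') (b.ev ops6 b') (d.ev ops6 b') (s.ev ops6 b') (t.ev ops6 b')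
  simp only [D1, add_mul, mul_add, P6_add1, P6_add2] at h1 h2 h3
  simp only [tD2, evQ, T.ev, List.map_cons, List.map_nil, List.sum_cons, List.sum_nil]
  have e : ∀ x y z r : A, (ops6 : Ops A).ph x y z r = P6 x y z r := fun _ _ _ _ => rfl
  simp only [e]
  linear_combination (norm := module) h1 - h2 - h3

/-- the bracket version of the Sagle identity -/
def F3q : P :=
  [(1, p (m (v 0) (v 2)) (m (v 1) (v 3)) (v 4) (v 5)),
   (-1, p (m (m (v 0) (v 1)) (v 2)) (v 3) (v 4) (v 5)),
   (-1, p (m (m (v 1) (v 2)) (v 3)) (v 0) (v 4) (v 5)),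
   (-1, p (m (m (v 2) (v 3)) (v 0)) (v 1) (v 4) (v 5)),
   (-1, p (m (m (v 3) (v 0)) (v 1)) (v 2) (v 4) (v 5))]

theorem F3k : zeroChk [] (smulP 2 F3q ++ (tD2 (v 0) (v 2) (v 1) (v 3) (v 4) (v 5)
    ++ (smulP (-1) (tD2 (v 1) (v 2) (v 3) (v 0) (v 4) (v 5))
    ++ smulP (-1) (tD2 (v 2) (v 3) (v 0) (v 1) (v 4) (v 5))))) = true := by decide +kernel

theorem vF3a (hV : IsV A) [IsAddTorsionFree A] (x y z t c u : A) :
    P6 (x * z) (y * t) c u = P6 ((x * y) * z) t c u
      + P6 ((y * z) * t) x c u + P6 ((z * t) * x) y c u + P6 ((t * x) * y) z c u := by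
  have h := zeroChk_nil ops6 (ops6_good hV.toIsMalcev)
    (val [(0, x), (1, y), (2, z), (3, t), (4, c), (5, u)]) _ F3k
  rw [evQ_append, evQ_append, evQ_append, evQ_smulP, evQ_smulP, evQ_smulP, tD2_ev hV, tD2_ev hV,
    tD2_ev hV, smul_zero, add_zero, add_zero, add_zero] at h
  have h2 := two_zero h
  simp only [F3q, evQ, T.ev, List.map_cons, List.map_nil, List.sum_cons, List.sum_nil] at h2
  have e : ∀ x y z r : A, (ops6 : Ops A).ph x y z r = P6 x y z r := fun _ _ _ _ => rfl
  simp [e, val] at h2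
  linear_combination (norm := module) h2

theorem partV : PartV.{u} := by
  intro A _ _ hV
  exact
    { toIsV := hV
      ida := va hV
      idb := P6_12 hV.toIsMalcev
      idc := vc hV
      idf := vf hV
      idk := vk hV
      idl := vl hV
      idn1 := vn1 hV
      idn2 := vn2 hV
      idn3 := vn3 hV
      idF3a := vF3a hV
      idh0 := vh hV }

end Pool.Agent.Hhelper8.Chk
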